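import Mathlib

set_option autoImplicit false

open Finset

namespace Pool.Agent.H853R3.NL

lemma pf_inj {m n : ℕ} (hm : Squarefree m) (hn : Squarefree n) (h : m.primeFactors = n.primeFactors) :
    m = n := by
  rw [← Nat.prod_primeFactors_of_squarefree hm, ← Nat.prod_primeFactors_of_squarefree hn, h]

lemma sum_image_pf (S : Finset ℕ) (hS : ∀ n ∈ S, Squarefree n) (h : ℕ → ℝ) :
    ∑ n ∈ S, ∏ p ∈ n.primeFactors, h p = ∑ T ∈ S.image Nat.primeFactors, ∏ p ∈ T, h p := by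
  classical
  rw [Finset.sum_image]
  intro a ha b hb hab
  exact pf_inj (hS a ha) (hS b hb) hab

lemma sum_le_prod (S : Finset ℕ) (hS : ∀ n ∈ S, Squarefree n) (P : Finset ℕ)
    (hP : ∀ n ∈ S, n.primeFactors ⊆ P) (h : ℕ → ℝ) (hh : ∀ p ∈ P, 0 ≤ h p) :
    ∑ n ∈ S, ∏ p ∈ n.primeFactors, h p ≤ ∏ p ∈ P, (1 + h p) := by
  classical
  rw [Finset.prod_one_add, sum_image_pf S hS h]
  apply Finset.sum_le_sum_of_subset_of_nonneg
  · intro T hT
    rw [mem_image] at hT
    obtain ⟨n, hn, rfl⟩ := hT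
    exact mem_powerset.2 (hP n hn)
  · intro T hT _
    apply Finset.prod_nonneg
    intro p hp
    exact hh p ((Finset.mem_powerset.1 hT) hp)

lemma prod_le_exp (P : Finset ℕ) (h : ℕ → ℝ) (hh : ∀ p ∈ P, 0 ≤ h p) :
    ∏ p ∈ P, (1 + h p) ≤ Real.exp (∑ p ∈ P, h p) := by
  rw [Real.exp_sum]
  apply Finset.prod_le_prod
  · intro p hp
    have := hh p hp
    linarith
  · intro p _
    have := Real.add_one_le_exp (h p)
    linarith

lemma sum_two (S : Finset ℕ) (hS : ∀ n ∈ S, Squarefree n ∧ 2 ≤ n.primeFactors.card) (P : Finset ℕ)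
    (hP : ∀ n ∈ S, n.primeFactors ⊆ P) (a : ℕ → ℝ) (ha : ∀ p ∈ P, 0 ≤ a p) (E : ℝ)
    (hE : ∑ p ∈ P, a p ≤ E) (hE1 : E ≤ 1) :
    ∑ n ∈ S, ∏ p ∈ n.primeFactors, a p ≤ E ^ 2 := by
  classical
  have hE0 : 0 ≤ ∑ p ∈ P, a p := Finset.sum_nonneg ha
  have key : ∑ n ∈ S, ∏ p ∈ n.primeFactors, a p + (1 + ∑ p ∈ P, a p) ≤ ∏ p ∈ P, (1 + a p) := by
    rw [Finset.prod_one_add, sum_image_pf S (fun n hn => (hS n hn).1) a]
    have h1 : (1 : ℝ) + ∑ p ∈ P, a p = ∑ T ∈ insert ∅ (P.image (fun p => ({p} : Finset ℕ))), ∏ p ∈ T, a p := by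
      rw [Finset.sum_insert]
      · rw [Finset.sum_image]
        · simp
        · intro x _ y _ hxy
          exact Finset.singleton_injective hxy
      · simp
    rw [h1, ← Finset.sum_union]
    · apply Finset.sum_le_sum_of_subset_of_nonneg
      · intro T hT
        rw [mem_union, mem_image, mem_insert, mem_image] at hT
        rw [mem_powerset]
        rcases hT with ⟨n, hn, rfl⟩ | rfl | ⟨p, hp, rfl⟩
        · exact hP n hn
        · exact empty_subset _
        · exact singleton_subset_iff.2 hp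
      · intro T hT _
        apply Finset.prod_nonneg
        intro p hp
        exact ha p ((Finset.mem_powerset.1 hT) hp)
    · rw [Finset.disjoint_left]
      intro T hT hT'
      rw [mem_image] at hT
      obtain ⟨n, hn, rfl⟩ := hT
      have h2 := (hS n hn).2
      rw [mem_insert, mem_image] at hT'
      rcases hT' with h | ⟨p, _, h⟩
      · rw [h] at h2; simp at h2
      · rw [← h] at h2; simp at h2
  have h2 := prod_le_exp P a ha
  have h3 := Real.abs_exp_sub_one_sub_id_le (x := ∑ p ∈ P, a p) (by rw [abs_of_nonneg hE0]; linarith)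
  have h4 := le_abs_self (Real.exp (∑ p ∈ P, a p) - 1 - ∑ p ∈ P, a p)
  have h5 : (∑ p ∈ P, a p) ^ 2 ≤ E ^ 2 := pow_le_pow_left₀ hE0 hE 2
  linarith

/-- sum of at least one number `≥ 2` is at most the product -/
lemma sum_le_prod_of_two_le (F : Finset ℕ) (hF : F.Nonempty) (t : ℕ → ℝ) (ht : ∀ p ∈ F, 2 ≤ t p) :
    ∑ p ∈ F, t p ≤ ∏ p ∈ F, t p := by
  classical
  induction hF using Finset.Nonempty.cons_induction with
  | singleton a => simp
  | cons a s has hs ih =>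
    rw [Finset.sum_cons, Finset.prod_cons]
    have h1 := ih (fun p hp => ht p (Finset.mem_cons_of_mem hp))
    have h2 := ht a (Finset.mem_cons_self a s)
    have h3 : 2 ≤ ∑ p ∈ s, t p := by
      obtain ⟨b, hb⟩ := hs
      have := Finset.single_le_sum (f := t) (fun p hp => by
        have := ht p (Finset.mem_cons_of_mem hp); linarith) hb
      have := ht b (Finset.mem_cons_of_mem hb)
      linarith
    nlinarith

lemma sum_le_card_mul (F : Finset ℕ) (q : ℕ) (hq : q ∈ F) (t : ℕ → ℝ) (ht0 : 0 ≤ t q) (hmax : ∀ p ∈ F, t p ≤ t q) :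
    ∑ p ∈ F, t p ≤ 2 ^ (F.erase q).card * t q := by
  have h1 : ∑ p ∈ F, t p ≤ F.card • t q := Finset.sum_le_card_nsmul F t (t q) hmax
  rw [nsmul_eq_mul] at h1
  have h2 : F.card = (F.erase q).card + 1 := (Finset.card_erase_add_one hq).symm
  have h3 : (F.erase q).card + 1 ≤ 2 ^ (F.erase q).card := Nat.lt_two_pow_self
  have h4 : (F.card : ℝ) ≤ 2 ^ (F.erase q).card := by
    rw [h2]; exact_mod_cast h3
  exact h1.trans (mul_le_mul_of_nonneg_right h4 ht0)

lemma ns_ineq (F : Finset ℕ) (q : ℕ) (hq : q ∈ F) (t : ℕ → ℝ) (C1 : ℝ) (hC1 : 1 ≤ C1)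
    (ht : ∀ p ∈ F, 16 * C1 ≤ t p) (hmax : ∀ p ∈ F, t p ≤ t q) :
    (∑ p ∈ F, t p) ^ 4 * C1 ^ (F.erase q).card ≤ t q ^ 4 * ∏ p ∈ F.erase q, t p := by
  have htq : 0 < t q := by have := ht q hq; linarith
  have h0 : 0 ≤ ∑ p ∈ F, t p := Finset.sum_nonneg fun p hp => by have := ht p hp; linarith
  have h1 := sum_le_card_mul F q hq t htq.le hmax
  have h2 : (∑ p ∈ F, t p) ^ 4 ≤ 16 ^ (F.erase q).card * t q ^ 4 := by
    have := pow_le_pow_left₀ h0 h1 4
    calc (∑ p ∈ F, t p) ^ 4 ≤ (2 ^ (F.erase q).card * t q) ^ 4 := this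
      _ = 16 ^ (F.erase q).card * t q ^ 4 := by
        rw [mul_pow, ← pow_mul, mul_comm _ 4, pow_mul]; norm_num
  have h3 : (16 * C1) ^ (F.erase q).card ≤ ∏ p ∈ F.erase q, t p := by
    rw [← Finset.prod_const]
    apply Finset.prod_le_prod
    · intro p _; linarith
    · intro p hp; exact ht p (Finset.mem_of_mem_erase hp)
  have hC : (0 : ℝ) ≤ C1 ^ (F.erase q).card := pow_nonneg (by linarith) _
  calc (∑ p ∈ F, t p) ^ 4 * C1 ^ (F.erase q).card
      ≤ (16 ^ (F.erase q).card * t q ^ 4) * C1 ^ (F.erase q).card := mul_le_mul_of_nonneg_right h2 hC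
    _ = t q ^ 4 * (16 * C1) ^ (F.erase q).card := by rw [mul_pow]; ring
    _ ≤ _ := mul_le_mul_of_nonneg_left h3 (by positivity)

lemma smooth_ineq (F : Finset ℕ) (q : ℕ) (hq : q ∈ F) (h2 : 2 ≤ F.card) (t : ℕ → ℝ) (C1 : ℝ) (hC1 : 1 ≤ C1)
    (ht : ∀ p ∈ F, 16 * C1 ≤ t p) (hmax : ∀ p ∈ F, t p ≤ t q) (hs : 4 * t q ≤ ∑ p ∈ F, t p) :
    (∑ p ∈ F, t p) ^ 4 * C1 ^ F.card ≤ ∏ p ∈ F, t p ^ 3 := by
  have htq : 0 < t q := by have := ht q hq; linarith
  have hne : (F.erase q).Nonempty := by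
    rw [← Finset.card_pos, Finset.card_erase_of_mem hq]; omega
  have h0 : 0 ≤ ∑ p ∈ F, t p := Finset.sum_nonneg fun p hp => by have := ht p hp; linarith
  have h1 := sum_le_card_mul F q hq t htq.le hmax
  have hsplit : ∑ p ∈ F, t p = t q + ∑ p ∈ F.erase q, t p := (Finset.add_sum_erase F t hq).symm
  have hpsplit : ∏ p ∈ F, t p ^ 3 = t q ^ 3 * ∏ p ∈ F.erase q, t p ^ 3 := (Finset.mul_prod_erase F (fun p => t p ^ 3) hq).symm
  have h3 : ∑ p ∈ F, t p ≤ 2 * ∏ p ∈ F.erase q, t p := by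
    have h4 := sum_le_prod_of_two_le (F.erase q) hne t (fun p hp => by
      have := ht p (Finset.mem_of_mem_erase hp); linarith)
    have h5 : 0 ≤ ∑ p ∈ F.erase q, t p := Finset.sum_nonneg fun p hp => by
      have := ht p (Finset.mem_of_mem_erase hp); linarith
    linarith
  have hcard : F.card = (F.erase q).card + 1 := (Finset.card_erase_add_one hq).symm
  -- the main product inequality
  have h6 : 2 * C1 * (8 * C1) ^ (F.erase q).card ≤ ∏ p ∈ F.erase q, t p ^ 2 := by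
    have h7 : (256 * C1 ^ 2) ^ (F.erase q).card ≤ ∏ p ∈ F.erase q, t p ^ 2 := by
      rw [← Finset.prod_const]
      apply Finset.prod_le_prod
      · intro p _; positivity
      · intro p hp
        have := ht p (Finset.mem_of_mem_erase hp)
        nlinarith
    have h8 : 2 * C1 ≤ (32 * C1) ^ (F.erase q).card := by
      have hk : 1 ≤ (F.erase q).card := Finset.card_pos.2 hne
      calc 2 * C1 ≤ (32 * C1) ^ 1 := by rw [pow_one]; linarith
        _ ≤ _ := pow_le_pow_right₀ (by linarith) hk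
    calc 2 * C1 * (8 * C1) ^ (F.erase q).card ≤ (32 * C1) ^ (F.erase q).card * (8 * C1) ^ (F.erase q).card :=
          mul_le_mul_of_nonneg_right h8 (by positivity)
      _ = (256 * C1 ^ 2) ^ (F.erase q).card := by rw [← mul_pow]; ring
      _ ≤ _ := h7
  have hP0 : 0 ≤ ∏ p ∈ F.erase q, t p := Finset.prod_nonneg fun p hp => by
    have := ht p (Finset.mem_of_mem_erase hp); linarith
  have h9 : (∑ p ∈ F, t p) ^ 3 ≤ 8 ^ (F.erase q).card * t q ^ 3 := by
    have := pow_le_pow_left₀ h0 h1 3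
    calc (∑ p ∈ F, t p) ^ 3 ≤ (2 ^ (F.erase q).card * t q) ^ 3 := this
      _ = 8 ^ (F.erase q).card * t q ^ 3 := by
        rw [mul_pow, ← pow_mul, mul_comm _ 3, pow_mul]; norm_num
  have h10 : (∑ p ∈ F, t p) ^ 4 ≤ (8 ^ (F.erase q).card * t q ^ 3) * (2 * ∏ p ∈ F.erase q, t p) := by
    calc (∑ p ∈ F, t p) ^ 4 = (∑ p ∈ F, t p) ^ 3 * (∑ p ∈ F, t p) := by ring
      _ ≤ _ := mul_le_mul h9 h3 h0 (by positivity)
  have h11 : ∏ p ∈ F.erase q, t p ^ 3 = (∏ p ∈ F.erase q, t p) * ∏ p ∈ F.erase q, t p ^ 2 := by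
    rw [← Finset.prod_mul_distrib]
    apply Finset.prod_congr rfl
    intro p _; ring
  rw [hpsplit, h11, hcard]
  calc (∑ p ∈ F, t p) ^ 4 * C1 ^ ((F.erase q).card + 1)
      ≤ ((8 ^ (F.erase q).card * t q ^ 3) * (2 * ∏ p ∈ F.erase q, t p)) * C1 ^ ((F.erase q).card + 1) :=
        mul_le_mul_of_nonneg_right h10 (by positivity)
    _ = t q ^ 3 * (∏ p ∈ F.erase q, t p) * (2 * C1 * (8 * C1) ^ (F.erase q).card) := by
        rw [mul_pow, pow_succ]; ring
    _ ≤ t q ^ 3 * (∏ p ∈ F.erase q, t p) * ∏ p ∈ F.erase q, t p ^ 2 :=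
        mul_le_mul_of_nonneg_left h6 (mul_nonneg (by positivity) hP0)
    _ = _ := by ring

/-- `∑ 1/(p log² p)` over a finite set of integers `≥ 3` -/
lemma sum_inv_log_sq (P : Finset ℕ) (hP : ∀ p ∈ P, 3 ≤ p) :
    ∑ p ∈ P, 1 / ((p : ℝ) * Real.log p ^ 2) ≤ 3 / 2 := by
  have htel : ∀ N : ℕ, ∑ p ∈ Finset.Ico 3 (N + 3), 1 / ((p : ℝ) * Real.log p ^ 2) ≤ 1 / Real.log 2 - 1 / Real.log (N + 2) := by
    intro N
    induction N with
    | zero => simp
    | succ N ih =>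
      rw [show N + 1 + 3 = (N + 3) + 1 by ring, Finset.sum_Ico_succ_top (by omega)]
      have hN : (0 : ℝ) ≤ N := Nat.cast_nonneg N
      have hl1 : 0 < Real.log ((N : ℝ) + 2) := Real.log_pos (by linarith)
      have hl2 : 0 < Real.log ((N : ℝ) + 3) := Real.log_pos (by linarith)
      have hl3 : Real.log ((N : ℝ) + 2) ≤ Real.log ((N : ℝ) + 3) := Real.log_le_log (by linarith) (by linarith)
      have hd : 1 / ((N : ℝ) + 3) ≤ Real.log ((N : ℝ) + 3) - Real.log ((N : ℝ) + 2) := by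
        have h := Real.log_le_sub_one_of_pos (x := ((N : ℝ) + 2) / (N + 3)) (by positivity)
        rw [Real.log_div (by positivity) (by positivity)] at h
        have : ((N : ℝ) + 2) / (N + 3) - 1 = -(1 / ((N : ℝ) + 3)) := by
          field_simp
          ring
        rw [this] at h
        linarith
      have hstep : 1 / (((N + 3 : ℕ) : ℝ) * Real.log ((N + 3 : ℕ) : ℝ) ^ 2) ≤ 1 / Real.log ((N : ℝ) + 2) - 1 / Real.log ((N : ℝ) + 3) := by
        push_cast
        have e : 1 / Real.log ((N : ℝ) + 2) - 1 / Real.log ((N : ℝ) + 3) =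
            (Real.log ((N : ℝ) + 3) - Real.log ((N : ℝ) + 2)) / (Real.log ((N : ℝ) + 2) * Real.log ((N : ℝ) + 3)) := by
          field_simp
        rw [e]
        calc 1 / (((N : ℝ) + 3) * Real.log ((N : ℝ) + 3) ^ 2) = (1 / ((N : ℝ) + 3)) / (Real.log ((N : ℝ) + 3) * Real.log ((N : ℝ) + 3)) := by
              field_simp
          _ ≤ (Real.log ((N : ℝ) + 3) - Real.log ((N : ℝ) + 2)) / (Real.log ((N : ℝ) + 2) * Real.log ((N : ℝ) + 3)) := by
              apply div_le_div₀ (by linarith) hd (by positivity)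
              exact mul_le_mul_of_nonneg_right hl3 hl2.le
      have e3 : (((N + 1 : ℕ) : ℝ) + 2) = (N : ℝ) + 3 := by push_cast; ring
      rw [e3]
      linarith
  have hl2 : (0.6931471803 : ℝ) < Real.log 2 := Real.log_two_gt_d9
  have h1 : P ⊆ Finset.Ico 3 (P.sup id + 3) := by
    intro p hp
    rw [Finset.mem_Ico]
    have : p ≤ P.sup id := Finset.le_sup (f := id) hp
    exact ⟨hP p hp, by omega⟩
  have h2 : ∑ p ∈ P, 1 / ((p : ℝ) * Real.log p ^ 2) ≤ ∑ p ∈ Finset.Ico 3 (P.sup id + 3), 1 / ((p : ℝ) * Real.log p ^ 2) :=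
    Finset.sum_le_sum_of_subset_of_nonneg h1 (fun p _ _ => by positivity)
  have h3 := htel (P.sup id)
  have h4 : 0 ≤ 1 / Real.log (((P.sup id : ℕ) : ℝ) + 2) := by
    apply one_div_nonneg.2
    apply Real.log_nonneg
    have : (0 : ℝ) ≤ ((P.sup id : ℕ) : ℝ) := Nat.cast_nonneg _
    linarith
  have h5 : 1 / Real.log 2 ≤ 3 / 2 := by
    rw [div_le_div_iff₀ (by linarith) (by norm_num)]
    linarith
  linarith

end Pool.Agent.H853R3.NL
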