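import Mathlib
import Pool.Agent.H469R10.HO.Stmts2

set_option autoImplicit false

open Finset Pool.Agent.H469R10.HO

namespace Pool.Agent.H853R3.NL

/-- left end of the cell in the variable `n` -/
noncomputable def N1 (c lam : ℝ) (y : ℕ) : ℝ := (Real.pi / (2 * c) * ((y : ℝ) - 1 / 2)) ^ lam
/-- right end of the cell in the variable `n` -/
noncomputable def N2 (c lam : ℝ) (y : ℕ) : ℝ := (Real.pi / (2 * c) * ((y : ℝ) + 1 / 2)) ^ lam

lemma N1_pos (c lam : ℝ) (hc : 0 < c) (y : ℕ) (hy : 1 ≤ y) : 0 < N1 c lam y := by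
  have hy' : (1 : ℝ) ≤ y := by exact_mod_cast hy
  unfold N1
  apply Real.rpow_pos_of_pos
  have := Real.pi_pos
  apply mul_pos (by positivity) (by linarith)

lemma N2_le (c lam : ℝ) (hc : 0 < c) (hlam : 0 ≤ lam) (y : ℕ) (hy : 1 ≤ y) :
    N2 c lam y ≤ 3 ^ lam * N1 c lam y := by
  have hy' : (1 : ℝ) ≤ y := by exact_mod_cast hy
  have hpi := Real.pi_pos
  unfold N1 N2
  rw [← Real.mul_rpow (by norm_num) (mul_nonneg (by positivity) (by linarith))]
  apply Real.rpow_le_rpow (by positivity) _ hlam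
  have h : (y : ℝ) + 1 / 2 ≤ 3 * (y - 1 / 2) := by linarith
  calc Real.pi / (2 * c) * ((y : ℝ) + 1 / 2) ≤ Real.pi / (2 * c) * (3 * (y - 1 / 2)) :=
        mul_le_mul_of_nonneg_left h (by positivity)
    _ = _ := by ring

lemma D_lower (c lam : ℝ) (hc : 0 < c) (hlam : 1 ≤ lam) (y : ℕ) (hy : 1 ≤ y) :
    lam * N1 c lam y / ((y : ℝ) - 1 / 2) ≤ N2 c lam y - N1 c lam y := by
  have hy' : (1 : ℝ) ≤ y := by exact_mod_cast hy
  have hpi := Real.pi_pos
  have ha : (0 : ℝ) < (y : ℝ) - 1 / 2 := by linarith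
  have e : N2 c lam y = N1 c lam y * (1 + 1 / ((y : ℝ) - 1 / 2)) ^ lam := by
    unfold N1 N2
    rw [← Real.mul_rpow (by positivity) (by positivity)]
    congr 1
    have e1 : (y : ℝ) + 1 / 2 = ((y : ℝ) - 1 / 2) * (1 + 1 / ((y : ℝ) - 1 / 2)) := by
      rw [mul_add, mul_one, mul_one_div_cancel ha.ne']; ring
    rw [mul_assoc, ← e1]
  have hb := one_add_mul_self_le_rpow_one_add (s := 1 / ((y : ℝ) - 1 / 2)) (by
    have : 0 < 1 / ((y : ℝ) - 1 / 2) := by positivity
    linarith) hlam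
  have h1 := mul_le_mul_of_nonneg_left hb (N1_pos c lam hc y hy).le
  rw [e]
  have : lam * N1 c lam y / ((y : ℝ) - 1 / 2) = N1 c lam y * (1 + lam * (1 / ((y : ℝ) - 1 / 2))) - N1 c lam y := by
    field_simp
    ring
  linarith

lemma D_upper (c lam : ℝ) (hc : 0 < c) (hlam : 1 ≤ lam) (y : ℕ) (hy : 1 ≤ y) :
    N2 c lam y - N1 c lam y ≤ lam * N2 c lam y / ((y : ℝ) + 1 / 2) := by
  have hy' : (1 : ℝ) ≤ y := by exact_mod_cast hy
  have hpi := Real.pi_pos
  have ha : (0 : ℝ) < (y : ℝ) - 1 / 2 := by linarith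
  have hb0 : (0 : ℝ) < (y : ℝ) + 1 / 2 := by linarith
  have hle : 1 / ((y : ℝ) + 1 / 2) ≤ 1 := by
    rw [div_le_one hb0]; linarith
  have e : N1 c lam y = N2 c lam y * (1 + -(1 / ((y : ℝ) + 1 / 2))) ^ lam := by
    unfold N1 N2
    rw [← Real.mul_rpow (by positivity) (by linarith)]
    congr 1
    field_simp
    ring
  have hb := one_add_mul_self_le_rpow_one_add (s := -(1 / ((y : ℝ) + 1 / 2))) (by linarith) hlam
  have hN2 : 0 < N2 c lam y := by
    unfold N2
    apply Real.rpow_pos_of_pos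
    positivity
  have h1 := mul_le_mul_of_nonneg_left hb hN2.le
  have e2 : lam * N2 c lam y / ((y : ℝ) + 1 / 2) = N2 c lam y - N2 c lam y * (1 + lam * -(1 / ((y : ℝ) + 1 / 2))) := by
    field_simp
    ring
  rw [e2]
  linarith

lemma uu_nonneg (c lam : ℝ) (hc : 0 < c) (n : ℕ) : 0 ≤ uu c lam n := by
  unfold uu
  positivity

lemma uu_pow (c lam : ℝ) (hc : 0 < c) (hlam : 0 < lam) (n : ℕ) : (uu c lam n / c) ^ lam = n := by
  unfold uu
  rw [mul_div_cancel_left₀ _ hc.ne', ← Real.rpow_mul (Nat.cast_nonneg n), one_div, inv_mul_cancel₀ hlam.ne',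
    Real.rpow_one]

lemma log_uu (c lam : ℝ) (hc : 0 < c) (hlam : 0 < lam) (n : ℕ) (hn : 1 ≤ n) :
    Real.log (uu c lam n) = Real.log c + Real.log n / lam := by
  have hn' : (0 : ℝ) < n := by exact_mod_cast hn
  unfold uu
  rw [Real.log_mul hc.ne' (Real.rpow_pos_of_pos hn' _).ne', Real.log_rpow hn']
  ring

lemma uu_pos (c lam : ℝ) (hc : 0 < c) (n : ℕ) (hn : 1 ≤ n) : 0 < uu c lam n := by
  have hn' : (0 : ℝ) < n := by exact_mod_cast hn
  unfold uu
  positivity

/-- membership in a cell -/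
lemma cell_iff (u : ℝ) (hu : 0 ≤ u) (y : ℕ) (h : cell u = y) :
    Real.pi / 2 * ((y : ℝ) - 1 / 2) ≤ u ∧ u < Real.pi / 2 * ((y : ℝ) + 1 / 2) := by
  have hpi := Real.pi_pos
  have h0 : 0 ≤ 2 / Real.pi * u + 1 / 2 := by positivity
  unfold cell at h
  rw [Nat.floor_eq_iff h0] at h
  obtain ⟨h1, h2⟩ := h
  have e : u = Real.pi / 2 * (2 / Real.pi * u) := by
    field_simp
  constructor
  · rw [e]
    apply mul_le_mul_of_nonneg_left _ (by positivity)
    linarith
  · rw [e]
    apply mul_lt_mul_of_pos_left _ (by positivity)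
    linarith

lemma mem_cell (c lam : ℝ) (hc : 0 < c) (hlam : 0 < lam) (n y : ℕ) (hy : 1 ≤ y)
    (h : cell (uu c lam n) = y) : N1 c lam y ≤ n ∧ (n : ℝ) < N2 c lam y := by
  have hpi := Real.pi_pos
  have hy' : (1 : ℝ) ≤ y := by exact_mod_cast hy
  obtain ⟨h1, h2⟩ := cell_iff _ (uu_nonneg c lam hc n) y h
  rw [← uu_pow c lam hc hlam n]
  unfold N1 N2
  have h0 := uu_nonneg c lam hc n
  constructor
  · apply Real.rpow_le_rpow (mul_nonneg (by positivity) (by linarith)) _ hlam.le
    rw [le_div_iff₀ hc]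
    calc Real.pi / (2 * c) * ((y : ℝ) - 1 / 2) * c = Real.pi / 2 * ((y : ℝ) - 1 / 2) := by
          field_simp
      _ ≤ _ := h1
  · apply Real.rpow_lt_rpow (by positivity) _ hlam
    rw [div_lt_iff₀ hc]
    calc uu c lam n < Real.pi / 2 * ((y : ℝ) + 1 / 2) := h2
      _ = Real.pi / (2 * c) * ((y : ℝ) + 1 / 2) * c := by field_simp

/-- a good number: squarefree, at least two prime factors, all of them in the frequency range `≥ 1` -/
def Good (c lam : ℝ) (n : ℕ) : Prop :=
  Squarefree n ∧ 2 ≤ n.primeFactors.card ∧ ∀ p ∈ n.primeFactors, 1 ≤ uu c lam p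

lemma log_prime_lower (c lam : ℝ) (hc : 0 < c) (hlam : 0 < lam) (p : ℕ) (hp : 1 ≤ p)
    (h : 1 ≤ uu c lam p) : lam * Real.log (1 / c) ≤ Real.log p := by
  have h1 := Real.log_nonneg h
  rw [log_uu c lam hc hlam p hp] at h1
  rw [one_div, Real.log_inv]
  have h2 : lam * (Real.log c + Real.log p / lam) = lam * Real.log c + Real.log p := by
    field_simp
  have h3 : 0 ≤ lam * (Real.log c + Real.log p / lam) := mul_nonneg hlam.le h1
  linarith

lemma log_eq_sum (n : ℕ) (hn : Squarefree n) : Real.log n = ∑ p ∈ n.primeFactors, Real.log p := by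
  conv_lhs => rw [← Nat.prod_primeFactors_of_squarefree hn]
  push_cast
  rw [Real.log_prod]
  intro p hp
  have := (Nat.prime_of_mem_primeFactors hp).pos
  positivity

lemma good_log (c lam : ℝ) (hc : 0 < c) (hc1 : c ≤ 1) (hlam : 0 < lam) (n : ℕ) (h : Good c lam n) :
    2 * (lam * Real.log (1 / c)) ≤ Real.log n := by
  rw [log_eq_sum n h.1]
  have h0 : 0 ≤ lam * Real.log (1 / c) :=
    mul_nonneg hlam.le (Real.log_nonneg (by rw [le_div_iff₀ hc]; linarith))
  have h1 := Finset.card_nsmul_le_sum n.primeFactors (fun p => Real.log p) (lam * Real.log (1 / c)) (fun p hp =>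
    log_prime_lower c lam hc hlam p (Nat.prime_of_mem_primeFactors hp).pos (h.2.2 p hp))
  rw [nsmul_eq_mul] at h1
  have h2 : (2 : ℝ) ≤ (n.primeFactors.card : ℝ) := by exact_mod_cast h.2.1
  have h3 := mul_le_mul_of_nonneg_right h2 h0
  linarith

lemma good_pos (c lam : ℝ) (n : ℕ) (h : Good c lam n) : 1 ≤ n := by
  rcases Nat.eq_zero_or_pos n with h0 | h0
  · have := h.1
    rw [h0] at this
    exact absurd this not_squarefree_zero
  · exact h0

lemma good_uu (c lam : ℝ) (hc : 0 < c) (hc1 : c ≤ 1) (hlam : 0 < lam) (n : ℕ) (h : Good c lam n) :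
    1 / c ≤ uu c lam n := by
  have h1 := good_log c lam hc hc1 hlam n h
  have hn := good_pos c lam n h
  have h2 := log_uu c lam hc hlam n hn
  have h3 : Real.log (1 / c) ≤ Real.log (uu c lam n) := by
    rw [h2]
    have : 2 * Real.log (1 / c) ≤ Real.log n / lam := by
      rw [le_div_iff₀ hlam]
      linarith
    rw [one_div, Real.log_inv] at *
    linarith
  exact (Real.log_le_log_iff (by positivity) (uu_pos c lam hc n hn)).1 h3

/-- bounds for the cell index -/
lemma good_cell (c lam : ℝ) (hc : 0 < c) (hc1 : c ≤ 1 / 2) (hlam : 0 < lam) (n y : ℕ) (h : Good c lam n)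
    (hy : cell (uu c lam n) = y) : 1 ≤ y ∧ 1 + (y : ℝ) ≤ 2 * uu c lam n := by
  have h1 := good_uu c lam hc (by linarith) hlam n h
  have h2 : (2 : ℝ) ≤ 1 / c := by rw [le_div_iff₀ hc]; linarith
  have h3 := cell_iff _ (uu_nonneg c lam hc n) y hy
  have hpi := Real.pi_pos
  have hpi3 := Real.pi_gt_three
  have hpi4 := Real.pi_lt_d2
  constructor
  · by_contra hcon
    have : y = 0 := by omega
    rw [this] at h3
    have h4 := h3.2
    norm_num at h4
    nlinarith
  · have h4 := h3.1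
    have : Real.pi / 2 * ((y : ℝ) - 1 / 2) ≥ 3 / 2 * ((y : ℝ) - 1 / 2) ∨ (y : ℝ) < 1 / 2 := by
      by_cases hh : (y : ℝ) < 1 / 2
      · right; exact hh
      · left
        push Not at hh
        nlinarith
    rcases this with h5 | h5
    · linarith
    · linarith

/-- the length of the cell times the weight -/
lemma weight_len (c lam : ℝ) (hc : 0 < c) (hc1 : c ≤ 1 / 2) (hlam : 8 ≤ lam) (n y : ℕ) (h : Good c lam n)
    (hy : cell (uu c lam n) = y) :
    WW c y * (N2 c lam y - N1 c lam y) ≤ 2 * lam * 3 ^ lam * (n * Real.log n ^ 4) := by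
  obtain ⟨hy1, hy2⟩ := good_cell c lam hc hc1 (by linarith) n y h hy
  have hn := good_pos c lam n h
  have hn' : (1 : ℝ) ≤ n := by exact_mod_cast hn
  have hyR : (1 : ℝ) ≤ y := by exact_mod_cast hy1
  obtain ⟨hm1, hm2⟩ := mem_cell c lam hc (by linarith) n y hy1 hy
  have hD := D_upper c lam hc (by linarith) y hy1
  have hN := N2_le c lam hc (by linarith) y hy1
  have h3p : (0 : ℝ) < 3 ^ lam := Real.rpow_pos_of_pos (by norm_num) _
  have h1 : N2 c lam y - N1 c lam y ≤ 2 * lam * 3 ^ lam * n / (1 + y) := by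
    refine hD.trans ?_
    rw [div_le_div_iff₀ (by linarith) (by linarith)]
    have h2 : N2 c lam y ≤ 3 ^ lam * n := hN.trans (mul_le_mul_of_nonneg_left hm1 h3p.le)
    have h3 : (1 : ℝ) + y ≤ 2 * (y + 1 / 2) := by linarith
    calc lam * N2 c lam y * (1 + y) ≤ lam * (3 ^ lam * n) * (2 * (y + 1 / 2)) := by
          apply mul_le_mul _ h3 (by linarith) (by positivity)
          exact mul_le_mul_of_nonneg_left h2 (by linarith)
      _ = _ := by ring
  have hlogn : Real.log (1 / c) * (2 * lam) ≤ Real.log n := by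
    have := good_log c lam hc (by linarith) (by linarith) n h
    linarith
  have hl2 : Real.log 2 ≤ Real.log (1 / c) := Real.log_le_log (by norm_num) (by rw [le_div_iff₀ hc]; linarith)
  have hl0 : (0.6931471803 : ℝ) < Real.log 2 := Real.log_two_gt_d9
  have hL0 : 0 ≤ Real.log ((1 + y) / c) := Real.log_nonneg (by rw [le_div_iff₀ hc]; linarith)
  have hL : Real.log ((1 + y) / c) ≤ Real.log n := by
    have h4 : Real.log ((1 + y) / c) ≤ Real.log (2 * uu c lam n / c) := by
      apply Real.log_le_log (by positivity)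
      gcongr
    have h5 : Real.log (2 * uu c lam n / c) = Real.log 2 + Real.log n / lam := by
      rw [Real.log_div (by have := uu_pos c lam hc n hn; positivity) hc.ne',
        Real.log_mul (by norm_num) (uu_pos c lam hc n hn).ne', log_uu c lam hc (by linarith) n hn]
      ring
    have h6 : Real.log n / lam ≤ Real.log n / 8 :=
      div_le_div_of_nonneg_left (Real.log_nonneg hn') (by norm_num) hlam
    have h7 : 16 * Real.log 2 ≤ Real.log n := by nlinarith
    linarith
  have hW : WW c y * (2 * lam * 3 ^ lam * n / (1 + y)) = 2 * lam * 3 ^ lam * (n * Real.log ((1 + y) / c) ^ 4) := by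
    unfold WW
    field_simp
  have hWn : 0 ≤ WW c y := by unfold WW; positivity
  calc WW c y * (N2 c lam y - N1 c lam y) ≤ WW c y * (2 * lam * 3 ^ lam * n / (1 + y)) :=
        mul_le_mul_of_nonneg_left h1 hWn
    _ = 2 * lam * 3 ^ lam * (n * Real.log ((1 + y) / c) ^ 4) := hW
    _ ≤ 2 * lam * 3 ^ lam * (n * Real.log n ^ 4) := by
        apply mul_le_mul_of_nonneg_left _ (by positivity)
        apply mul_le_mul_of_nonneg_left _ (by positivity)
        exact pow_le_pow_left₀ hL0 hL 4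

/-- the cell is long -/
lemma len_lower (c lam : ℝ) (hc : 0 < c) (hc1 : c ≤ 1 / 2) (hlam : 8 ≤ lam) (n y : ℕ) (h : Good c lam n)
    (hy : cell (uu c lam n) = y) :
    lam / 3 ^ lam * n / (2 * uu c lam n) ≤ N2 c lam y - N1 c lam y := by
  obtain ⟨hy1, hy2⟩ := good_cell c lam hc hc1 (by linarith) n y h hy
  have hyR : (1 : ℝ) ≤ y := by exact_mod_cast hy1
  have hn := good_pos c lam n h
  obtain ⟨hm1, hm2⟩ := mem_cell c lam hc (by linarith) n y hy1 hy
  have hD := D_lower c lam hc (by linarith) y hy1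
  have hN := N2_le c lam hc (by linarith) y hy1
  have h3p : (0 : ℝ) < 3 ^ lam := Real.rpow_pos_of_pos (by norm_num) _
  have hu := uu_pos c lam hc n hn
  have h1 : (n : ℝ) / 3 ^ lam ≤ N1 c lam y := by
    rw [div_le_iff₀ h3p, mul_comm]
    linarith
  refine le_trans ?_ hD
  rw [div_le_div_iff₀ (by positivity) (by linarith)]
  have h2 : (y : ℝ) - 1 / 2 ≤ 2 * uu c lam n := by linarith
  calc lam / 3 ^ lam * n * ((y : ℝ) - 1 / 2) = lam * (n / 3 ^ lam) * ((y : ℝ) - 1 / 2) := by ring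
    _ ≤ lam * N1 c lam y * (2 * uu c lam n) := by
        apply mul_le_mul _ h2 (by linarith) (mul_nonneg (by linarith) (N1_pos c lam hc y hy1).le)
        exact mul_le_mul_of_nonneg_left h1 (by linarith)

end Pool.Agent.H853R3.NL
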