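import Mathlib
import Pool.Agent.H853R3.NLA
import Pool.Agent.H853R3.NLB

set_option autoImplicit false

open Finset Pool.Agent.H469R10.HO

namespace Pool.Agent.H853R3.NL

/-- largest prime factor -/
def qq (n : ℕ) : ℕ := n.primeFactors.sup id

lemma qq_mem (n : ℕ) (h : n.primeFactors.Nonempty) : qq n ∈ n.primeFactors := by
  obtain ⟨p, hp, h1⟩ := Finset.exists_mem_eq_sup n.primeFactors h id
  unfold qq
  rw [h1]
  exact hp

lemma le_qq (n p : ℕ) (hp : p ∈ n.primeFactors) : p ≤ qq n := Finset.le_sup (f := id) hp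

lemma mm_facts (n : ℕ) (hn : Squarefree n) (h : n.primeFactors.Nonempty) :
    n / qq n * qq n = n ∧ Squarefree (n / qq n) ∧ (n / qq n).primeFactors = n.primeFactors.erase (qq n) := by
  have hq := qq_mem n h
  have hqp := Nat.prime_of_mem_primeFactors hq
  have hqd := Nat.dvd_of_mem_primeFactors hq
  have e : n / qq n * qq n = n := Nat.div_mul_cancel hqd
  have hsq : Squarefree (n / qq n) := hn.squarefree_of_dvd (Nat.div_dvd_of_dvd hqd)
  refine ⟨e, hsq, ?_⟩
  have hcop : Nat.Coprime (n / qq n) (qq n) := by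
    have : Squarefree (n / qq n * qq n) := by rw [e]; exact hn
    exact Nat.coprime_of_squarefree_mul this
  have h0 : n / qq n ≠ 0 := hsq.ne_zero
  have h1 : n.primeFactors = (n / qq n).primeFactors ∪ {qq n} := by
    conv_lhs => rw [← e]
    rw [Nat.primeFactors_mul h0 hqp.ne_zero, hqp.primeFactors]
  rw [h1]
  ext p
  rw [Finset.mem_erase, Finset.mem_union, Finset.mem_singleton]
  constructor
  · intro hp
    refine ⟨?_, Or.inl hp⟩
    intro hpq
    rw [hpq] at hp
    have h2 := Nat.dvd_of_mem_primeFactors hp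
    have h3 := Nat.Coprime.eq_one_of_dvd hcop.symm h2
    exact hqp.one_lt.ne' h3
  · rintro ⟨h1, h2 | h2⟩
    · exact h2
    · exact absurd h2 h1

/-- nonsmooth numbers -/
def NS (lam : ℝ) (n : ℕ) : Prop := 2 * Real.log n ≤ lam * Real.log (qq n)

lemma good_ne (c lam : ℝ) (n : ℕ) (h : Good c lam n) : n.primeFactors.Nonempty := by
  rw [← Finset.card_pos]
  have := h.2.1
  omega

lemma fiber_bound (c lam CB : ℝ) (hc : 0 < c) (hc1 : c ≤ 1 / 2) (hlam : 8 ≤ lam) (hc3 : c * 3 ^ lam ≤ 1)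
    (hCB : 0 ≤ CB)
    (hBT : ∀ (a N : ℕ), 2 ≤ N → (((Finset.range N).filter (fun k => (a + k).Prime)).card : ℝ) ≤ CB * N / Real.log N)
    (y m : ℕ) (hm : 1 ≤ m) (hD0 : 0 ≤ N2 c lam y - N1 c lam y) (A : Finset ℕ)
    (hA : ∀ n ∈ A, Good c lam n ∧ cell (uu c lam n) = y ∧ NS lam n ∧ n / qq n = m) :
    ∑ n ∈ A, Real.log (qq n) ≤ 4 * CB * ((N2 c lam y - N1 c lam y) / m) := by
  classical
  have hmR : (1 : ℝ) ≤ m := by exact_mod_cast hm
  rcases A.eq_empty_or_nonempty with hAe | hAn
  · rw [hAe, Finset.sum_empty]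
    positivity
  obtain ⟨ns, hns, hmax⟩ := Finset.exists_max_image A qq hAn
  obtain ⟨hg, hcell, hNS, hdiv⟩ := hA ns hns
  obtain ⟨hy1, hy2⟩ := good_cell c lam hc hc1 (by linarith) ns y hg hcell
  have hfac := mm_facts ns hg.1 (good_ne c lam ns hg)
  have hqmem := qq_mem ns (good_ne c lam ns hg)
  have hqp := Nat.prime_of_mem_primeFactors hqmem
  have hq2 : (2 : ℝ) ≤ qq ns := by exact_mod_cast hqp.two_le
  have hq0 : (0 : ℝ) < qq ns := by linarith
  have hlogq : 0 < Real.log (qq ns) := Real.log_pos (by linarith)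
  have hnpos := good_pos c lam ns hg
  have h3p : (0 : ℝ) < 3 ^ lam := Real.rpow_pos_of_pos (by norm_num) _
  -- u ≤ c sqrt q
  have hu : uu c lam ns ≤ c * Real.sqrt (qq ns) := by
    have h1 := log_uu c lam hc (by linarith) ns hnpos
    have h2 : Real.log (c * Real.sqrt (qq ns)) = Real.log c + Real.log (qq ns) / 2 := by
      rw [Real.log_mul hc.ne' (Real.sqrt_pos.2 hq0).ne', Real.log_sqrt hq0.le]
    have h3 : Real.log ns / lam ≤ Real.log (qq ns) / 2 := by
      rw [div_le_div_iff₀ (by linarith) (by norm_num)]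
      have := hNS
      unfold NS at this
      linarith
    have h4 : Real.log (uu c lam ns) ≤ Real.log (c * Real.sqrt (qq ns)) := by rw [h1, h2]; linarith
    exact (Real.log_le_log_iff (uu_pos c lam hc ns hnpos) (mul_pos hc (Real.sqrt_pos.2 hq0))).1 h4
  set D := N2 c lam y - N1 c lam y with hD
  have hnm : (ns : ℝ) = m * qq ns := by
    have := hfac.1
    rw [hdiv] at this
    exact_mod_cast this.symm
  have hL : 4 * Real.sqrt (qq ns) ≤ D / m := by
    have h1 := len_lower c lam hc hc1 hlam ns y hg hcell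
    rw [le_div_iff₀ (by linarith)]
    refine le_trans ?_ h1
    rw [le_div_iff₀ (by have := uu_pos c lam hc ns hnpos; positivity), hnm]
    have hs : Real.sqrt (qq ns) * Real.sqrt (qq ns) = qq ns := Real.mul_self_sqrt hq0.le
    have h2 : c ≤ 1 / 3 ^ lam := by rw [le_div_iff₀ h3p]; exact hc3
    calc 4 * Real.sqrt (qq ns) * m * (2 * uu c lam ns) ≤ 4 * Real.sqrt (qq ns) * m * (2 * (c * Real.sqrt (qq ns))) := by
          apply mul_le_mul_of_nonneg_left _ (by positivity)
          linarith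
      _ = 8 * c * m * (Real.sqrt (qq ns) * Real.sqrt (qq ns)) := by ring
      _ = 8 * c * m * qq ns := by rw [hs]
      _ ≤ lam * (1 / 3 ^ lam) * m * qq ns := by
          gcongr
      _ = lam / 3 ^ lam * (m * qq ns) := by ring
  have hsq1 : 1 ≤ Real.sqrt (qq ns) := by
    rw [Real.one_le_sqrt]; linarith
  have hL4 : 4 ≤ D / m := by linarith
  set N := ⌈D / m⌉₊ with hN
  have hNL : D / m ≤ N := Nat.le_ceil _
  have hNU : (N : ℝ) < D / m + 1 := Nat.ceil_lt_add_one (by linarith)
  have hN2 : 2 ≤ N := by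
    have : (4 : ℝ) ≤ N := by linarith
    have : 4 ≤ N := by exact_mod_cast this
    omega
  set a := ⌈N1 c lam y / m⌉₊ with ha
  have hcard : (A.card : ℝ) ≤ CB * N / Real.log N := by
    refine le_trans ?_ (hBT a N hN2)
    norm_cast
    apply Finset.card_le_card_of_injOn (fun n => qq n - a)
    · intro n hn
      obtain ⟨hg', hcell', hNS', hdiv'⟩ := hA n hn
      have hfac' := mm_facts n hg'.1 (good_ne c lam n hg')
      have hqp' := Nat.prime_of_mem_primeFactors (qq_mem n (good_ne c lam n hg'))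
      obtain ⟨hm1, hm2⟩ := mem_cell c lam hc (by linarith) n y hy1 hcell'
      have hnm' : (n : ℝ) = m * qq n := by
        have := hfac'.1
        rw [hdiv'] at this
        exact_mod_cast this.symm
      have h1 : N1 c lam y / m ≤ qq n := by
        rw [div_le_iff₀ (by linarith)]; linarith
      have h2 : a ≤ qq n := Nat.ceil_le.2 h1
      have h3 : (qq n : ℝ) < a + N := by
        have h4 : (qq n : ℝ) < N2 c lam y / m := by
          rw [lt_div_iff₀ (by linarith)]; linarith
        have h5 : N1 c lam y / m ≤ a := Nat.le_ceil _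
        have h6 : N2 c lam y / m = N1 c lam y / m + D / m := by rw [hD]; ring
        linarith
      have h3' : qq n < a + N := by exact_mod_cast h3
      simp only [Finset.coe_filter, Finset.mem_range, Set.mem_setOf_eq]
      refine ⟨by omega, ?_⟩
      rw [Nat.add_sub_cancel' h2]
      exact hqp'
    · intro n hn n' hn' hnn
      obtain ⟨hg', hcell', hNS', hdiv'⟩ := hA n hn
      obtain ⟨hg'', hcell'', hNS'', hdiv''⟩ := hA n' hn'
      have hge : ∀ k ∈ A, a ≤ qq k := by
        intro k hk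
        obtain ⟨hg3, hcell3, hNS3, hdiv3⟩ := hA k hk
        have hfac3 := mm_facts k hg3.1 (good_ne c lam k hg3)
        obtain ⟨hm1, hm2⟩ := mem_cell c lam hc (by linarith) k y hy1 hcell3
        have hnm3 : (k : ℝ) = m * qq k := by
          have := hfac3.1
          rw [hdiv3] at this
          exact_mod_cast this.symm
        apply Nat.ceil_le.2
        rw [div_le_iff₀ (by linarith)]; linarith
      have e1 := hge n hn
      have e2 := hge n' hn'
      have e3 : qq n = qq n' := by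
        have : qq n - a = qq n' - a := hnn
        omega
      have e4 := (mm_facts n hg'.1 (good_ne c lam n hg')).1
      have e5 := (mm_facts n' hg''.1 (good_ne c lam n' hg'')).1
      rw [← e4, ← e5, hdiv', hdiv'', e3]
  have hlogN : Real.log (qq ns) / 2 ≤ Real.log N := by
    rw [← Real.log_sqrt hq0.le]
    apply Real.log_le_log (Real.sqrt_pos.2 hq0)
    linarith
  have hlogN0 : 0 < Real.log N := by linarith
  calc ∑ n ∈ A, Real.log (qq n) ≤ A.card • Real.log (qq ns) := by
        apply Finset.sum_le_card_nsmul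
        intro n hn
        have hg' := (hA n hn).1
        have hqp' := Nat.prime_of_mem_primeFactors (qq_mem n (good_ne c lam n hg'))
        apply Real.log_le_log
        · exact_mod_cast hqp'.pos
        · exact_mod_cast hmax n hn
    _ = A.card * Real.log (qq ns) := by rw [nsmul_eq_mul]
    _ ≤ (CB * N / Real.log N) * (2 * Real.log N) := by
        apply mul_le_mul hcard (by linarith) hlogq.le (by positivity)
    _ = 2 * CB * N := by field_simp
    _ ≤ 2 * CB * (2 * (D / m)) := by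
        apply mul_le_mul_of_nonneg_left _ (by positivity)
        linarith
    _ = 4 * CB * (D / m) := by ring

/-- weight of the cofactor -/
noncomputable def gg (m : ℕ) : ℝ := ∏ p ∈ m.primeFactors, (1 / Real.log p ^ 2)

lemma ns_sum (c lam CB : ℝ) (hc : 0 < c) (hc1 : c ≤ 1 / 2) (hlam : 8 ≤ lam) (hc3 : c * 3 ^ lam ≤ 1)
    (hCB : 0 ≤ CB)
    (hBT : ∀ (a N : ℕ), 2 ≤ N → (((Finset.range N).filter (fun k => (a + k).Prime)).card : ℝ) ≤ CB * N / Real.log N)
    (y : ℕ) (hD0 : 0 ≤ N2 c lam y - N1 c lam y) (A : Finset ℕ)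
    (hA : ∀ n ∈ A, Good c lam n ∧ cell (uu c lam n) = y ∧ NS lam n) :
    ∑ n ∈ A, gg (n / qq n) * Real.log (qq n) ≤ 4 * CB * Real.exp (3 / 2) * (N2 c lam y - N1 c lam y) := by
  classical
  set D := N2 c lam y - N1 c lam y with hD
  have h1 : ∑ n ∈ A, gg (n / qq n) * Real.log (qq n) =
      ∑ m ∈ A.image (fun n => n / qq n), ∑ n ∈ A.filter (fun n => n / qq n = m), gg (n / qq n) * Real.log (qq n) := by
    rw [Finset.sum_image']
    intro n _
    rfl
  rw [h1]
  have h2 : ∀ m ∈ A.image (fun n => n / qq n),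
      ∑ n ∈ A.filter (fun n => n / qq n = m), gg (n / qq n) * Real.log (qq n) ≤
        (4 * CB * D) * ∏ p ∈ m.primeFactors, 1 / ((p : ℝ) * Real.log p ^ 2) := by
    intro m hm
    rw [mem_image] at hm
    obtain ⟨n0, hn0, hm0⟩ := hm
    obtain ⟨hg0, hcell0, hNS0⟩ := hA n0 hn0
    have hf0 := mm_facts n0 hg0.1 (good_ne c lam n0 hg0)
    rw [hm0] at hf0
    have hmpos : 1 ≤ m := Nat.pos_of_ne_zero hf0.2.1.ne_zero
    have hmR : (1 : ℝ) ≤ m := by exact_mod_cast hmpos
    have h3 : ∑ n ∈ A.filter (fun n => n / qq n = m), gg (n / qq n) * Real.log (qq n) =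
        gg m * ∑ n ∈ A.filter (fun n => n / qq n = m), Real.log (qq n) := by
      rw [Finset.mul_sum]
      apply Finset.sum_congr rfl
      intro n hn
      rw [(mem_filter.1 hn).2]
    rw [h3]
    have h4 := fiber_bound c lam CB hc hc1 hlam hc3 hCB hBT y m hmpos hD0 (A.filter (fun n => n / qq n = m))
      (fun n hn => by
        rw [mem_filter] at hn
        obtain ⟨h5, h6, h7⟩ := hA n hn.1
        exact ⟨h5, h6, h7, hn.2⟩)
    have hg : 0 ≤ gg m := by
      unfold gg
      exact Finset.prod_nonneg fun p _ => by positivity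
    refine (mul_le_mul_of_nonneg_left h4 hg).trans (le_of_eq ?_)
    have h5 : ∏ p ∈ m.primeFactors, 1 / ((p : ℝ) * Real.log p ^ 2) = gg m / m := by
      have h6 : (m : ℝ) = ∏ p ∈ m.primeFactors, (p : ℝ) := by
        conv_lhs => rw [← Nat.prod_primeFactors_of_squarefree hf0.2.1]
        push_cast
        rfl
      have h7 : ∏ p ∈ m.primeFactors, 1 / ((p : ℝ) * Real.log p ^ 2) =
          (∏ p ∈ m.primeFactors, (1 / Real.log p ^ 2)) / ∏ p ∈ m.primeFactors, (p : ℝ) := by
        rw [← Finset.prod_div_distrib]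
        apply Finset.prod_congr rfl
        intro p _
        rw [div_div, mul_comm]
      rw [h7, ← h6]
      rfl
    rw [h5]
    ring
  refine (Finset.sum_le_sum h2).trans ?_
  rw [← Finset.mul_sum]
  have hpr : ∀ m ∈ A.image (fun n => n / qq n), Squarefree m ∧ ∀ p ∈ m.primeFactors, 3 ≤ p := by
    intro m hm
    rw [mem_image] at hm
    obtain ⟨n0, hn0, hm0⟩ := hm
    obtain ⟨hg0, hcell0, hNS0⟩ := hA n0 hn0
    have hf0 := mm_facts n0 hg0.1 (good_ne c lam n0 hg0)
    rw [hm0] at hf0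
    refine ⟨hf0.2.1, ?_⟩
    intro p hp
    rw [hf0.2.2, mem_erase] at hp
    have hpp := Nat.prime_of_mem_primeFactors hp.2
    have h3 := log_prime_lower c lam hc (by linarith) p hpp.pos (hg0.2.2 p hp.2)
    by_contra hcon
    have hp2 : p = 2 := by
      have := hpp.two_le
      omega
    rw [hp2] at h3
    have hl2 : Real.log 2 ≤ Real.log (1 / c) := Real.log_le_log (by norm_num) (by rw [le_div_iff₀ hc]; linarith)
    have hl0 : 0 < Real.log 2 := Real.log_pos (by norm_num)
    push_cast at h3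
    nlinarith
  set M := A.image (fun n => n / qq n) with hM
  have h4 := sum_le_prod M (fun m hm => (hpr m hm).1) (M.biUnion Nat.primeFactors)
    (fun m hm => Finset.subset_biUnion_of_mem Nat.primeFactors hm) (fun p => 1 / ((p : ℝ) * Real.log p ^ 2))
    (fun p _ => by positivity)
  have h5 := prod_le_exp (M.biUnion Nat.primeFactors) (fun p => 1 / ((p : ℝ) * Real.log p ^ 2)) (fun p _ => by positivity)
  have h6 := sum_inv_log_sq (M.biUnion Nat.primeFactors) (fun p hp => by
    rw [mem_biUnion] at hp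
    obtain ⟨m, hm, hpm⟩ := hp
    exact (hpr m hm).2 p hpm)
  have h7 : Real.exp (∑ p ∈ M.biUnion Nat.primeFactors, 1 / ((p : ℝ) * Real.log p ^ 2)) ≤ Real.exp (3 / 2) :=
    Real.exp_le_exp.2 h6
  calc 4 * CB * D * ∑ m ∈ M, ∏ p ∈ m.primeFactors, 1 / ((p : ℝ) * Real.log p ^ 2)
      ≤ 4 * CB * D * Real.exp (3 / 2) := by
        apply mul_le_mul_of_nonneg_left _ (by positivity)
        linarith
    _ = _ := by ring

lemma good_D (c lam : ℝ) (hc : 0 < c) (hc1 : c ≤ 1 / 2) (hlam : 8 ≤ lam) (hc3 : c * 3 ^ lam ≤ 1)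
    (n y : ℕ) (h : Good c lam n) (hy : cell (uu c lam n) = y) : 1 ≤ N2 c lam y - N1 c lam y := by
  have h1 := len_lower c lam hc hc1 hlam n y h hy
  refine le_trans ?_ h1
  have hn := good_pos c lam n h
  have hn' : (1 : ℝ) ≤ n := by exact_mod_cast hn
  have h3p : (0 : ℝ) < 3 ^ lam := Real.rpow_pos_of_pos (by norm_num) _
  have hu0 := uu_pos c lam hc n hn
  have hu : uu c lam n ≤ c * n := by
    unfold uu
    apply mul_le_mul_of_nonneg_left _ hc.le
    calc (n : ℝ) ^ (1 / lam) ≤ (n : ℝ) ^ (1 : ℝ) := by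
          apply Real.rpow_le_rpow_of_exponent_le hn'
          rw [div_le_one (by linarith)]
          linarith
      _ = n := Real.rpow_one _
  rw [le_div_iff₀ (by positivity), one_mul]
  have h2 : c ≤ 1 / 3 ^ lam := by rw [le_div_iff₀ h3p]; exact hc3
  calc 2 * uu c lam n ≤ 2 * (c * n) := by linarith
    _ ≤ lam * (1 / 3 ^ lam * n) := by
        apply mul_le_mul (by linarith) _ (by positivity) (by linarith)
        exact mul_le_mul_of_nonneg_right h2 (by linarith)
    _ = _ := by ring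

lemma card_cell (c lam : ℝ) (hc : 0 < c) (hc1 : c ≤ 1 / 2) (hlam : 8 ≤ lam) (hc3 : c * 3 ^ lam ≤ 1)
    (y : ℕ) (A : Finset ℕ) (hA : ∀ n ∈ A, Good c lam n ∧ cell (uu c lam n) = y) (hne : A.Nonempty) :
    (A.card : ℝ) ≤ 2 * (N2 c lam y - N1 c lam y) := by
  obtain ⟨n0, hn0⟩ := hne
  have hD := good_D c lam hc hc1 hlam hc3 n0 y (hA n0 hn0).1 (hA n0 hn0).2
  have hy1 := (good_cell c lam hc hc1 (by linarith) n0 y (hA n0 hn0).1 (hA n0 hn0).2).1
  have hsub : A ⊆ Finset.Ico ⌈N1 c lam y⌉₊ ⌈N2 c lam y⌉₊ := by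
    intro n hn
    obtain ⟨h1, h2⟩ := mem_cell c lam hc (by linarith) n y hy1 (hA n hn).2
    rw [Finset.mem_Ico]
    exact ⟨Nat.ceil_le.2 h1, Nat.lt_ceil.2 h2⟩
  have hcard := Finset.card_le_card hsub
  rw [Nat.card_Ico] at hcard
  have hN1 := N1_pos c lam hc y hy1
  have h1 : (⌈N2 c lam y⌉₊ : ℝ) < N2 c lam y + 1 := Nat.ceil_lt_add_one (by linarith)
  have h2 : N1 c lam y ≤ (⌈N1 c lam y⌉₊ : ℝ) := Nat.le_ceil _
  have h3 : ⌈N1 c lam y⌉₊ ≤ ⌈N2 c lam y⌉₊ := Nat.ceil_mono (by linarith)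
  have h4 : (A.card : ℝ) ≤ (⌈N2 c lam y⌉₊ : ℝ) - (⌈N1 c lam y⌉₊ : ℝ) := by
    have : (A.card : ℝ) ≤ ((⌈N2 c lam y⌉₊ - ⌈N1 c lam y⌉₊ : ℕ) : ℝ) := by exact_mod_cast hcard
    rwa [Nat.cast_sub h3] at this
  linarith

end Pool.Agent.H853R3.NL
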