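import Mathlib
import Pool.Agent.H853R3.NLC
import Pool.Agent.Helper923.PPS.BT

set_option autoImplicit false

open Finset Pool.Agent.H469R10.HO

namespace Pool.Agent.H853R3.NL

/-- the normalised prime weight -/
noncomputable def aa (C1 : ℝ) (β : ℕ → ℝ) (p : ℕ) : ℝ := β p ^ 2 * p * Real.log p ^ 3 / C1

lemma prod_aa (C1 : ℝ) (β : ℕ → ℝ) (n : ℕ) (hn : Squarefree n) :
    ∏ p ∈ n.primeFactors, aa C1 β p =
      (∏ p ∈ n.primeFactors, β p) ^ 2 * n * (∏ p ∈ n.primeFactors, Real.log p ^ 3) / C1 ^ n.primeFactors.card := by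
  have h6 : (n : ℝ) = ∏ p ∈ n.primeFactors, (p : ℝ) := by
    conv_lhs => rw [← Nat.prod_primeFactors_of_squarefree hn]
    push_cast
    rfl
  unfold aa
  rw [Finset.prod_div_distrib, Finset.prod_const, Finset.prod_mul_distrib, Finset.prod_mul_distrib, ← h6,
    Finset.prod_pow]

lemma good_t (c lam C1 : ℝ) (hc : 0 < c) (hlam : 0 < lam) (hT : 16 * C1 ≤ lam * Real.log (1 / c)) (n : ℕ)
    (h : Good c lam n) : ∀ p ∈ n.primeFactors, 16 * C1 ≤ Real.log p := by
  intro p hp
  exact hT.trans (log_prime_lower c lam hc hlam p (Nat.prime_of_mem_primeFactors hp).pos (h.2.2 p hp))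

lemma log_max (n : ℕ) : ∀ p ∈ n.primeFactors, Real.log p ≤ Real.log (qq n) := by
  intro p hp
  apply Real.log_le_log
  · exact_mod_cast (Nat.prime_of_mem_primeFactors hp).pos
  · exact_mod_cast le_qq n p hp

lemma pt_smooth (c lam C1 : ℝ) (hc : 0 < c) (hlam : 8 ≤ lam) (hC1 : 1 ≤ C1)
    (hT : 16 * C1 ≤ lam * Real.log (1 / c)) (β : ℕ → ℝ) (n : ℕ) (h : Good c lam n) (hns : ¬ NS lam n) :
    (n * Real.log n ^ 4) * (∏ p ∈ n.primeFactors, β p) ^ 2 ≤ ∏ p ∈ n.primeFactors, aa C1 β p := by
  have hq := qq_mem n (good_ne c lam n h)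
  have ht := good_t c lam C1 hc (by linarith) hT n h
  have hlq : 0 < Real.log (qq n) := by have := ht _ hq; linarith
  have hs : 4 * Real.log (qq n) ≤ ∑ p ∈ n.primeFactors, Real.log p := by
    rw [← log_eq_sum n h.1]
    unfold NS at hns
    push Not at hns
    nlinarith
  have h1 := smooth_ineq n.primeFactors (qq n) hq h.2.1 (fun p => Real.log p) C1 hC1 ht (log_max n) hs
  rw [prod_aa C1 β n h.1, le_div_iff₀ (by positivity), log_eq_sum n h.1]
  calc (n : ℝ) * (∑ p ∈ n.primeFactors, Real.log p) ^ 4 * (∏ p ∈ n.primeFactors, β p) ^ 2 * C1 ^ n.primeFactors.card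
      = ((∏ p ∈ n.primeFactors, β p) ^ 2 * n) * ((∑ p ∈ n.primeFactors, Real.log p) ^ 4 * C1 ^ n.primeFactors.card) := by ring
    _ ≤ ((∏ p ∈ n.primeFactors, β p) ^ 2 * n) * ∏ p ∈ n.primeFactors, Real.log p ^ 3 :=
        mul_le_mul_of_nonneg_left h1 (by positivity)

lemma gg_pos (c lam C1 : ℝ) (hc : 0 < c) (hlam : 8 ≤ lam) (hC1 : 1 ≤ C1)
    (hT : 16 * C1 ≤ lam * Real.log (1 / c)) (n : ℕ) (h : Good c lam n) :
    0 < gg (n / qq n) * Real.log (qq n) := by
  have hq := qq_mem n (good_ne c lam n h)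
  have ht := good_t c lam C1 hc (by linarith) hT n h
  have hlq : 0 < Real.log (qq n) := by have := ht _ hq; linarith
  apply mul_pos _ hlq
  unfold gg
  rw [(mm_facts n h.1 (good_ne c lam n h)).2.2]
  apply Finset.prod_pos
  intro p hp
  have := ht p (Finset.mem_of_mem_erase hp)
  have : 0 < Real.log p := by linarith
  positivity

lemma pt_ns (c lam C1 : ℝ) (hc : 0 < c) (hlam : 8 ≤ lam) (hC1 : 1 ≤ C1)
    (hT : 16 * C1 ≤ lam * Real.log (1 / c)) (β : ℕ → ℝ) (n : ℕ) (h : Good c lam n) :
    (n * Real.log n ^ 4) * ((∏ p ∈ n.primeFactors, β p) ^ 2 / (gg (n / qq n) * Real.log (qq n))) ≤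
      C1 * ∏ p ∈ n.primeFactors, aa C1 β p := by
  have hq := qq_mem n (good_ne c lam n h)
  have ht := good_t c lam C1 hc (by linarith) hT n h
  have hlq : 0 < Real.log (qq n) := by have := ht _ hq; linarith
  have hgpos := gg_pos c lam C1 hc hlam hC1 hT n h
  have h1 := ns_ineq n.primeFactors (qq n) hq (fun p => Real.log p) C1 hC1 ht (log_max n)
  rw [← mul_div_assoc, div_le_iff₀ hgpos, prod_aa C1 β n h.1, log_eq_sum n h.1]
  have hcard : n.primeFactors.card = (n.primeFactors.erase (qq n)).card + 1 := (Finset.card_erase_add_one hq).symm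
  have hgg : gg (n / qq n) = (∏ p ∈ n.primeFactors.erase (qq n), Real.log p ^ 2)⁻¹ := by
    unfold gg
    rw [(mm_facts n h.1 (good_ne c lam n h)).2.2, ← Finset.prod_inv_distrib]
    apply Finset.prod_congr rfl
    intro p _
    rw [one_div]
  have hP2 : 0 < ∏ p ∈ n.primeFactors.erase (qq n), Real.log p ^ 2 := by
    apply Finset.prod_pos
    intro p hp
    have := ht p (Finset.mem_of_mem_erase hp)
    have : 0 < Real.log p := by linarith
    positivity
  have hsplit : ∏ p ∈ n.primeFactors, Real.log p ^ 3 =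
      Real.log (qq n) ^ 3 * ((∏ p ∈ n.primeFactors.erase (qq n), Real.log p) *
        ∏ p ∈ n.primeFactors.erase (qq n), Real.log p ^ 2) := by
    rw [← Finset.mul_prod_erase n.primeFactors (fun p => Real.log p ^ 3) hq, ← Finset.prod_mul_distrib]
    congr 1
    apply Finset.prod_congr rfl
    intro p _; ring
  have hC : (0 : ℝ) < C1 ^ (n.primeFactors.erase (qq n)).card := pow_pos (by linarith) _
  set b2 := (∏ p ∈ n.primeFactors, β p) ^ 2 with hb2
  have hb2' : 0 ≤ b2 := by positivity
  set T := ∑ p ∈ n.primeFactors, Real.log p with hTdef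
  set P1 := ∏ p ∈ n.primeFactors.erase (qq n), Real.log p with hP1
  set P2 := ∏ p ∈ n.primeFactors.erase (qq n), Real.log p ^ 2 with hP2def
  rw [hgg, hsplit, hcard]
  have h2 : T ^ 4 ≤ Real.log (qq n) ^ 4 * P1 / C1 ^ (n.primeFactors.erase (qq n)).card := by
    rw [le_div_iff₀ hC]
    exact h1
  have h3 : C1 * (b2 * (n : ℝ) * (Real.log (qq n) ^ 3 * (P1 * P2)) / C1 ^ ((n.primeFactors.erase (qq n)).card + 1)) *
      (P2⁻¹ * Real.log (qq n)) = (b2 * n) * (Real.log (qq n) ^ 4 * P1 / C1 ^ (n.primeFactors.erase (qq n)).card) := by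
    have hC10 : C1 ≠ 0 := by linarith
    rw [pow_succ]
    field_simp
    ring
  rw [h3]
  calc (n : ℝ) * T ^ 4 * b2 = (b2 * n) * T ^ 4 := by ring
    _ ≤ _ := mul_le_mul_of_nonneg_left h2 (by positivity)

lemma xx_le (j : ℕ) : xx j ≤ 2 * j := by
  unfold xx
  have := Real.pi_lt_d2
  have hj : (0 : ℝ) ≤ j := Nat.cast_nonneg j
  nlinarith

/-- the sum of the prime weights -/
lemma sum_aa (lam η C1 c : ℝ) (hlam : 8 ≤ lam) (hη : 0 < η) (hC1 : 32 * lam ^ 4 / η ≤ C1) (hc : 0 < c)
    (hc1 : c ≤ 1 / 2) (B : ℕ → Finset ℕ)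
    (hB : ∀ j, ∀ p ∈ B j, 1 ≤ j ∧ p.Prime ∧ |uu c lam p - xx j| ≤ 1 / 2)
    (hBc : ∀ j, 1 ≤ j → (B j).Nonempty ∧ ∀ p ∈ B j, η * p ≤ (B j).card * xx j * Real.log p)
    (b β : ℕ → ℝ) (hβ : ∀ j, ∀ p ∈ B j, β p = b j / (B j).card)
    (E : ℝ) (hE : ∀ J, ∑ j ∈ range J, WW c j * b j ^ 2 ≤ E) (P : Finset ℕ) (hP : ∀ p ∈ P, ∃ j, p ∈ B j) :
    ∑ p ∈ P, aa C1 β p ≤ E := by
  classical
  have hC1pos : 0 < C1 := lt_of_lt_of_le (by positivity) hC1
  have haa0 : ∀ p : ℕ, 0 ≤ aa C1 β p := by
    intro p
    unfold aa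
    have : 0 ≤ Real.log p := Real.log_natCast_nonneg p
    positivity
  choose! jj hjj using hP
  set J := P.sup jj + 1 with hJ
  have hsub : P ⊆ (range J).biUnion B := by
    intro p hp
    rw [mem_biUnion]
    refine ⟨jj p, ?_, hjj p hp⟩
    rw [mem_range, hJ]
    exact Nat.lt_succ_of_le (Finset.le_sup hp)
  have hdisj : ∀ i ∈ range J, ∀ j ∈ range J, i ≠ j → Disjoint (B i) (B j) := by
    intro i _ j _ hij
    rw [Finset.disjoint_left]
    intro p hpi hpj
    have h1 := (hB i p hpi).2.2
    have h2 := (hB j p hpj).2.2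
    have h3 : |xx i - xx j| ≤ 1 := by
      have e : xx i - xx j = (uu c lam p - xx j) - (uu c lam p - xx i) := by ring
      rw [e]
      have := abs_sub (uu c lam p - xx j) (uu c lam p - xx i)
      linarith
    have h4 : |xx i - xx j| = Real.pi / 2 * |(i : ℝ) - j| := by
      unfold xx
      rw [← mul_sub, abs_mul, abs_of_pos (by have := Real.pi_pos; positivity)]
    have h5 : (1 : ℝ) ≤ |(i : ℝ) - j| := by
      have : (1 : ℤ) ≤ |(i : ℤ) - j| := Int.one_le_abs (by omega)
      exact_mod_cast this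
    have := Real.pi_gt_three
    rw [h4] at h3
    nlinarith
  calc ∑ p ∈ P, aa C1 β p ≤ ∑ p ∈ (range J).biUnion B, aa C1 β p :=
        Finset.sum_le_sum_of_subset_of_nonneg hsub (fun p _ _ => haa0 p)
    _ = ∑ j ∈ range J, ∑ p ∈ B j, aa C1 β p := Finset.sum_biUnion (fun i hi j hj hij => hdisj i hi j hj hij)
    _ ≤ ∑ j ∈ range J, WW c j * b j ^ 2 := by
        apply Finset.sum_le_sum
        intro j _
        have hWn : 0 ≤ WW c j * b j ^ 2 := by unfold WW; positivity
        rcases (B j).eq_empty_or_nonempty with he | hne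
        · rw [he, Finset.sum_empty]
          exact hWn
        have hj1 : 1 ≤ j := by
          obtain ⟨p, hp⟩ := hne
          exact (hB j p hp).1
        have hj0 : (0 : ℝ) ≤ j := Nat.cast_nonneg j
        have hcard : (0 : ℝ) < (B j).card := by exact_mod_cast Finset.card_pos.2 hne
        have hterm : ∀ p ∈ B j, aa C1 β p ≤ (WW c j * b j ^ 2) / (B j).card := by
          intro p hp
          obtain ⟨_, hpp, hu⟩ := hB j p hp
          have hcd := (hBc j hj1).2 p hp
          have hp1 : (1 : ℝ) ≤ p := by exact_mod_cast hpp.one_lt.le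
          have hlp : 0 ≤ Real.log p := Real.log_nonneg hp1
          have hul : uu c lam p ≤ 2 * (1 + j) := by
            have := (abs_le.1 hu).2
            have := xx_le j
            linarith
          have hL0 : 0 ≤ Real.log ((1 + j) / c) := Real.log_nonneg (by rw [le_div_iff₀ hc]; linarith)
          have hlog : Real.log p ≤ 2 * lam * Real.log ((1 + j) / c) := by
            have h1 : Real.log (uu c lam p) ≤ Real.log (2 * (1 + j)) :=
              Real.log_le_log (uu_pos c lam hc p hpp.one_lt.le) hul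
            rw [log_uu c lam hc (by linarith) p hpp.one_lt.le, Real.log_mul (by norm_num) (by positivity)] at h1
            have h2 : Real.log 2 ≤ Real.log ((1 + j) / c) :=
              Real.log_le_log (by norm_num) (by rw [le_div_iff₀ hc]; linarith)
            have h3 : Real.log ((1 + j) / c) = Real.log (1 + j) - Real.log c :=
              Real.log_div (by positivity) hc.ne'
            have h4 : Real.log p / lam ≤ 2 * Real.log ((1 + j) / c) := by linarith
            rw [div_le_iff₀ (by linarith)] at h4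
            linarith
          unfold aa
          rw [hβ j p hp]
          rw [div_le_iff₀ hC1pos]
          have h5 : (p : ℝ) ≤ (B j).card * xx j * Real.log p / η := by
            rw [le_div_iff₀ hη]; linarith
          have h6 : (p : ℝ) * Real.log p ^ 3 ≤ (B j).card * (2 * j) * (2 * lam * Real.log ((1 + j) / c)) ^ 4 / η := by
            calc (p : ℝ) * Real.log p ^ 3 ≤ ((B j).card * xx j * Real.log p / η) * Real.log p ^ 3 :=
                  mul_le_mul_of_nonneg_right h5 (by positivity)
              _ = (B j).card * xx j * Real.log p ^ 4 / η := by ring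
              _ ≤ (B j).card * (2 * j) * (2 * lam * Real.log ((1 + j) / c)) ^ 4 / η := by
                  apply div_le_div_of_nonneg_right _ hη.le
                  apply mul_le_mul _ (pow_le_pow_left₀ hlp hlog 4) (by positivity) (by positivity)
                  exact mul_le_mul_of_nonneg_left (xx_le j) hcard.le
          have h7 : (b j / (B j).card) ^ 2 * p * Real.log p ^ 3 ≤
              (b j / (B j).card) ^ 2 * ((B j).card * (2 * j) * (2 * lam * Real.log ((1 + j) / c)) ^ 4 / η) := by
            rw [mul_assoc]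
            exact mul_le_mul_of_nonneg_left h6 (by positivity)
          refine h7.trans ?_
          have h8 : (b j / (B j).card) ^ 2 * ((B j).card * (2 * j) * (2 * lam * Real.log ((1 + j) / c)) ^ 4 / η) =
              (b j ^ 2 / (B j).card) * (j * Real.log ((1 + j) / c) ^ 4) * (32 * lam ^ 4 / η) := by
            field_simp
            ring
          rw [h8]
          unfold WW
          calc (b j ^ 2 / (B j).card) * (j * Real.log ((1 + j) / c) ^ 4) * (32 * lam ^ 4 / η)
              ≤ (b j ^ 2 / (B j).card) * ((1 + j) * Real.log ((1 + j) / c) ^ 4) * C1 := by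
                apply mul_le_mul _ hC1 (by positivity) (by positivity)
                apply mul_le_mul_of_nonneg_left _ (by positivity)
                apply mul_le_mul_of_nonneg_right _ (by positivity)
                linarith
            _ = _ := by ring
        calc ∑ p ∈ B j, aa C1 β p ≤ (B j).card • ((WW c j * b j ^ 2) / (B j).card) :=
              Finset.sum_le_card_nsmul _ _ _ hterm
          _ = WW c j * b j ^ 2 := by
              rw [nsmul_eq_mul]
              field_simp
    _ ≤ E := hE J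

theorem taskH : Pool.Agent.H469R10.HO.TaskH := by
  classical
  intro lam η hlam hη
  obtain ⟨CB, hCB1, hBT0⟩ := Pool.Agent.Helper923.PPS.brun_titchmarsh
  have hBT : ∀ (a N : ℕ), 2 ≤ N → (((Finset.range N).filter (fun k => (a + k).Prime)).card : ℝ) ≤ CB * N / Real.log N := by
    intro a N hN
    have := hBT0 a 1 N hN (Or.inl rfl)
    simpa using this
  set C1 : ℝ := 1 + 32 * lam ^ 4 / η with hC1def
  have h32 : 0 < 32 * lam ^ 4 / η := by positivity
  have hC1 : 1 ≤ C1 := by linarith
  have hC1' : 32 * lam ^ 4 / η ≤ C1 := by linarith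
  have h3p : (0 : ℝ) < 3 ^ lam := Real.rpow_pos_of_pos (by norm_num) _
  set C2 : ℝ := 2 * lam * 3 ^ lam with hC2def
  have hC2 : 0 < C2 := by positivity
  set C3 : ℝ := 4 * CB * Real.exp (3 / 2) with hC3def
  have hC3 : 0 < C3 := by positivity
  set K : ℝ := 2 * (2 * C2) + 2 * (C3 * C2 * C1) with hK
  have hKpos : 0 < K := by positivity
  refine ⟨K, min (1 / 2) (min (1 / 3 ^ lam) (Real.exp (-(2 * C1)))), hKpos, by positivity, ?_⟩
  intro c hc hc0 B hB hBc b β hb hβ hβ0 E hE1 hE S hS Y
  have hc1 : c ≤ 1 / 2 := hc0.trans (min_le_left _ _)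
  have hc2 : c ≤ 1 / 3 ^ lam := hc0.trans ((min_le_right _ _).trans (min_le_left _ _))
  have hc4 : c ≤ Real.exp (-(2 * C1)) := hc0.trans ((min_le_right _ _).trans (min_le_right _ _))
  have hc3 : c * 3 ^ lam ≤ 1 := by rwa [le_div_iff₀ h3p] at hc2
  have hT : 16 * C1 ≤ lam * Real.log (1 / c) := by
    have h1 : Real.log c ≤ -(2 * C1) := by
      rw [Real.log_le_iff_le_exp hc]
      exact hc4
    rw [one_div, Real.log_inv]
    nlinarith
  -- nonnegativity of β
  have hβn : ∀ p, 0 ≤ β p := by
    intro p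
    by_cases h : ∃ j, p ∈ B j
    · obtain ⟨j, hj⟩ := h
      rw [hβ j p hj]
      exact div_nonneg (hb j) (Nat.cast_nonneg _)
    · push Not at h
      rw [hβ0 p h]
  -- good elements
  set Sg := S.filter (fun n => ∀ p ∈ n.primeFactors, ∃ j, p ∈ B j) with hSg
  have hgood : ∀ n ∈ Sg, Good c lam n := by
    intro n hn
    rw [hSg, mem_filter] at hn
    refine ⟨(hS n hn.1).1, (hS n hn.1).2, ?_⟩
    intro p hp
    obtain ⟨j, hj⟩ := hn.2 p hp
    obtain ⟨hj1, _, hu⟩ := hB j p hj
    have h1 := (abs_le.1 hu).1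
    have h2 : Real.pi / 2 ≤ xx j := by
      unfold xx
      have : (1 : ℝ) ≤ j := by exact_mod_cast hj1
      have := Real.pi_pos
      nlinarith
    have := Real.pi_gt_three
    linarith
  set ω : ℕ → ℝ := fun n => ∏ p ∈ n.primeFactors, β p with hω
  set G : ℕ → ℝ := fun n => ∏ p ∈ n.primeFactors, aa C1 β p with hG
  have haa0 : ∀ p : ℕ, 0 ≤ aa C1 β p := by
    intro p
    unfold aa
    have : 0 ≤ Real.log p := Real.log_natCast_nonneg p
    positivity
  have hG0 : ∀ n, 0 ≤ G n := fun n => Finset.prod_nonneg fun p _ => haa0 p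
  have hω0 : ∀ n, 0 ≤ ω n := fun n => Finset.prod_nonneg fun p _ => hβn p
  -- per-cell estimate
  have hcell : ∀ y : ℕ, WW c y * (∑ n ∈ S.filter (fun n => cell (uu c lam n) = y), ω n) ^ 2 ≤
      K * ∑ n ∈ Sg.filter (fun n => cell (uu c lam n) = y), G n := by
    intro y
    have hWn : 0 ≤ WW c y := by unfold WW; positivity
    have h1 : ∑ n ∈ S.filter (fun n => cell (uu c lam n) = y), ω n =
        ∑ n ∈ Sg.filter (fun n => cell (uu c lam n) = y), ω n := by
      symm
      apply Finset.sum_subset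
      · intro n hn
        rw [mem_filter] at hn ⊢
        exact ⟨(mem_filter.1 hn.1).1, hn.2⟩
      · intro n hn hn'
        rw [mem_filter] at hn hn'
        have : ¬ ∀ p ∈ n.primeFactors, ∃ j, p ∈ B j := fun hcon => hn' ⟨mem_filter.2 ⟨hn.1, hcon⟩, hn.2⟩
        push Not at this
        obtain ⟨p, hp, hpj⟩ := this
        exact Finset.prod_eq_zero hp (hβ0 p hpj)
    rw [h1]
    set A := Sg.filter (fun n => cell (uu c lam n) = y) with hA
    have hAg : ∀ n ∈ A, Good c lam n ∧ cell (uu c lam n) = y := by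
      intro n hn
      rw [hA, mem_filter] at hn
      exact ⟨hgood n hn.1, hn.2⟩
    rcases A.eq_empty_or_nonempty with hAe | hAn
    · rw [hAe]; simp
    obtain ⟨n0, hn0⟩ := hAn
    have hD1 := good_D c lam hc hc1 hlam hc3 n0 y (hAg n0 hn0).1 (hAg n0 hn0).2
    have hsplit : ∑ n ∈ A, ω n = ∑ n ∈ A.filter (fun n => ¬ NS lam n), ω n + ∑ n ∈ A.filter (fun n => NS lam n), ω n := by
      rw [add_comm]
      exact (Finset.sum_filter_add_sum_filter_not A (fun n => NS lam n) ω).symm
    have hsplitG : ∑ n ∈ A, G n = ∑ n ∈ A.filter (fun n => ¬ NS lam n), G n + ∑ n ∈ A.filter (fun n => NS lam n), G n := by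
      rw [add_comm]
      exact (Finset.sum_filter_add_sum_filter_not A (fun n => NS lam n) G).symm
    -- smooth part
    have hsm : WW c y * (∑ n ∈ A.filter (fun n => ¬ NS lam n), ω n) ^ 2 ≤
        (2 * C2) * ∑ n ∈ A.filter (fun n => ¬ NS lam n), G n := by
      rcases (A.filter (fun n => ¬ NS lam n)).eq_empty_or_nonempty with he | hne
      · rw [he]; simp
      have h2 := sq_sum_le_card_mul_sum_sq (s := A.filter (fun n => ¬ NS lam n)) (f := ω)
      have h3 := card_cell c lam hc hc1 hlam hc3 y (A.filter (fun n => ¬ NS lam n))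
        (fun n hn => hAg n (mem_filter.1 hn).1) hne
      calc WW c y * (∑ n ∈ A.filter (fun n => ¬ NS lam n), ω n) ^ 2
          ≤ WW c y * ((2 * (N2 c lam y - N1 c lam y)) * ∑ n ∈ A.filter (fun n => ¬ NS lam n), ω n ^ 2) := by
            apply mul_le_mul_of_nonneg_left _ hWn
            exact h2.trans (mul_le_mul_of_nonneg_right h3 (Finset.sum_nonneg fun n _ => sq_nonneg _))
        _ = 2 * ∑ n ∈ A.filter (fun n => ¬ NS lam n), (WW c y * (N2 c lam y - N1 c lam y)) * ω n ^ 2 := by
            rw [← Finset.mul_sum]; ring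
        _ ≤ 2 * ∑ n ∈ A.filter (fun n => ¬ NS lam n), C2 * G n := by
            apply mul_le_mul_of_nonneg_left _ (by norm_num)
            apply Finset.sum_le_sum
            intro n hn
            rw [mem_filter] at hn
            obtain ⟨hg, hy⟩ := hAg n hn.1
            have h4 := weight_len c lam hc hc1 hlam n y hg hy
            have h5 := pt_smooth c lam C1 hc hlam hC1 hT β n hg hn.2
            calc (WW c y * (N2 c lam y - N1 c lam y)) * ω n ^ 2 ≤ (C2 * (n * Real.log n ^ 4)) * ω n ^ 2 :=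
                  mul_le_mul_of_nonneg_right h4 (sq_nonneg _)
              _ = C2 * ((n * Real.log n ^ 4) * ω n ^ 2) := by ring
              _ ≤ C2 * G n := mul_le_mul_of_nonneg_left h5 hC2.le
        _ = (2 * C2) * ∑ n ∈ A.filter (fun n => ¬ NS lam n), G n := by
            rw [← Finset.mul_sum]; ring
    -- nonsmooth part
    have hnsm : WW c y * (∑ n ∈ A.filter (fun n => NS lam n), ω n) ^ 2 ≤
        (C3 * C2 * C1) * ∑ n ∈ A.filter (fun n => NS lam n), G n := by
      have hAn' : ∀ n ∈ A.filter (fun n => NS lam n), Good c lam n ∧ cell (uu c lam n) = y ∧ NS lam n := by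
        intro n hn
        rw [mem_filter] at hn
        exact ⟨(hAg n hn.1).1, (hAg n hn.1).2, hn.2⟩
      have h2 := Finset.sum_sq_le_sum_mul_sum_of_sq_le_mul (A.filter (fun n => NS lam n)) (r := ω)
        (f := fun n => gg (n / qq n) * Real.log (qq n))
        (g := fun n => ω n ^ 2 / (gg (n / qq n) * Real.log (qq n)))
        (fun n hn => (gg_pos c lam C1 hc hlam hC1 hT n (hAn' n hn).1).le)
        (fun n hn => div_nonneg (sq_nonneg _) (gg_pos c lam C1 hc hlam hC1 hT n (hAn' n hn).1).le)
        (fun n hn => by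
          have := gg_pos c lam C1 hc hlam hC1 hT n (hAn' n hn).1
          exact le_of_eq (by rw [mul_comm, div_mul_cancel₀ _ this.ne']))
      have h3 := ns_sum c lam CB hc hc1 hlam hc3 (by linarith) hBT y (by linarith) (A.filter (fun n => NS lam n)) hAn'
      have hnn : 0 ≤ ∑ n ∈ A.filter (fun n => NS lam n), ω n ^ 2 / (gg (n / qq n) * Real.log (qq n)) :=
        Finset.sum_nonneg fun n hn => div_nonneg (sq_nonneg _) (gg_pos c lam C1 hc hlam hC1 hT n (hAn' n hn).1).le
      calc WW c y * (∑ n ∈ A.filter (fun n => NS lam n), ω n) ^ 2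
          ≤ WW c y * ((C3 * (N2 c lam y - N1 c lam y)) *
              ∑ n ∈ A.filter (fun n => NS lam n), ω n ^ 2 / (gg (n / qq n) * Real.log (qq n))) := by
            apply mul_le_mul_of_nonneg_left _ hWn
            exact h2.trans (mul_le_mul_of_nonneg_right h3 hnn)
        _ = C3 * ∑ n ∈ A.filter (fun n => NS lam n), (WW c y * (N2 c lam y - N1 c lam y)) *
              (ω n ^ 2 / (gg (n / qq n) * Real.log (qq n))) := by
            rw [← Finset.mul_sum]; ring
        _ ≤ C3 * ∑ n ∈ A.filter (fun n => NS lam n), C2 * (C1 * G n) := by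
            apply mul_le_mul_of_nonneg_left _ hC3.le
            apply Finset.sum_le_sum
            intro n hn
            obtain ⟨hg, hy, hNS⟩ := hAn' n hn
            have h4 := weight_len c lam hc hc1 hlam n y hg hy
            have h5 := pt_ns c lam C1 hc hlam hC1 hT β n hg
            have h6 := div_nonneg (sq_nonneg (ω n)) (gg_pos c lam C1 hc hlam hC1 hT n hg).le
            calc (WW c y * (N2 c lam y - N1 c lam y)) * (ω n ^ 2 / (gg (n / qq n) * Real.log (qq n)))
                ≤ (C2 * (n * Real.log n ^ 4)) * (ω n ^ 2 / (gg (n / qq n) * Real.log (qq n))) :=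
                  mul_le_mul_of_nonneg_right h4 h6
              _ = C2 * ((n * Real.log n ^ 4) * (ω n ^ 2 / (gg (n / qq n) * Real.log (qq n)))) := by ring
              _ ≤ C2 * (C1 * G n) := mul_le_mul_of_nonneg_left h5 hC2.le
        _ = (C3 * C2 * C1) * ∑ n ∈ A.filter (fun n => NS lam n), G n := by
            rw [← Finset.mul_sum, ← Finset.mul_sum]; ring
    rw [hsplit, hsplitG]
    set x := ∑ n ∈ A.filter (fun n => ¬ NS lam n), ω n with hx
    set z := ∑ n ∈ A.filter (fun n => NS lam n), ω n with hz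
    set gx := ∑ n ∈ A.filter (fun n => ¬ NS lam n), G n with hgx
    set gz := ∑ n ∈ A.filter (fun n => NS lam n), G n with hgz
    have hgx0 : 0 ≤ gx := Finset.sum_nonneg fun n _ => hG0 n
    have hgz0 : 0 ≤ gz := Finset.sum_nonneg fun n _ => hG0 n
    have hxz : (x + z) ^ 2 ≤ 2 * x ^ 2 + 2 * z ^ 2 := by nlinarith [sq_nonneg (x - z)]
    calc WW c y * (x + z) ^ 2 ≤ WW c y * (2 * x ^ 2 + 2 * z ^ 2) := mul_le_mul_of_nonneg_left hxz hWn
      _ = 2 * (WW c y * x ^ 2) + 2 * (WW c y * z ^ 2) := by ring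
      _ ≤ 2 * ((2 * C2) * gx) + 2 * ((C3 * C2 * C1) * gz) := by linarith
      _ ≤ K * (gx + gz) := by
          rw [hK]
          have e1 : 0 ≤ 2 * (C3 * C2 * C1) * gx := by positivity
          have e2 : 0 ≤ 2 * (2 * C2) * gz := by positivity
          nlinarith
  -- sum over the cells
  have hPsub : ∀ p ∈ Sg.biUnion Nat.primeFactors, ∃ j, p ∈ B j := by
    intro p hp
    rw [mem_biUnion] at hp
    obtain ⟨n, hn, hpn⟩ := hp
    exact (mem_filter.1 hn).2 p hpn
  have hsumaa := sum_aa lam η C1 c hlam hη hC1' hc hc1 B hB hBc b β hβ E hE (Sg.biUnion Nat.primeFactors) hPsub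
  have hfinal := sum_two Sg (fun n hn => hS n (mem_filter.1 hn).1) (Sg.biUnion Nat.primeFactors)
    (fun n hn => Finset.subset_biUnion_of_mem Nat.primeFactors hn) (aa C1 β) (fun p _ => haa0 p) E hsumaa hE1
  calc ∑ y ∈ range Y, WW c y * (∑ n ∈ S.filter (fun n => cell (uu c lam n) = y), ω n) ^ 2
      ≤ ∑ y ∈ range Y, K * ∑ n ∈ Sg.filter (fun n => cell (uu c lam n) = y), G n :=
        Finset.sum_le_sum fun y _ => hcell y
    _ = K * ∑ y ∈ range Y, ∑ n ∈ Sg.filter (fun n => cell (uu c lam n) = y), G n := by rw [Finset.mul_sum]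
    _ ≤ K * ∑ n ∈ Sg, G n := by
        apply mul_le_mul_of_nonneg_left _ hKpos.le
        have h8 : ∑ y ∈ range Y, ∑ n ∈ Sg.filter (fun n => cell (uu c lam n) = y), G n =
            ∑ n ∈ Sg.filter (fun n => cell (uu c lam n) ∈ range Y), G n := by
          rw [← Finset.sum_fiberwise_of_maps_to (s := Sg.filter (fun n => cell (uu c lam n) ∈ range Y)) (t := range Y)
            (g := fun n => cell (uu c lam n)) (fun n hn => (mem_filter.1 hn).2)]
          apply Finset.sum_congr rfl
          intro y hy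
          apply Finset.sum_congr _ (fun _ _ => rfl)
          ext n
          simp only [mem_filter]
          constructor
          · rintro ⟨h9, h10⟩
            exact ⟨⟨h9, by rw [h10]; exact hy⟩, h10⟩
          · rintro ⟨⟨h9, _⟩, h10⟩
            exact ⟨h9, h10⟩
        rw [h8]
        exact Finset.sum_le_sum_of_subset_of_nonneg (Finset.filter_subset _ _) (fun n _ _ => hG0 n)
    _ ≤ K * E ^ 2 := mul_le_mul_of_nonneg_left hfinal hKpos.le

end Pool.Agent.H853R3.NL
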