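import Mathlib
import Pool.Agent.H469R10.HO.Stmts7

set_option autoImplicit false

open Finset Pool.Agent.H469R10.HO

namespace Pool.Agent.H853R3.RS

/-- partial sums over `range N` -/
lemma sum_range_inv (c : ℝ) (hc : 0 < c) (hc1 : c ≤ 1 / 10) (N : ℕ) :
    ∑ y ∈ range (N + 1), 1 / WW c y ≤ 2 - 1 / Real.log ((1 + N) / c) := by
  have hl10 : (2 : ℝ) < Real.log 10 := by
    have h1 : Real.log 10 = Real.log 2 + Real.log 5 := by
      rw [← Real.log_mul (by norm_num) (by norm_num)]; norm_num
    have h2 : (1.386 : ℝ) < Real.log 4 := by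
      have : Real.log 4 = 2 * Real.log 2 := by
        rw [show (4 : ℝ) = 2 ^ 2 by norm_num, Real.log_pow]; norm_num
      rw [this]
      have := Real.log_two_gt_d9
      linarith
    have h3 : Real.log 8 = 3 * Real.log 2 := by
      rw [show (8 : ℝ) = 2 ^ 3 by norm_num, Real.log_pow]; norm_num
    have h4 : Real.log 8 ≤ Real.log 10 := Real.log_le_log (by norm_num) (by norm_num)
    have := Real.log_two_gt_d9
    linarith
  have hL : ∀ y : ℕ, 2 < Real.log ((1 + y) / c) := by
    intro y
    have hy : (0 : ℝ) ≤ y := Nat.cast_nonneg y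
    have : Real.log 10 ≤ Real.log ((1 + y) / c) := by
      apply Real.log_le_log (by norm_num)
      rw [le_div_iff₀ hc]
      linarith
    linarith
  induction N with
  | zero =>
    rw [Finset.sum_range_one]
    have h := hL 0
    unfold WW
    push_cast at h ⊢
    set L := Real.log ((1 + 0) / c) with hLd
    have h1 : 1 / ((1 + 0) * L ^ 4) ≤ 1 / 16 := by
      apply one_div_le_one_div_of_le (by norm_num)
      have : (16 : ℝ) ≤ L ^ 4 := by
        have := pow_le_pow_left₀ (by norm_num) h.le 4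
        linarith
      linarith
    have h2 : 1 / L ≤ 1 / 2 := one_div_le_one_div_of_le (by norm_num) h.le
    linarith
  | succ N ih =>
    rw [Finset.sum_range_succ]
    have hN : (0 : ℝ) ≤ N := Nat.cast_nonneg N
    have h1 := hL N
    have h2 := hL (N + 1)
    have hmono : Real.log ((1 + N) / c) ≤ Real.log ((1 + ((N + 1 : ℕ) : ℝ)) / c) := by
      apply Real.log_le_log (by positivity)
      push_cast
      gcongr
      linarith
    set a := Real.log ((1 + N) / c) with ha
    set b := Real.log ((1 + ((N + 1 : ℕ) : ℝ)) / c) with hb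
    have hd : 1 / ((N : ℝ) + 2) ≤ b - a := by
      have h := Real.log_le_sub_one_of_pos (x := ((N : ℝ) + 1) / (N + 2)) (by positivity)
      rw [Real.log_div (by positivity) (by positivity)] at h
      have e1 : a = Real.log (1 + N) - Real.log c := Real.log_div (by positivity) hc.ne'
      have e2 : b = Real.log (1 + ((N + 1 : ℕ) : ℝ)) - Real.log c := Real.log_div (by positivity) hc.ne'
      have e3 : ((N : ℝ) + 1) / (N + 2) - 1 = -(1 / ((N : ℝ) + 2)) := by
        field_simp
        ring
      rw [e3] at h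
      rw [e1, e2]
      push_cast
      rw [show (1 : ℝ) + (N + 1) = N + 2 by ring, show (1 : ℝ) + N = N + 1 by ring]
      linarith
    have hstep : 1 / WW c (N + 1) ≤ 1 / a - 1 / b := by
      have e : 1 / a - 1 / b = (b - a) / (a * b) := by
        have : a ≠ 0 := by linarith
        have : b ≠ 0 := by linarith
        field_simp
      rw [e]
      unfold WW
      rw [← hb]
      have h3 : 1 / ((1 + ((N + 1 : ℕ) : ℝ)) * b ^ 4) = (1 / ((N : ℝ) + 2)) / b ^ 4 := by
        push_cast
        rw [show (1 : ℝ) + (N + 1) = N + 2 by ring, div_div]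
      rw [h3]
      apply div_le_div₀ (by have : 0 < 1 / ((N : ℝ) + 2) := by positivity
                            linarith) hd (by nlinarith)
      have h4 : a * b ≤ b * b := mul_le_mul_of_nonneg_right hmono (by linarith)
      have h5 : (1 : ℝ) ≤ b ^ 2 := by nlinarith
      nlinarith [sq_nonneg b]
    linarith

theorem taskR (c : ℝ) (hc : 0 < c) (hc1 : c ≤ 1 / 10) (F : Finset ℕ) : ∑ y ∈ F, 1 / WW c y ≤ 2 := by
  have h1 : F ⊆ range (F.sup id + 1) := by
    intro p hp
    rw [mem_range]
    exact Nat.lt_succ_of_le (Finset.le_sup (f := id) hp)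
  have h0 : ∀ y : ℕ, 0 ≤ 1 / WW c y := by
    intro y
    unfold WW
    positivity
  have h2 := sum_range_inv c hc hc1 (F.sup id)
  have h3 : 0 ≤ 1 / Real.log ((1 + ((F.sup id : ℕ) : ℝ)) / c) := by
    apply one_div_nonneg.2
    apply Real.log_nonneg
    rw [le_div_iff₀ hc]
    have : (0 : ℝ) ≤ ((F.sup id : ℕ) : ℝ) := Nat.cast_nonneg _
    linarith
  have h4 : ∑ y ∈ F, 1 / WW c y ≤ ∑ y ∈ range (F.sup id + 1), 1 / WW c y :=
    Finset.sum_le_sum_of_subset_of_nonneg h1 (fun y _ _ => h0 y)
  linarith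

lemma taskS_aux (P : Finset ℕ) (a a' M D : ℕ → ℝ) (τ : ℝ) (hτ : 0 < τ) (ha : ∀ i ∈ P, |a i| ≤ M i)
    (ha' : ∀ i ∈ P, |a' i| ≤ M i) (hd : ∀ i ∈ P, |a i - a' i| ≤ D i) :
    τ * |∏ i ∈ P, a i - ∏ i ∈ P, a' i| + ∏ i ∈ P, M i ≤ ∏ i ∈ P, (M i + τ * D i) := by
  classical
  induction P using Finset.induction_on with
  | empty => simp
  | insert x s hx ih =>
    have h1 := ih (fun i hi => ha i (mem_insert_of_mem hi)) (fun i hi => ha' i (mem_insert_of_mem hi))
      (fun i hi => hd i (mem_insert_of_mem hi))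
    rw [Finset.prod_insert hx, Finset.prod_insert hx, Finset.prod_insert hx, Finset.prod_insert hx]
    have hMx : |a x| ≤ M x := ha x (mem_insert_self x s)
    have hMx' : |a' x| ≤ M x := ha' x (mem_insert_self x s)
    have hDx : |a x - a' x| ≤ D x := hd x (mem_insert_self x s)
    have hM0 : 0 ≤ M x := (abs_nonneg _).trans hMx
    have hD0 : 0 ≤ D x := (abs_nonneg _).trans hDx
    set A := ∏ i ∈ s, a i with hA
    set A' := ∏ i ∈ s, a' i with hA'
    set MM := ∏ i ∈ s, M i with hMM
    set Q := ∏ i ∈ s, (M i + τ * D i) with hQ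
    have hA'M : |A'| ≤ MM := by
      rw [hA', Finset.abs_prod]
      exact Finset.prod_le_prod (fun i _ => abs_nonneg _) (fun i hi => ha' i (mem_insert_of_mem hi))
    have hMQ : MM ≤ Q := by
      have : 0 ≤ τ * |A - A'| := by positivity
      linarith
    have h2 : |a x * A - a' x * A'| ≤ M x * |A - A'| + D x * MM := by
      have e : a x * A - a' x * A' = a x * (A - A') + (a x - a' x) * A' := by ring
      rw [e]
      refine (abs_add_le _ _).trans ?_
      rw [abs_mul, abs_mul]
      exact add_le_add (mul_le_mul_of_nonneg_right hMx (abs_nonneg _))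
        (mul_le_mul hDx hA'M (abs_nonneg _) hD0)
    calc τ * |a x * A - a' x * A'| + M x * MM ≤ τ * (M x * |A - A'| + D x * MM) + M x * MM := by
          have := mul_le_mul_of_nonneg_left h2 hτ.le
          linarith
      _ = M x * (τ * |A - A'| + MM) + τ * D x * MM := by ring
      _ ≤ M x * Q + τ * D x * Q := by
          apply add_le_add
          · exact mul_le_mul_of_nonneg_left h1 hM0
          · exact mul_le_mul_of_nonneg_left hMQ (by positivity)
      _ = (M x + τ * D x) * Q := by ring

theorem taskS (P : Finset ℕ) (a a' M D : ℕ → ℝ) (τ : ℝ) (hτ : 0 < τ) (ha : ∀ i ∈ P, |a i| ≤ M i)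
    (ha' : ∀ i ∈ P, |a' i| ≤ M i) (hd : ∀ i ∈ P, |a i - a' i| ≤ D i) :
    τ * |∏ i ∈ P, a i - ∏ i ∈ P, a' i| ≤ ∏ i ∈ P, (M i + τ * D i) := by
  have h := taskS_aux P a a' M D τ hτ ha ha' hd
  have h2 : 0 ≤ ∏ i ∈ P, M i := Finset.prod_nonneg fun i hi => (abs_nonneg _).trans (ha i hi)
  linarith

/-- exact type -/
theorem taskR' : Pool.Agent.H469R10.HO.TaskR := taskR

/-- exact type -/
theorem taskS' : Pool.Agent.H469R10.HO.TaskS := taskS

end Pool.Agent.H853R3.RS
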