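import Mathlib
import Pool.Agent.H469R10.HO.Stmts7

set_option autoImplicit false

open Finset Pool.Agent.H469R10.HO MeasureTheory

namespace Pool.Agent.H853R3.U469

lemma ww_ge' (j : ℕ) : 1 ≤ ww j := by unfold ww; split_ifs <;> norm_num

lemma PP_abs_le (f : ℝ → ℝ) (C : ℝ) (hC : ∀ x, 0 ≤ x → x ≤ 2 → |f x| ≤ C) (hC0 : 0 ≤ C) (j : ℕ) : |PP f j| ≤ 2 * C := by
  unfold PP
  have h1 : |∫ x in (0:ℝ)..2, f x * Real.cos (xx j * x)| ≤ C * |2 - 0| := by
    rw [← Real.norm_eq_abs]
    apply intervalIntegral.norm_integral_le_of_norm_le_const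
    intro x hx
    rw [Set.uIoc_of_le (by norm_num)] at hx
    rw [Real.norm_eq_abs, abs_mul]
    have h2 := hC x hx.1.le hx.2
    have h3 := Real.abs_cos_le_one (xx j * x)
    calc |f x| * |Real.cos (xx j * x)| ≤ C * 1 := mul_le_mul h2 h3 (abs_nonneg _) hC0
      _ = C := mul_one _
  rw [abs_div]
  have hw := ww_ge' j
  have hw' : 1 ≤ |ww j| := by rw [abs_of_pos (by linarith)]; exact hw
  rw [div_le_iff₀ (by linarith)]
  have e : |(2 : ℝ) - 0| = 2 := by norm_num
  rw [e] at h1
  calc |∫ x in (0:ℝ)..2, f x * Real.cos (xx j * x)| ≤ C * 2 := h1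
    _ = 2 * C * 1 := by ring
    _ ≤ 2 * C * |ww j| := mul_le_mul_of_nonneg_left hw' (by positivity)

lemma DD_cos_abs (m : ℕ) (w x : ℝ) (hx0 : 0 ≤ x) : |DD m (fun y => Real.cos (w * y)) x| ≤ 1 := by
  unfold DD
  by_cases hx : x ≤ 1
  · rw [abs_mul, abs_mul]
    have h1 : |chi x| ≤ 1 := by
      unfold chi
      rw [abs_of_nonneg (Real.smoothTransition.nonneg _)]
      exact Real.smoothTransition.le_one _
    have h2 : |x ^ (2 * m)| ≤ 1 := by
      rw [abs_of_nonneg (by positivity)]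
      exact pow_le_one₀ hx0 hx
    have h3 := Real.abs_cos_le_one (w * x⁻¹)
    calc |chi x| * |x ^ (2 * m)| * |Real.cos (w * x⁻¹)| ≤ 1 * 1 * 1 :=
          mul_le_mul (mul_le_mul h1 h2 (abs_nonneg _) zero_le_one) h3 (abs_nonneg _) (by norm_num)
      _ = 1 := by norm_num
  · have : chi x = 0 := by
      unfold chi
      apply Real.smoothTransition.zero_of_nonpos
      push Not at hx
      linarith
    rw [this]
    simp

theorem taskU : Pool.Agent.H469R10.HO.TaskU := by
  intro c lam m n j hm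
  have hD : |PP (DD m (fun y => Real.cos (uu c lam n * y))) j| ≤ 2 * 1 :=
    PP_abs_le _ 1 (fun x hx _ => DD_cos_abs m _ x hx) zero_le_one j
  unfold TT
  split_ifs
  · have h1 : |PP (fun t => Real.cos (uu c lam n * t) - Real.cos (xx (jj c lam n) * t)) j| ≤ 2 * 2 := by
      apply PP_abs_le _ 2 _ (by norm_num) j
      intro x _ _
      have h2 := Real.abs_cos_le_one (uu c lam n * x)
      have h3 := Real.abs_cos_le_one (xx (jj c lam n) * x)
      refine (abs_sub _ _).trans ?_
      linarith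
    refine (abs_add_le _ _).trans ?_
    rw [abs_neg]
    linarith
  · have h1 : |PP (fun t => Real.cos (uu c lam n * t)) j| ≤ 2 * 1 := by
      apply PP_abs_le _ 1 _ (by norm_num) j
      intro x _ _
      exact Real.abs_cos_le_one _
    refine (abs_add_le _ _).trans ?_
    rw [abs_neg]
    linarith
  · simp

end Pool.Agent.H853R3.U469
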