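import Mathlib
import Pool.Agent.H469R10.HO.Stmts2

set_option autoImplicit false

open MeasureTheory Set Filter Topology FourierTransform

namespace Pool.Agent.H853R3.Bol

/-- integrability of `u^n e^{-su}` on `(0,∞)` -/
lemma integ (n : ℕ) (s : ℂ) (hs : 0 < s.re) :
    IntegrableOn (fun u : ℝ => (u : ℂ) ^ n * Complex.exp (-(s * u))) (Ioi 0) := by
  have h1 : IntegrableOn (fun x : ℝ => x ^ (n : ℝ) * Real.exp (-s.re * x)) (Ioi 0) := by
    have := integrableOn_rpow_mul_exp_neg_mul_rpow (s := (n : ℝ)) (p := 1) (b := s.re)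
      (by have : (0 : ℝ) ≤ n := Nat.cast_nonneg n
          linarith) one_pos hs
    simpa using this
  refine Integrable.mono' h1 ?_ ?_
  · apply Continuous.aestronglyMeasurable
    fun_prop
  · refine (ae_restrict_mem measurableSet_Ioi).mono ?_
    intro x hx
    have hx0 : (0 : ℝ) < x := hx
    rw [norm_mul, norm_pow, Complex.norm_real, Complex.norm_exp, Real.norm_of_nonneg hx0.le,
      Real.rpow_natCast]
    simp

/-- the Gamma integral at integer parameters, complex rate -/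
lemma gam (n : ℕ) (s : ℂ) (hs : 0 < s.re) :
    ∫ u in Ioi (0 : ℝ), (u : ℂ) ^ n * Complex.exp (-(s * u)) = (n.factorial : ℂ) / s ^ (n + 1) := by
  have hs0 : s ≠ 0 := by
    intro h
    simp [h] at hs
  induction n with
  | zero =>
    have h := integral_exp_mul_complex_Ioi (a := -s) (by simpa using hs) 0
    simp only [pow_zero, one_mul, zero_add, pow_one, Nat.factorial_zero, Nat.cast_one]
    have e : ∀ u : ℝ, Complex.exp (-(s * u)) = Complex.exp (-s * u) := by
      intro u; congr 1; ring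
    simp_rw [e]
    rw [h]
    simp
  | succ n ih =>
    have hder : ∀ x ∈ Ioi (0 : ℝ), HasDerivAt (fun u : ℝ => (u : ℂ) ^ (n + 1) * Complex.exp (-(s * u)))
        (((n : ℂ) + 1) * ((x : ℂ) ^ n * Complex.exp (-(s * x))) - s * ((x : ℂ) ^ (n + 1) * Complex.exp (-(s * x)))) x := by
      intro x _
      have h1 : HasDerivAt (fun u : ℝ => (u : ℂ)) 1 x := Complex.ofRealCLM.hasDerivAt
      have h2 := (h1.pow (n + 1)).mul (((h1.const_mul s).neg).cexp)
      refine h2.congr_deriv ?_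
      push_cast
      simp
      ring
    have hcont : ContinuousWithinAt (fun u : ℝ => (u : ℂ) ^ (n + 1) * Complex.exp (-(s * u))) (Ici 0) 0 := by
      apply Continuous.continuousWithinAt
      fun_prop
    have hint : IntegrableOn (fun x : ℝ => ((n : ℂ) + 1) * ((x : ℂ) ^ n * Complex.exp (-(s * x))) -
        s * ((x : ℂ) ^ (n + 1) * Complex.exp (-(s * x)))) (Ioi 0) :=
      ((integ n s hs).const_mul _).sub ((integ (n + 1) s hs).const_mul _)
    have hlim : Tendsto (fun u : ℝ => (u : ℂ) ^ (n + 1) * Complex.exp (-(s * u))) atTop (𝓝 0) := by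
      rw [tendsto_zero_iff_norm_tendsto_zero]
      have h3 := Real.tendsto_pow_mul_exp_neg_atTop_nhds_zero (n + 1)
      have h4 : Tendsto (fun x : ℝ => (s.re * x) ^ (n + 1) * Real.exp (-(s.re * x)) / s.re ^ (n + 1)) atTop (𝓝 (0 / s.re ^ (n + 1))) :=
        (h3.comp (tendsto_id.const_mul_atTop hs)).div_const _
      rw [zero_div] at h4
      refine h4.congr' ?_
      filter_upwards [eventually_gt_atTop 0] with x hx
      rw [norm_mul, norm_pow, Complex.norm_real, Complex.norm_exp, Real.norm_of_nonneg hx.le]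
      have : (-(s * (x : ℂ))).re = -(s.re * x) := by simp
      rw [this, mul_pow]
      have : s.re ^ (n + 1) ≠ 0 := (pow_pos hs _).ne'
      field_simp
    have key := integral_Ioi_of_hasDerivAt_of_tendsto hcont hder hint hlim
    rw [integral_sub ((integ n s hs).const_mul _) ((integ (n + 1) s hs).const_mul _)] at key
    rw [integral_const_mul, integral_const_mul, ih] at key
    have e0 : (((0 : ℝ) : ℂ)) ^ (n + 1) * Complex.exp (-(s * ((0 : ℝ) : ℂ))) = 0 := by simp
    rw [e0] at key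
    have : s * ∫ u in Ioi (0 : ℝ), (u : ℂ) ^ (n + 1) * Complex.exp (-(s * u)) = ((n : ℂ) + 1) * ((n.factorial : ℂ) / s ^ (n + 1)) := by
      linear_combination -key
    have h5 : ∫ u in Ioi (0 : ℝ), (u : ℂ) ^ (n + 1) * Complex.exp (-(s * u)) = ((n : ℂ) + 1) * ((n.factorial : ℂ) / s ^ (n + 1)) / s := by
      rw [eq_div_iff hs0, mul_comm]; exact this
    rw [h5, Nat.factorial_succ]
    push_cast
    field_simp
    ring

/-- the test function -/
noncomputable def ff (t : ℝ) (n : ℕ) (u : ℝ) : ℂ :=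
  ((max u 0 : ℝ) : ℂ) ^ n * Complex.exp (-((t : ℂ) * ((max u 0 : ℝ) : ℂ)))

lemma ff_cont (t : ℝ) (n : ℕ) : Continuous (ff t n) := by
  unfold ff
  fun_prop

lemma ff_pos (t : ℝ) (n : ℕ) {u : ℝ} (hu : 0 ≤ u) :
    ff t n u = (u : ℂ) ^ n * Complex.exp (-((t : ℂ) * u)) := by
  unfold ff
  rw [max_eq_left hu]

lemma ff_neg (t : ℝ) (n : ℕ) (hn : 1 ≤ n) {u : ℝ} (hu : u ≤ 0) : ff t n u = 0 := by
  unfold ff
  rw [max_eq_right hu]
  have : n ≠ 0 := by omega
  simp [this]

lemma ff_eq_ind (t : ℝ) (n : ℕ) (hn : 1 ≤ n) :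
    ff t n = (Ioi (0 : ℝ)).indicator (fun u : ℝ => (u : ℂ) ^ n * Complex.exp (-((t : ℂ) * u))) := by
  ext u
  by_cases hu : 0 < u
  · rw [indicator_of_mem (by exact hu), ff_pos t n hu.le]
  · rw [indicator_of_notMem (by exact hu), ff_neg t n hn (not_lt.1 hu)]

lemma ff_int (t : ℝ) (ht : 0 < t) (n : ℕ) (hn : 1 ≤ n) : Integrable (ff t n) := by
  rw [ff_eq_ind t n hn, integrable_indicator_iff measurableSet_Ioi]
  exact integ n t (by simpa using ht)

lemma ff_fourier (t : ℝ) (ht : 0 < t) (n : ℕ) (hn : 1 ≤ n) (ξ : ℝ) :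
    𝓕 (ff t n) ξ = (n.factorial : ℂ) / ((t : ℂ) + 2 * Real.pi * ξ * Complex.I) ^ (n + 1) := by
  rw [Real.fourier_eq']
  have h1 : (fun v : ℝ => Complex.exp (↑(-2 * Real.pi * inner ℝ v ξ) * Complex.I) • ff t n v) =
      (Ioi (0 : ℝ)).indicator (fun u : ℝ => (u : ℂ) ^ n *
        Complex.exp (-(((t : ℂ) + 2 * Real.pi * ξ * Complex.I) * u))) := by
    ext v
    rw [ff_eq_ind t n hn]
    by_cases hv : 0 < v
    · rw [indicator_of_mem (by exact hv), indicator_of_mem (by exact hv), smul_eq_mul]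
      have : Complex.exp (-(((t : ℂ) + 2 * Real.pi * ξ * Complex.I) * v)) =
          Complex.exp (↑(-2 * Real.pi * inner ℝ v ξ) * Complex.I) * Complex.exp (-((t : ℂ) * v)) := by
        rw [← Complex.exp_add]
        congr 1
        simp
        ring
      rw [this]; ring
    · rw [indicator_of_notMem (by exact hv), indicator_of_notMem (by exact hv), smul_zero]
  rw [h1, integral_indicator measurableSet_Ioi]
  exact gam n _ (by simpa using ht)

lemma norm_sq_lower (t : ℝ) (x : ℝ) : ‖(t : ℂ) + x * Complex.I‖ ^ 2 = t ^ 2 + x ^ 2 := by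
  rw [← Complex.normSq_eq_norm_sq, Complex.normSq_add_mul_I]

lemma ne_zero' (t : ℝ) (ht : 0 < t) (x : ℝ) : (t : ℂ) + x * Complex.I ≠ 0 := by
  intro h
  have := congrArg Complex.re h
  simp at this
  linarith

/-- the kernel is integrable -/
lemma ker_int (t : ℝ) (ht : 0 < t) (n : ℕ) (hn : 1 ≤ n) :
    Integrable (fun x : ℝ => (1 : ℂ) / ((t : ℂ) + x * Complex.I) ^ (n + 1)) := by
  have hC : Integrable (fun x : ℝ => (1 / t ^ (n - 1)) * ((1 / min (t ^ 2) 1) * (1 + x ^ 2)⁻¹)) :=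
    (integrable_inv_one_add_sq.const_mul _).const_mul _
  refine Integrable.mono' hC ?_ ?_
  · apply Continuous.aestronglyMeasurable
    apply Continuous.div continuous_const (by fun_prop)
    intro x
    exact pow_ne_zero _ (ne_zero' t ht x)
  · refine Eventually.of_forall fun x => ?_
    have h0 : 0 < ‖(t : ℂ) + x * Complex.I‖ := norm_pos_iff.2 (ne_zero' t ht x)
    have h1 : t ≤ ‖(t : ℂ) + x * Complex.I‖ := by
      have := norm_sq_lower t x
      nlinarith [sq_nonneg x]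
    have hm : 0 < min (t ^ 2) 1 := lt_min (by positivity) one_pos
    rw [norm_div, norm_one, norm_pow]
    have e1 : ‖(t : ℂ) + x * Complex.I‖ ^ (n + 1) = ‖(t : ℂ) + x * Complex.I‖ ^ (n - 1) * ‖(t : ℂ) + x * Complex.I‖ ^ 2 := by
      rw [← pow_add]; congr 1; omega
    rw [e1, norm_sq_lower, one_div, mul_inv]
    apply mul_le_mul
    · rw [one_div]
      exact inv_anti₀ (pow_pos ht _) (pow_le_pow_left₀ ht.le h1 _)
    · rw [one_div, ← mul_inv]
      apply inv_anti₀
      · positivity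
      · have h2 : min (t ^ 2) 1 ≤ t ^ 2 := min_le_left _ _
        have h3 : min (t ^ 2) 1 ≤ 1 := min_le_right _ _
        nlinarith [sq_nonneg x]
    · positivity
    · positivity

/-- Fourier inversion for the kernel -/
lemma inv_formula (t : ℝ) (ht : 0 < t) (n : ℕ) (hn : 1 ≤ n) (u : ℝ) :
    ∫ x : ℝ, Complex.exp ((u * x : ℝ) * Complex.I) * (1 / ((t : ℂ) + x * Complex.I) ^ (n + 1)) =
      2 * Real.pi * ff t n u / n.factorial := by
  have hfac : (n.factorial : ℂ) ≠ 0 := by exact_mod_cast n.factorial_ne_zero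
  have hF : 𝓕 (ff t n) = fun ξ : ℝ => (n.factorial : ℂ) * (1 / ((t : ℂ) + ((2 * Real.pi * ξ : ℝ) : ℂ) * Complex.I) ^ (n + 1)) := by
    ext ξ
    rw [ff_fourier t ht n hn ξ]
    push_cast
    ring
  have hFi : Integrable (𝓕 (ff t n)) := by
    rw [hF]
    have h := (ker_int t ht n hn).comp_mul_left' (R := 2 * Real.pi) (by positivity)
    exact h.const_mul _
  have hinv := congrFun ((ff_cont t n).fourierInv_fourier_eq (ff_int t ht n hn) hFi) u
  rw [Real.fourierInv_eq', hF] at hinv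
  have h1 := Measure.integral_comp_mul_left (fun x : ℝ => Complex.exp ((u * x : ℝ) * Complex.I) *
    (1 / ((t : ℂ) + x * Complex.I) ^ (n + 1))) (2 * Real.pi)
  have h2 : (∫ v : ℝ, Complex.exp (↑(2 * Real.pi * inner ℝ v u) * Complex.I) •
      ((n.factorial : ℂ) * (1 / ((t : ℂ) + ((2 * Real.pi * v : ℝ) : ℂ) * Complex.I) ^ (n + 1)))) =
      (n.factorial : ℂ) * ∫ v : ℝ, Complex.exp ((u * (2 * Real.pi * v) : ℝ) * Complex.I) *
        (1 / ((t : ℂ) + ((2 * Real.pi * v : ℝ) : ℂ) * Complex.I) ^ (n + 1)) := by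
    rw [← integral_const_mul]
    congr 1
    ext v
    have : (2 * Real.pi * inner ℝ v u : ℝ) = u * (2 * Real.pi * v) := by
      simp
      ring
    rw [this, smul_eq_mul]
    ring
  rw [h2, h1] at hinv
  have hpi : (0 : ℝ) < 2 * Real.pi := by positivity
  rw [abs_of_pos (inv_pos.2 hpi), Complex.real_smul] at hinv
  rw [eq_div_iff hfac, ← hinv]
  generalize (∫ y : ℝ, Complex.exp ((u * y : ℝ) * Complex.I) * (1 / ((t : ℂ) + y * Complex.I) ^ (n + 1))) = J
  push_cast
  have : (Real.pi : ℂ) ≠ 0 := by exact_mod_cast Real.pi_ne_zero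
  field_simp

/-- real kernel -/
noncomputable def K (n : ℕ) (t x : ℝ) : ℝ := (1 / ((t : ℂ) + x * Complex.I) ^ (n + 1)).re

lemma K_int (t : ℝ) (ht : 0 < t) (n : ℕ) (hn : 1 ≤ n) : Integrable (K n t) :=
  (ker_int t ht n hn).re

lemma K_even (n : ℕ) (t x : ℝ) : K n t (-x) = K n t x := by
  unfold K
  have : (1 / ((t : ℂ) + ((-x : ℝ) : ℂ) * Complex.I) ^ (n + 1)) =
      (starRingEnd ℂ) (1 / ((t : ℂ) + x * Complex.I) ^ (n + 1)) := by
    simp
  rw [this, Complex.conj_re]

lemma exp_int (t : ℝ) (ht : 0 < t) (n : ℕ) (hn : 1 ≤ n) (u : ℝ) :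
    Integrable (fun x : ℝ => Complex.exp ((u * x : ℝ) * Complex.I) * (1 / ((t : ℂ) + x * Complex.I) ^ (n + 1))) := by
  refine (ker_int t ht n hn).bdd_mul (c := 1) ?_ ?_
  · apply Continuous.aestronglyMeasurable
    fun_prop
  · refine Eventually.of_forall fun x => ?_
    rw [Complex.norm_exp_ofReal_mul_I]

lemma cos_full (t : ℝ) (ht : 0 < t) (n : ℕ) (hn : 1 ≤ n) (u : ℝ) (hu : 0 ≤ u) :
    ∫ x : ℝ, Real.cos (u * x) * K n t x = Real.pi * (u ^ n * Real.exp (-(u * t))) / n.factorial := by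
  have h1 := inv_formula t ht n hn u
  have h2 := inv_formula t ht n hn (-u)
  have h3 : ∫ x : ℝ, ((Real.cos (u * x) : ℝ) : ℂ) * (1 / ((t : ℂ) + x * Complex.I) ^ (n + 1)) =
      Real.pi * ((u : ℂ) ^ n * Complex.exp (-((t : ℂ) * u))) / n.factorial := by
    have h4 := integral_add (exp_int t ht n hn u) (exp_int t ht n hn (-u))
    rw [h1, h2] at h4
    have h5 : (fun x : ℝ => ((Real.cos (u * x) : ℝ) : ℂ) * (1 / ((t : ℂ) + x * Complex.I) ^ (n + 1))) =
        fun x : ℝ => (1 / 2 : ℂ) * (Complex.exp ((u * x : ℝ) * Complex.I) * (1 / ((t : ℂ) + x * Complex.I) ^ (n + 1)) +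
          Complex.exp ((-u * x : ℝ) * Complex.I) * (1 / ((t : ℂ) + x * Complex.I) ^ (n + 1))) := by
      ext x
      rw [Complex.ofReal_cos, Complex.cos]
      push_cast
      ring_nf
    rw [h5, integral_const_mul, h4, ff_pos t n hu]
    have h6 : ff t n (-u) = if u = 0 then ff t n u else 0 := by
      split_ifs with h
      · rw [h, neg_zero]
      · exact ff_neg t n hn (by linarith)
    by_cases hu0 : u = 0
    · have hn0 : n ≠ 0 := by omega
      rw [hu0, neg_zero, ff_neg t n hn le_rfl]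
      simp [hn0]
    · rw [h6, if_neg hu0]
      ring
  have h7 := congrArg Complex.re h3
  rw [← RCLike.re_eq_complex_re, ← integral_re] at h7
  · simp only [RCLike.re_eq_complex_re, Complex.re_ofReal_mul] at h7
    unfold K
    rw [h7]
    have : (Real.pi * ((u : ℂ) ^ n * Complex.exp (-((t : ℂ) * u))) / n.factorial : ℂ) =
        ((Real.pi * (u ^ n * Real.exp (-(u * t))) / n.factorial : ℝ) : ℂ) := by
      push_cast
      ring_nf
    rw [this, Complex.ofReal_re]
  · refine (ker_int t ht n hn).bdd_mul (c := 1) ?_ ?_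
    · apply Continuous.aestronglyMeasurable
      fun_prop
    · refine Eventually.of_forall fun x => ?_
      rw [Complex.norm_real]
      exact Real.abs_cos_le_one _

lemma cos_half (t : ℝ) (ht : 0 < t) (n : ℕ) (hn : 1 ≤ n) (u : ℝ) (hu : 0 ≤ u) :
    ∫ x in Ioi (0 : ℝ), Real.cos (u * x) * K n t x =
      Real.pi / 2 * (u ^ n * Real.exp (-(u * t))) / n.factorial := by
  have h1 := cos_full t ht n hn u hu
  have h2 := integral_comp_abs (f := fun x : ℝ => Real.cos (u * x) * K n t x)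
  have h3 : (fun x : ℝ => Real.cos (u * |x|) * K n t |x|) = fun x : ℝ => Real.cos (u * x) * K n t x := by
    ext x
    rcases abs_choice x with h | h <;> rw [h]
    rw [K_even, mul_neg, Real.cos_neg]
  rw [h3, h1] at h2
  have h4 : Real.pi / 2 * (u ^ n * Real.exp (-(u * t))) / n.factorial =
    (Real.pi * (u ^ n * Real.exp (-(u * t))) / n.factorial) / 2 := by ring
  rw [h4]
  linarith

/-- the theta series as an integral -/
lemma theta_eq (t : ℝ) (ht : 0 < t) (n : ℕ) (hn : 1 ≤ n) (α u : ℕ → ℝ) (hα : Summable fun j => |α j|)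
    (hu : ∀ j, 0 ≤ u j) :
    ∑' j, α j * u j ^ n * Real.exp (-(u j * t)) =
      2 * n.factorial / Real.pi * ∫ x in Ioi (0 : ℝ), (∑' j, α j * Real.cos (u j * x)) * K n t x := by
  have hKi : IntegrableOn (K n t) (Ioi 0) := (K_int t ht n hn).integrableOn
  have hFi : ∀ j, Integrable (fun x : ℝ => α j * Real.cos (u j * x) * K n t x) (volume.restrict (Ioi 0)) := by
    intro j
    refine hKi.bdd_mul (c := |α j|) ?_ ?_
    · apply Continuous.aestronglyMeasurable
      fun_prop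
    · refine Eventually.of_forall fun x => ?_
      rw [Real.norm_eq_abs, abs_mul]
      exact mul_le_of_le_one_right (abs_nonneg _) (Real.abs_cos_le_one _)
  have hs : Summable fun j => ∫ x in Ioi (0 : ℝ), ‖α j * Real.cos (u j * x) * K n t x‖ := by
    refine Summable.of_nonneg_of_le (fun j => integral_nonneg fun x => norm_nonneg _) ?_
      (hα.mul_right (∫ x in Ioi (0 : ℝ), ‖K n t x‖))
    intro j
    rw [← integral_const_mul]
    refine integral_mono (hFi j).norm (hKi.norm.const_mul _) fun x => ?_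
    simp only [norm_mul, Real.norm_eq_abs]
    exact mul_le_mul_of_nonneg_right (mul_le_of_le_one_right (abs_nonneg _) (Real.abs_cos_le_one _)) (abs_nonneg _)
  have h := hasSum_integral_of_summable_integral_norm hFi hs
  have h1 : (fun x : ℝ => ∑' j, α j * Real.cos (u j * x) * K n t x) =
      fun x : ℝ => (∑' j, α j * Real.cos (u j * x)) * K n t x := by
    ext x
    exact tsum_mul_right
  rw [h1] at h
  have h2 : ∀ j, α j * u j ^ n * Real.exp (-(u j * t)) =
      2 * n.factorial / Real.pi * ∫ x in Ioi (0 : ℝ), α j * Real.cos (u j * x) * K n t x := by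
    intro j
    have h3 := cos_half t ht n hn (u j) (hu j)
    simp_rw [mul_assoc (α j)]
    rw [integral_const_mul, h3]
    have h4 : (n.factorial : ℝ) ≠ 0 := by exact_mod_cast n.factorial_ne_zero
    have := Real.pi_ne_zero
    field_simp
  simp_rw [h2]
  rw [tsum_mul_left, h.tsum_eq]

lemma K_inv (m : ℕ) (t x : ℝ) (ht : 0 < t) (hx : 0 < x) :
    K (2 * m + 1) t⁻¹ x⁻¹ = (-1) ^ (m + 1) * (t * x) ^ (2 * m + 2) * K (2 * m + 1) t x := by
  unfold K
  have ht0 : (t : ℂ) ≠ 0 := by exact_mod_cast ht.ne'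
  have hx0 : (x : ℂ) ≠ 0 := by exact_mod_cast hx.ne'
  have h1 := ne_zero' t ht x
  have h1' : (t : ℂ) - x * Complex.I ≠ 0 := by
    have := ne_zero' t ht (-x)
    push_cast at this
    rwa [neg_mul, ← sub_eq_add_neg] at this
  have e1 : ((t⁻¹ : ℝ) : ℂ) + ((x⁻¹ : ℝ) : ℂ) * Complex.I = Complex.I * (t - x * Complex.I) / (t * x) := by
    push_cast
    field_simp
    ring_nf
    rw [Complex.I_sq]
    ring
  have e2 : Complex.I ^ (2 * m + 1 + 1) = (-1) ^ (m + 1) := by
    rw [show 2 * m + 1 + 1 = 2 * (m + 1) by ring, pow_mul, Complex.I_sq]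
  have e3 : (1 : ℂ) / (((t⁻¹ : ℝ) : ℂ) + ((x⁻¹ : ℝ) : ℂ) * Complex.I) ^ (2 * m + 1 + 1) =
      (((-1) ^ (m + 1) * (t * x) ^ (2 * m + 2) : ℝ) : ℂ) * (1 / ((t : ℂ) - x * Complex.I) ^ (2 * m + 1 + 1)) := by
    rw [e1, div_pow, mul_pow, e2]
    push_cast
    have h2 : ((-1 : ℂ)) ^ (m + 1) * (-1) ^ (m + 1) = 1 := by
      rw [← mul_pow]; simp
    have h3 : ((-1 : ℂ)) ^ (m + 1) ≠ 0 := pow_ne_zero _ (by norm_num)
    have h4 : ((t : ℂ) - x * Complex.I) ^ (2 * m + 1 + 1) ≠ 0 := pow_ne_zero _ h1'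
    field_simp
    linear_combination (-1 : ℂ) * h2
  rw [e3, Complex.re_ofReal_mul]
  congr 1
  have := K_even (2 * m + 1) t x
  unfold K at this
  rw [← this]
  push_cast
  rw [neg_mul, ← sub_eq_add_neg]

theorem taskG : Pool.Agent.H469R10.HO.TaskG := by
  intro m hm α u hα hu0 hu σ hσ hrel t ht
  have hun : ∀ j, 0 ≤ u j := by
    intro j
    rcases Nat.eq_zero_or_pos j with h | h
    · rw [h, hu0]
    · exact (hu j h).le
  have hσ2 : σ * σ = 1 := by
    rcases hσ with h | h <;> rw [h] <;> norm_num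
  have hti : 0 < t⁻¹ := inv_pos.2 ht
  have h1 := theta_eq t⁻¹ hti (2 * m + 1) (by omega) α u hα hun
  have h2 := theta_eq t ht (2 * m + 1) (by omega) α u hα hun
  simp_rw [div_eq_mul_inv]
  rw [h1, h2]
  set g : ℝ → ℝ := fun x => (∑' j, α j * Real.cos (u j * x)) * K (2 * m + 1) t⁻¹ x with hg
  have h3 := integral_comp_rpow_Ioi g (p := -1) (by norm_num)
  rw [← h3]
  have h4 : ∫ x in Ioi (0 : ℝ), (|(-1 : ℝ)| * x ^ ((-1 : ℝ) - 1)) • g (x ^ (-1 : ℝ)) =
      ∫ x in Ioi (0 : ℝ), ((-1) ^ (m + 1) * σ * t ^ (2 * m + 2)) *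
        ((∑' j, α j * Real.cos (u j * x)) * K (2 * m + 1) t x) := by
    refine setIntegral_congr_fun measurableSet_Ioi fun x hx => ?_
    have hx0 : (0 : ℝ) < x := hx
    have e1 : x ^ (-1 : ℝ) = x⁻¹ := Real.rpow_neg_one x
    have e2 : x ^ ((-1 : ℝ) - 1) = (x ^ 2)⁻¹ := by
      rw [show ((-1 : ℝ) - 1) = -((2 : ℕ) : ℝ) by norm_num, Real.rpow_neg hx0.le, Real.rpow_natCast]
    have e3 := hrel x hx0
    simp only [hg, smul_eq_mul, abs_neg, abs_one, one_mul]
    rw [e1, e2, K_inv m t x ht hx0]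
    have e4 : ∑' j, α j * Real.cos (u j * x⁻¹) = σ * (x ^ (2 * m))⁻¹ * ∑' j, α j * Real.cos (u j * x) := by
      rw [e3]
      simp_rw [div_eq_mul_inv]
      have hx1 : (x ^ (2 * m))⁻¹ * x ^ (2 * m) = 1 := inv_mul_cancel₀ (pow_pos hx0 _).ne'
      generalize (∑' j, α j * Real.cos (u j * x⁻¹)) = S
      linear_combination (-S) * hσ2 - σ * σ * S * hx1
    rw [e4, mul_pow]
    have h5 : x ^ (2 * m + 2) = x ^ (2 * m) * x ^ 2 := by ring
    have h6 : x ^ (2 * m) ≠ 0 := (pow_pos hx0 _).ne'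
    rw [h5]
    field_simp
  rw [h4, integral_const_mul]
  ring

end Pool.Agent.H853R3.Bol
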