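import Mathlib
import Pool.Agent.H336R4.PF.Defs

set_option autoImplicit false

open Filter Topology

namespace Pool.Agent.H853R3.FEX

open Pool.Agent.H336R4.PF

lemma conj_diff (G : ℂ → ℂ) (hG : Differentiable ℂ G) :
    Differentiable ℂ (fun s : ℂ => starRingEnd ℂ (G (1 - starRingEnd ℂ s))) := by
  intro s
  have h1 : HasDerivAt G (deriv G (1 - starRingEnd ℂ s)) (1 - starRingEnd ℂ s) := (hG _).hasDerivAt
  have h2 : HasDerivAt (fun z : ℂ => G (1 - z)) (-(deriv G (1 - starRingEnd ℂ s))) (starRingEnd ℂ s) := by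
    have h3 : HasDerivAt (fun z : ℂ => 1 - z) (-1) (starRingEnd ℂ s) := by
      simpa using (hasDerivAt_id (starRingEnd ℂ s)).const_sub 1
    have h4 := HasDerivAt.comp (starRingEnd ℂ s) h1 h3
    simpa [Function.comp_def] using h4
  have h5 := h2.star_conj
  simp only [Function.comp_def, Complex.conj_conj] at h5
  exact h5.differentiableAt

theorem taskFEX : TaskFEX := by
  intro m G hG Q k lam μ ω hQ hFE
  obtain ⟨hlam, hμ, hω, hfe⟩ := hFE
  have hQ0 : (Q : ℂ) ≠ 0 := by exact_mod_cast hQ.ne'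
  set f : ℂ → ℂ := fun s => (Q : ℂ) ^ s * (∏ j, (Complex.Gamma ((lam j : ℂ) * (1 - s) + starRingEnd ℂ (μ j)))⁻¹) * (G s * s ^ m) with hf
  set g : ℂ → ℂ := fun s => ω * ((-1) ^ m * (Q : ℂ) ^ (1 - s) * (∏ j, (Complex.Gamma ((lam j : ℂ) * s + μ j))⁻¹)
      * (starRingEnd ℂ (G (1 - starRingEnd ℂ s)) * (s - 1) ^ m)) with hg
  have hfd : Differentiable ℂ f := by
    apply Differentiable.mul
    · apply Differentiable.mul
      · exact (differentiable_id.const_cpow (Or.inl hQ0))
      · apply Differentiable.fun_finsetProd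
        intro j _
        have h1 : Differentiable ℂ (fun s : ℂ => (lam j : ℂ) * (1 - s) + starRingEnd ℂ (μ j)) := by fun_prop
        exact Complex.differentiable_one_div_Gamma.comp h1
    · exact hG.mul (differentiable_id.pow m)
  have hgd : Differentiable ℂ g := by
    apply Differentiable.const_mul
    apply Differentiable.mul
    · apply Differentiable.mul
      · apply Differentiable.const_mul
        have h1 : Differentiable ℂ (fun s : ℂ => 1 - s) := by fun_prop
        exact h1.const_cpow (Or.inl hQ0)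
      · apply Differentiable.fun_finsetProd
        intro j _
        have h1 : Differentiable ℂ (fun s : ℂ => (lam j : ℂ) * s + μ j) := by fun_prop
        exact Complex.differentiable_one_div_Gamma.comp h1
    · apply (conj_diff G hG).mul
      have h1 : Differentiable ℂ (fun s : ℂ => s - 1) := by fun_prop
      exact h1.pow m
  have hstrip : ∀ s : ℂ, 0 < s.re → s.re < 1 → f s = g s := by
    intro s hs0 hs1
    have h := hfe s hs0 hs1
    have hs : s ≠ 0 := by
      intro h0
      rw [h0] at hs0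
      simp at hs0
    have hs' : s - 1 ≠ 0 := by
      intro h0
      have : s = 1 := by linear_combination h0
      rw [this] at hs1
      simp at hs1
    have hG1 : ∀ j, Complex.Gamma ((lam j : ℂ) * s + μ j) ≠ 0 := by
      intro j
      apply Complex.Gamma_ne_zero_of_re_pos
      have h1 := mul_pos (hlam j) hs0
      have h2 := hμ j
      simp
      linarith
    have hG2 : ∀ j, Complex.Gamma ((lam j : ℂ) * (1 - s) + starRingEnd ℂ (μ j)) ≠ 0 := by
      intro j
      apply Complex.Gamma_ne_zero_of_re_pos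
      have h1 := mul_pos (hlam j) (sub_pos.2 hs1)
      have h2 := hμ j
      simp
      linarith
    have hP1 : ∏ j, Complex.Gamma ((lam j : ℂ) * s + μ j) ≠ 0 := Finset.prod_ne_zero_iff.2 fun j _ => hG1 j
    have hP2 : ∏ j, Complex.Gamma ((lam j : ℂ) * (1 - s) + starRingEnd ℂ (μ j)) ≠ 0 :=
      Finset.prod_ne_zero_iff.2 fun j _ => hG2 j
    have e1 : starRingEnd ℂ ((Q : ℂ) ^ (1 - starRingEnd ℂ s)) = (Q : ℂ) ^ (1 - s) := by
      have harg : (Q : ℂ).arg ≠ Real.pi := by
        rw [Complex.arg_ofReal_of_nonneg hQ.le]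
        exact Real.pi_ne_zero.symm
      have h1 := Complex.conj_cpow (Q : ℂ) (1 - s) harg
      rw [Complex.conj_ofReal] at h1
      rw [h1]
      simp
    have e2 : starRingEnd ℂ (∏ j, Complex.Gamma ((lam j : ℂ) * (1 - starRingEnd ℂ s) + μ j)) =
        ∏ j, Complex.Gamma ((lam j : ℂ) * (1 - s) + starRingEnd ℂ (μ j)) := by
      rw [map_prod]
      apply Finset.prod_congr rfl
      intro j _
      rw [← Complex.Gamma_conj]
      simp
    have e3 : starRingEnd ℂ (G (1 - starRingEnd ℂ s) / ((1 - starRingEnd ℂ s) - 1) ^ m) =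
        starRingEnd ℂ (G (1 - starRingEnd ℂ s)) / ((-1) ^ m * s ^ m) := by
      rw [map_div₀, map_pow, ← mul_pow]
      simp
    rw [map_mul, map_mul, e1, e2, e3] at h
    rw [hf, hg]
    simp only [Finset.prod_inv_distrib]
    set X := (Q : ℂ) ^ s
    set Y := (Q : ℂ) ^ (1 - s)
    set P := ∏ j, Complex.Gamma ((lam j : ℂ) * s + μ j)
    set P' := ∏ j, Complex.Gamma ((lam j : ℂ) * (1 - s) + starRingEnd ℂ (μ j))
    set W := starRingEnd ℂ (G (1 - starRingEnd ℂ s))
    have hm1 : ((-1 : ℂ)) ^ m ≠ 0 := pow_ne_zero _ (by norm_num)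
    have hmm : ((-1 : ℂ)) ^ m * (-1) ^ m = 1 := by rw [← mul_pow]; simp
    have hsm : s ^ m ≠ 0 := pow_ne_zero _ hs
    have hsm' : (s - 1) ^ m ≠ 0 := pow_ne_zero _ hs'
    field_simp at h ⊢
    linear_combination ((-1) ^ m) * h - (G s * X * P * s ^ m) * hmm
  have hfa : AnalyticOnNhd ℂ f Set.univ := Complex.analyticOnNhd_univ_iff_differentiable.mpr hfd
  have hga : AnalyticOnNhd ℂ g Set.univ := Complex.analyticOnNhd_univ_iff_differentiable.mpr hgd
  have hev : f =ᶠ[𝓝 (1 / 2 : ℂ)] g := by
    have ho : IsOpen {s : ℂ | 0 < s.re ∧ s.re < 1} := by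
      apply IsOpen.inter
      · exact isOpen_lt continuous_const Complex.continuous_re
      · exact isOpen_lt Complex.continuous_re continuous_const
    filter_upwards [ho.mem_nhds (show (1 / 2 : ℂ) ∈ {s : ℂ | 0 < s.re ∧ s.re < 1} by norm_num)] with s hs
    exact hstrip s hs.1 hs.2
  have := hfa.eq_of_eventuallyEq hga hev
  intro s
  exact congrFun this s

end Pool.Agent.H853R3.FEX
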