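import Pool.Agent.H853R3.FQT1

set_option autoImplicit false
open Set Topology

namespace Pool.Agent.H853R3.FQTheta
open Pool.Agent.H289R3.FQ

section main
variable {k : ℕ}

/-- complement of the rays in the ball -/
def WW (F : Set ℂ) (o : ℂ) (R : ℝ) : Set ℂ :=
  {z | ‖z‖ < R ∧ ∀ s ∈ F, ¬ ((zt s o z).im = 0 ∧ 0 ≤ (zt s o z).re)}

lemma WW_open (F : Set ℂ) (hF : F.Finite) (o : ℂ) (R : ℝ) : IsOpen (WW F o R) := by
  have h1 : WW F o R = Metric.ball 0 R ∩
      (⋃ s ∈ F, {z : ℂ | (zt s o z).im = 0 ∧ 0 ≤ (zt s o z).re})ᶜ := by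
    ext z
    simp [WW, Metric.mem_ball]
  rw [h1]
  refine Metric.isOpen_ball.inter (IsClosed.isOpen_compl (self := ?_))
  apply hF.isClosed_biUnion
  intro s _
  have hc := zt_cont s o
  exact (isClosed_eq (Complex.continuous_im.comp hc) continuous_const).inter
    (isClosed_le continuous_const (Complex.continuous_re.comp hc))

lemma WW_star (F : Set ℂ) (o : ℂ) (R : ℝ) (ho : ‖o‖ < R) (hoF : o ∉ F) :
    StarConvex ℝ o (WW F o R) := by
  intro z hz a b ha hb hab
  refine ⟨?_, ?_⟩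
  · have h1 : a • o + b • z ∈ Metric.ball (0 : ℂ) R :=
      convex_ball (0 : ℂ) R (by simpa using ho) (by simpa using hz.1) ha hb hab
    simpa using h1
  · intro s hs h
    have hso : s - o ≠ 0 := sub_ne_zero.2 (fun h => hoF (h ▸ hs))
    have h1 : zt s o (a • o + b • z) = b * zt s o z - a := by
      rw [zt, zt]
      simp only [Complex.real_smul]
      have : (a : ℂ) + b = 1 := by exact_mod_cast hab
      field_simp
      linear_combination s * this
    rw [h1] at h
    simp only [Complex.sub_im, Complex.mul_im, Complex.ofReal_re, Complex.ofReal_im, zero_mul,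
      add_zero, sub_zero, Complex.sub_re, Complex.mul_re] at h
    obtain ⟨h2, h3⟩ := h
    have hb0 : b ≠ 0 := by
      rintro rfl
      simp at h3 hab
      linarith
    have hbpos : 0 < b := lt_of_le_of_ne hb (Ne.symm hb0)
    refine hz.2 s hs ⟨?_, ?_⟩
    · rcases mul_eq_zero.1 h2 with h | h
      · exact absurd h hb0
      · exact h
    · have : 0 ≤ b * (zt s o z).re := by linarith
      exact nonneg_of_mul_nonneg_right this hbpos

lemma zt_affine (s o x y : ℂ) {a b : ℝ} (hab : a + b = 1) :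
    zt s o (a • x + b • y) = a * zt s o x + b * zt s o y := by
  rw [zt, zt, zt]
  simp only [Complex.real_smul]
  have : (a : ℂ) + b = 1 := by exact_mod_cast hab
  by_cases h : s - o = 0
  · simp [h]
  · field_simp
    linear_combination s * this

lemma zt_affine_re (s o x y : ℂ) {a b : ℝ} (hab : a + b = 1) :
    (zt s o (a • x + b • y)).re = a * (zt s o x).re + b * (zt s o y).re := by
  rw [zt_affine s o x y hab]; simp

lemma zt_affine_im (s o x y : ℂ) {a b : ℝ} (hab : a + b = 1) :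
    (zt s o (a • x + b • y)).im = a * (zt s o x).im + b * (zt s o y).im := by
  rw [zt_affine s o x y hab]; simp

lemma VV_convex (o : ℂ) (c : ℝ) (s : ℂ) : Convex ℝ (VV o c s) := by
  intro x hx y hy a b ha hb hab
  simp only [VV, mem_setOf_eq] at *
  rw [zt_affine_re s o x y hab, zt_affine_im s o x y hab]
  rw [abs_lt] at *
  rcases ha.lt_or_eq with h | h
  · constructor <;> nlinarith
  · have : b = 1 := by linarith
    subst this
    rw [← h]
    constructor <;> linarith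

lemma im_neg_convex (s o : ℂ) : Convex ℝ {z : ℂ | (zt s o z).im < 0} := by
  intro x hx y hy a b ha hb hab
  simp only [mem_setOf_eq] at *
  rw [zt_affine_im s o x y hab]
  rcases ha.lt_or_eq with h | h
  · nlinarith
  · have : b = 1 := by linarith
    subst this
    rw [← h]; linarith

lemma im_pos_convex (s o : ℂ) : Convex ℝ {z : ℂ | 0 < (zt s o z).im} := by
  intro x hx y hy a b ha hb hab
  simp only [mem_setOf_eq] at *
  rw [zt_affine_im s o x y hab]
  rcases ha.lt_or_eq with h | h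
  · nlinarith
  · have : b = 1 := by linarith
    subst this
    rw [← h]; linarith

lemma fst_convex {E : Type*} [AddCommGroup E] [Module ℝ E] {A : Set ℂ} (hA : Convex ℝ A) :
    Convex ℝ {q : ℂ × E | q.1 ∈ A} := hA.linear_preimage (LinearMap.fst ℝ ℂ E)

lemma VV_open (o : ℂ) (c : ℝ) (s : ℂ) : IsOpen (VV o c s) := by
  have hc := zt_cont s o
  exact isOpen_lt (continuous_abs.comp (Complex.continuous_im.comp hc))
    (continuous_const.mul (Complex.continuous_re.comp hc))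

lemma KK_closed (o : ℂ) (c : ℝ) (s : ℂ) : IsClosed (KK o c s) := by
  have hc := zt_cont s o
  exact isClosed_le (continuous_abs.comp (Complex.continuous_im.comp hc))
    (continuous_const.mul (Complex.continuous_re.comp hc))

/-- cut-off -/
noncomputable def chi (c : ℝ) (ζ : ℂ) : ℝ := max 0 (min 1 (1 - ζ.im / (c * ζ.re)))

lemma chi_one {c : ℝ} (hc : 0 < c) {ζ : ℂ} (h0 : 0 < ζ.re) (h : ζ.im ≤ 0) : chi c ζ = 1 := by
  unfold chi
  have : ζ.im / (c * ζ.re) ≤ 0 := div_nonpos_of_nonpos_of_nonneg h (by positivity)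
  rw [min_eq_left (by linarith), max_eq_right zero_le_one]

lemma chi_zero {c : ℝ} (hc : 0 < c) {ζ : ℂ} (h0 : 0 < ζ.re) (h : c * ζ.re ≤ ζ.im) :
    chi c ζ = 0 := by
  unfold chi
  have : 1 ≤ ζ.im / (c * ζ.re) := by
    rw [le_div_iff₀ (by positivity)]; linarith
  apply max_eq_left
  exact (min_le_right _ _).trans (by linarith)

lemma main_local (S : Set ℂ) (F : Set ℂ) (hF : F.Finite) (R : ℝ) (hFS : ∀ z, ‖z‖ < R → z ∈ S → z ∈ F)
    (hSF : F ⊆ S) (o : ℂ) (ho : ‖o‖ < R) (hoF : o ∉ F) (c : ℝ) (hc : 0 < c) (hc4 : c ≤ 1 / 4)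
    (hρ : ∀ s ∈ F, ∀ t ∈ F, s ≠ t →
      8 * c * (|((t - o) / (s - o)).re| + 1) ≤ |((t - o) / (s - o)).im|)
    (p₁ p₂ : ℂ × EuclideanSpace ℝ (Fin k) → T1)
    (hp₁ : ContinuousOn p₁ {q | q.1 ∉ S}) (hp₂ : ContinuousOn p₂ {q | q.1 ∉ S})
    (P : ℂ × EuclideanSpace ℝ (Fin k) → ℝ) (hP : ContinuousOn P {q | q.1 ∈ WW F o R})
    (hPp : ∀ q ∈ {q : ℂ × EuclideanSpace ℝ (Fin k) | q.1 ∈ WW F o R}, (P q : T1) = p₁ q)
    (s : ℂ) (hs : s ∈ F) :
    ∃ (Ps Qs : ℂ × EuclideanSpace ℝ (Fin k) → ℝ) (κ : ℤ),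
      ContinuousOn Ps {q | q.1 ∈ VV o c s ∧ ‖q.1‖ < R} ∧
      ContinuousOn Qs {q | q.1 ∈ VV o c s ∧ ‖q.1‖ < R} ∧
      (∀ q : ℂ × EuclideanSpace ℝ (Fin k), q.1 ∈ VV o c s → ‖q.1‖ < R → (Ps q : T1) = p₁ q) ∧
      (∀ q : ℂ × EuclideanSpace ℝ (Fin k), q.1 ∈ VV o c s → ‖q.1‖ < R → (Qs q : T1) = p₂ q) ∧
      (∀ q : ℂ × EuclideanSpace ℝ (Fin k), q.1 ∈ VV o c s → ‖q.1‖ < R →
        (zt s o q.1).im < 0 → Ps q = P q) ∧
      (∀ q : ℂ × EuclideanSpace ℝ (Fin k), q.1 ∈ VV o c s → ‖q.1‖ < R →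
        0 < (zt s o q.1).im → Ps q = P q + κ) := by
  have hne : ∀ t ∈ F, t ≠ o := fun t ht h => hoF (h ▸ ht)
  set A : Set (ℂ × EuclideanSpace ℝ (Fin k)) := {q | q.1 ∈ VV o c s ∧ ‖q.1‖ < R} with hA
  have hAo : IsOpen A := ((VV_open o c s).preimage continuous_fst).inter
    (isOpen_lt (continuous_norm.comp continuous_fst) continuous_const)
  have hball : Convex ℝ {z : ℂ | ‖z‖ < R} := by
    have e : {z : ℂ | ‖z‖ < R} = Metric.ball 0 R := by ext z; simp
    rw [e]; exact convex_ball (0 : ℂ) R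
  have hAc : Convex ℝ A := fst_convex ((VV_convex o c s).inter hball)
  have hAS : ∀ q ∈ A, q.1 ∉ S := by
    intro q hq hqS
    have hqF := hFS _ hq.2 hqS
    by_cases h : q.1 = s
    · have h2 := hq.1
      rw [h] at h2
      exact self_notMem h2
    · exact cone_notMem hc (hne s hs) (hρ s hs _ hqF (Ne.symm h)) hq.1
  have hAW : ∀ q ∈ A, (zt s o q.1).im ≠ 0 → q.1 ∈ WW F o R := by
    intro q hq him
    refine ⟨hq.2, fun t ht h => ?_⟩
    by_cases hts : t = s
    · subst hts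
      exact him h.1
    · have hK : q.1 ∈ KK o c t := by
        simp only [KK, mem_setOf_eq, h.1, abs_zero]
        exact mul_nonneg hc.le h.2
      have hqt : q.1 ≠ t := by
        intro h'
        exact hAS q hq (h' ▸ hSF ht)
      have hV := KK_sub hc (hne t ht) hK hqt
      exact cone_disj hc hc4 (hne s hs) (hne t ht) (hρ s hs t ht (Ne.symm hts)) hq.1 hV
  obtain ⟨Pr, hPr, hPrp⟩ := exists_lift_convex hAo hAc p₁ (hp₁.mono hAS)
  obtain ⟨Qr, hQr, hQrp⟩ := exists_lift_convex hAo hAc p₂ (hp₂.mono hAS)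
  have hint : ∀ q ∈ A, (zt s o q.1).im ≠ 0 → ∃ n : ℤ, Pr q - P q = n := by
    intro q hq him
    rw [← coe_eq_iff, hPrp q hq, hPp q (hAW q hq him)]
  have hL : Convex ℝ {q : ℂ × EuclideanSpace ℝ (Fin k) | q ∈ A ∧ (zt s o q.1).im < 0} :=
    hAc.inter (fst_convex (im_neg_convex s o))
  have hU : Convex ℝ {q : ℂ × EuclideanSpace ℝ (Fin k) | q ∈ A ∧ 0 < (zt s o q.1).im} :=
    hAc.inter (fst_convex (im_pos_convex s o))
  have hcont : ∀ D : Set (ℂ × EuclideanSpace ℝ (Fin k)), (∀ q ∈ D, q ∈ A ∧ (zt s o q.1).im ≠ 0) →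
      ContinuousOn (fun q => Pr q - P q) D := by
    intro D hD
    refine (hPr.mono fun q hq => (hD q hq).1).sub (hP.mono fun q hq => ?_)
    exact hAW q (hD q hq).1 (hD q hq).2
  obtain ⟨n, hn⟩ := const_of_int hL.isPreconnected (fun q => Pr q - P q)
    (hcont _ fun q hq => ⟨hq.1, hq.2.ne⟩) (fun q hq => hint q hq.1 hq.2.ne)
  obtain ⟨m, hm⟩ := const_of_int hU.isPreconnected (fun q => Pr q - P q)
    (hcont _ fun q hq => ⟨hq.1, hq.2.ne'⟩) (fun q hq => hint q hq.1 hq.2.ne')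
  refine ⟨fun q => Pr q - n, Qr, m - n, hPr.sub continuousOn_const, hQr, ?_, ?_, ?_, ?_⟩
  · intro q h1 h2
    rw [← hPrp q ⟨h1, h2⟩, coe_eq_iff]
    exact ⟨-n, by push_cast; ring⟩
  · intro q h1 h2
    exact hQrp q ⟨h1, h2⟩
  · intro q h1 h2 h3
    have := hn q ⟨⟨h1, h2⟩, h3⟩
    change Pr q - n = P q
    change Pr q - P q = n at this
    linarith
  · intro q h1 h2 h3
    have := hm q ⟨⟨h1, h2⟩, h3⟩
    change Pr q - n = P q + ((m - n : ℤ) : ℝ)
    change Pr q - P q = m at this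
    push_cast
    linarith


theorem taskTheta : TaskTheta := by
  classical
  intro k S hSc hSd R p₁ p₂ hp₁ hp₂
  rcases le_or_gt R 0 with hR | hR
  · refine ⟨fun _ _ _ => 0, continuousOn_const, ?_⟩
    intro q u v hq
    have := norm_nonneg q.1
    linarith
  set F : Set ℂ := {z : ℂ | ‖z‖ < R} ∩ S with hFdef
  have hF : F.Finite := by
    refine Metric.finite_isBounded_inter_isClosed hSd ?_ hSc
    have e : {z : ℂ | ‖z‖ < R} = Metric.ball 0 R := by ext z; simp
    rw [e]; exact Metric.isBounded_ball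
  obtain ⟨o, ho, hoF, hgen⟩ := exists_o F hF hR
  obtain ⟨c, hc, hc4, hρ⟩ := exists_c F hF o hgen
  have hne : ∀ t ∈ F, t ≠ o := fun t ht h => hoF (h ▸ ht)
  have hWS : ∀ z ∈ WW F o R, z ∉ S := by
    intro z hz hzS
    refine hz.2 z ⟨hz.1, hzS⟩ ?_
    simp [zt]
  -- lift on W
  have hWo : IsOpen {q : ℂ × EuclideanSpace ℝ (Fin k) | q.1 ∈ WW F o R} :=
    (WW_open F hF o R).preimage continuous_fst
  have hWst : StarConvex ℝ (o, (0 : EuclideanSpace ℝ (Fin k)))
      {q : ℂ × EuclideanSpace ℝ (Fin k) | q.1 ∈ WW F o R} := by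
    intro q hq a b ha hb hab
    exact WW_star F o R ho hoF hq ha hb hab
  obtain ⟨P, hP, hPp⟩ := exists_lift hWo hWst p₁ (hp₁.mono fun q hq => hWS _ hq)
  have hloc := fun s (hs : s ∈ F) => main_local S F hF R (fun z h1 h2 => ⟨h1, h2⟩)
    inter_subset_right o ho hoF c hc hc4 hρ p₁ p₂ hp₁ hp₂ P hP hPp s hs
  choose! Ps Qs κ hPs hQs hPs1 hQs1 hPs2 hPs3 using hloc
  let fm : ℂ → (ℂ × EuclideanSpace ℝ (Fin k)) → ℝ → ℝ := fun s q v =>
    Ps s q * v + κ s * (chi c (zt s o q.1) - 1) * Qs s q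
  let θ : (ℂ × EuclideanSpace ℝ (Fin k)) → ℝ → T1 := fun q v =>
    if h : ∃ s, s ∈ F ∧ q.1 ∈ VV o c s then ((fm h.choose q v : ℝ) : T1) else ((P q * v : ℝ) : T1)
  have huniq : ∀ z : ℂ, ∀ s ∈ F, ∀ t ∈ F, z ∈ VV o c s → z ∈ VV o c t → s = t := by
    intro z s hs t ht h1 h2
    by_contra hst
    exact cone_disj hc hc4 (hne s hs) (hne t ht) (hρ s hs t ht hst) h1 h2
  have hθ1 : ∀ (q : ℂ × EuclideanSpace ℝ (Fin k)) (v : ℝ) (s : ℂ), s ∈ F → q.1 ∈ VV o c s →
      θ q v = ((fm s q v : ℝ) : T1) := by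
    intro q v s hs hq
    have h : ∃ s, s ∈ F ∧ q.1 ∈ VV o c s := ⟨s, hs, hq⟩
    have hch : h.choose = s := huniq q.1 _ h.choose_spec.1 s hs h.choose_spec.2 hq
    simp only [θ, dif_pos h, hch]
  have hθ2 : ∀ (q : ℂ × EuclideanSpace ℝ (Fin k)) (v : ℝ), ‖q.1‖ < R →
      (∀ s ∈ F, q.1 ∉ KK o c s) → p₂ q = (v : T1) → θ q v = ((P q * v : ℝ) : T1) := by
    intro q v hq hK hv
    by_cases h : ∃ s, s ∈ F ∧ q.1 ∈ VV o c s
    · obtain ⟨s, hs, hqV⟩ := h
      rw [hθ1 q v s hs hqV]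
      have hre : 0 < (zt s o q.1).re := by
        have h1 : |(zt s o q.1).im| < 2 * c * (zt s o q.1).re := hqV
        have h2 := abs_nonneg (zt s o q.1).im
        by_contra hcon
        push Not at hcon
        nlinarith
      have hnK : c * (zt s o q.1).re < |(zt s o q.1).im| := by
        have := hK s hs
        simp only [KK, mem_setOf_eq, not_le] at this
        exact this
      rcases lt_or_ge (zt s o q.1).im 0 with him | him
      · simp only [fm]
        rw [chi_one hc hre him.le, hPs2 s hs q hqV hq him]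
        congr 1; ring
      · rw [abs_of_nonneg him] at hnK
        have him' : 0 < (zt s o q.1).im := lt_of_le_of_lt (by positivity) hnK
        simp only [fm]
        rw [chi_zero hc hre hnK.le, hPs3 s hs q hqV hq him']
        have h1 : ((Qs s q : ℝ) : T1) = (v : T1) := by rw [hQs1 s hs q hqV hq, hv]
        obtain ⟨n, hn⟩ := (coe_eq_iff _ _).1 h1
        rw [coe_eq_iff]
        refine ⟨-(κ s * n), ?_⟩
        push_cast
        rw [← hn]; ring
    · simp only [θ, dif_neg h]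
  refine ⟨fun q _ v => θ q v, ?_, ?_⟩
  · rintro ⟨q, u, v⟩ ⟨hq, hqS, hqu, hqv⟩
    simp only at hq hqS hqu hqv
    by_cases h : ∃ s, s ∈ F ∧ q.1 ∈ VV o c s
    · obtain ⟨s, hs, hqV⟩ := h
      set A : Set (ℂ × EuclideanSpace ℝ (Fin k)) := {q | q.1 ∈ VV o c s ∧ ‖q.1‖ < R} with hA
      have hAo : IsOpen A := ((VV_open o c s).preimage continuous_fst).inter
        (isOpen_lt (continuous_norm.comp continuous_fst) continuous_const)
      have hA1 : A ∈ 𝓝 q := hAo.mem_nhds ⟨hqV, hq⟩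
      have hre : 0 < (zt s o q.1).re := by
        have h1 : |(zt s o q.1).im| < 2 * c * (zt s o q.1).re := hqV
        have h2 := abs_nonneg (zt s o q.1).im
        by_contra hcon
        push Not at hcon
        nlinarith
      have hz : ContinuousAt (fun q : ℂ × EuclideanSpace ℝ (Fin k) => zt s o q.1) q :=
        ((zt_cont s o).comp continuous_fst).continuousAt
      have hchi : ContinuousAt (fun q : ℂ × EuclideanSpace ℝ (Fin k) => chi c (zt s o q.1)) q := by
        unfold chi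
        refine ContinuousAt.sup continuousAt_const (ContinuousAt.inf continuousAt_const ?_)
        refine continuousAt_const.sub ?_
        refine ContinuousAt.div (Complex.continuous_im.continuousAt.comp hz)
          (continuousAt_const.mul (Complex.continuous_re.continuousAt.comp hz)) ?_
        exact (mul_pos hc hre).ne'
      have hfst : ContinuousAt (fun x : (ℂ × EuclideanSpace ℝ (Fin k)) × ℝ × ℝ => x.1) (q, u, v) :=
        continuousAt_fst
      have hv : ContinuousAt (fun x : (ℂ × EuclideanSpace ℝ (Fin k)) × ℝ × ℝ => x.2.2) (q, u, v) := by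
        fun_prop
      have h1 : ContinuousAt (fun x : (ℂ × EuclideanSpace ℝ (Fin k)) × ℝ × ℝ => fm s x.1 x.2.2)
          (q, u, v) := by
        refine ContinuousAt.add (ContinuousAt.mul ?_ hv) (ContinuousAt.mul (ContinuousAt.mul
          continuousAt_const (ContinuousAt.sub ?_ continuousAt_const)) ?_)
        · exact ContinuousAt.comp (x := ((q, u, v) : (ℂ × EuclideanSpace ℝ (Fin k)) × ℝ × ℝ))
            ((hPs s hs).continuousAt hA1) hfst
        · exact ContinuousAt.comp (x := ((q, u, v) : (ℂ × EuclideanSpace ℝ (Fin k)) × ℝ × ℝ))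
            (g := fun q : ℂ × EuclideanSpace ℝ (Fin k) => chi c (zt s o q.1)) hchi hfst
        · exact ContinuousAt.comp (x := ((q, u, v) : (ℂ × EuclideanSpace ℝ (Fin k)) × ℝ × ℝ))
            ((hQs s hs).continuousAt hA1) hfst
      have h2 : ContinuousAt (fun x : (ℂ × EuclideanSpace ℝ (Fin k)) × ℝ × ℝ =>
          ((fm s x.1 x.2.2 : ℝ) : T1)) (q, u, v) :=
        (AddCircle.continuous_mk' (1 : ℝ)).continuousAt.comp h1
      refine (h2.congr ?_).continuousWithinAt
      filter_upwards [hfst.eventually (hAo.mem_nhds ⟨hqV, hq⟩)] with x hx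
      exact (hθ1 x.1 x.2.2 s hs hx.1).symm
    · have hK : ∀ s ∈ F, q.1 ∉ KK o c s := by
        intro s hs hqK
        apply h
        refine ⟨s, hs, KK_sub hc (hne s hs) hqK ?_⟩
        intro h'
        exact hqS (h' ▸ hs.2)
      have hOo : IsOpen {q : ℂ × EuclideanSpace ℝ (Fin k) | ‖q.1‖ < R ∧ ∀ s ∈ F, q.1 ∉ KK o c s} := by
        have h1 : IsClosed (⋃ s ∈ F, KK o c s) := hF.isClosed_biUnion fun s _ => KK_closed o c s
        have h2 : {q : ℂ × EuclideanSpace ℝ (Fin k) | ‖q.1‖ < R ∧ ∀ s ∈ F, q.1 ∉ KK o c s} =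
            {q | ‖q.1‖ < R} ∩ (Prod.fst ⁻¹' (⋃ s ∈ F, KK o c s)ᶜ) := by
          ext x; simp
        rw [h2]
        exact (isOpen_lt (continuous_norm.comp continuous_fst) continuous_const).inter
          (h1.isOpen_compl.preimage continuous_fst)
      have hqW : q.1 ∈ WW F o R := by
        refine ⟨hq, fun s hs h' => hK s hs ?_⟩
        simp only [KK, mem_setOf_eq, h'.1, abs_zero]
        exact mul_nonneg hc.le h'.2
      have hfst : ContinuousAt (fun x : (ℂ × EuclideanSpace ℝ (Fin k)) × ℝ × ℝ => x.1) (q, u, v) :=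
        continuousAt_fst
      have hv : ContinuousAt (fun x : (ℂ × EuclideanSpace ℝ (Fin k)) × ℝ × ℝ => x.2.2) (q, u, v) := by
        fun_prop
      have h1 : ContinuousAt (fun x : (ℂ × EuclideanSpace ℝ (Fin k)) × ℝ × ℝ => P x.1 * x.2.2)
          (q, u, v) := by
        refine ContinuousAt.mul ?_ hv
        exact ContinuousAt.comp (x := ((q, u, v) : (ℂ × EuclideanSpace ℝ (Fin k)) × ℝ × ℝ))
          (hP.continuousAt (hWo.mem_nhds hqW)) hfst
      have h2 : ContinuousAt (fun x : (ℂ × EuclideanSpace ℝ (Fin k)) × ℝ × ℝ =>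
          ((P x.1 * x.2.2 : ℝ) : T1)) (q, u, v) :=
        (AddCircle.continuous_mk' (1 : ℝ)).continuousAt.comp h1
      refine h2.continuousWithinAt.congr_of_eventuallyEq ?_ (hθ2 q v hq hK hqv)
      filter_upwards [self_mem_nhdsWithin, mem_nhdsWithin_of_mem_nhds
        (hfst.eventually (hOo.mem_nhds ⟨hq, hK⟩))] with x hx hx'
      exact hθ2 x.1 x.2.2 hx'.1 hx'.2 hx.2.2.2
  · intro q u v hq hqS hqu hqv
    refine ⟨rfl, ?_⟩
    have hv1 : p₂ q = ((v + 1 : ℝ) : T1) := by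
      rw [hqv, coe_eq_iff]; exact ⟨-1, by push_cast; ring⟩
    by_cases h : ∃ s, s ∈ F ∧ q.1 ∈ VV o c s
    · obtain ⟨s, hs, hqV⟩ := h
      change θ q (v + 1) = θ q v + (u : T1)
      rw [hθ1 q _ s hs hqV, hθ1 q _ s hs hqV, ← hqu, ← hPs1 s hs q hqV hq, ← AddCircle.coe_add]
      congr 1
      simp only [fm]
      ring
    · have hK : ∀ s ∈ F, q.1 ∉ KK o c s := by
        intro s hs hqK
        apply h
        refine ⟨s, hs, KK_sub hc (hne s hs) hqK ?_⟩
        intro h'
        exact hqS (h' ▸ hs.2)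
      have hqW : q.1 ∈ WW F o R := by
        refine ⟨hq, fun s hs h' => hK s hs ?_⟩
        simp only [KK, mem_setOf_eq, h'.1, abs_zero]
        exact mul_nonneg hc.le h'.2
      change θ q (v + 1) = θ q v + (u : T1)
      rw [hθ2 q _ hq hK hv1, hθ2 q _ hq hK hqv, ← hqu, ← hPp q hqW, ← AddCircle.coe_add]
      congr 1
      ring

end main

end Pool.Agent.H853R3.FQTheta
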