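import Pool.Agent.H723R3.Beur.Alg
import Pool.Agent.H723R3.Beur.Stmts

set_option autoImplicit false
set_option linter.unusedSectionVars false

/-!
# Project BEURLING, task B3 (helper853): the single step
-/

namespace Beur.B3

open Beur
open scoped BoundedContinuousFunction Cardinal

universe u

section

variable {G : Type u} [Group G] [TopologicalSpace G] [DiscreteTopology G]

lemma ev_add (a b : G →₀ ℝ) (f : G →ᵇ ℝ) : ev (a + b) f = ev a f + ev b f := by
  rw [ev_apply, ev_apply, ev_apply]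
  exact Finsupp.sum_add_index' (fun _ => zero_mul _) (fun _ _ _ => add_mul _ _ _)

lemma R_add' (K : Ker G) (a b : G →₀ ℝ) (f : G →ᵇ ℝ) : R K (a + b) f = R K a f + R K b f :=
  Finsupp.sum_add_index' (fun _ => zero_smul ℝ _) (fun _ _ _ => add_smul _ _ _)

lemma restr_univ (e : StrongDual ℝ (G →ᵇ ℝ)) (f : G →ᵇ ℝ) : restr Set.univ e f = e f := by
  show e (ind Set.univ f) = e f
  congr 1
  ext g
  simp

lemma restr_union (e : StrongDual ℝ (G →ᵇ ℝ)) (A B : Set G) (h : Disjoint A B) (f : G →ᵇ ℝ) :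
    restr (A ∪ B) e f = restr A e f + restr B e f := by
  show e (ind (A ∪ B) f) = e (ind A f) + e (ind B f)
  rw [← map_add]
  congr 1
  ext g
  simp only [ind_apply, BoundedContinuousFunction.coe_add, Pi.add_apply, Set.mem_union]
  by_cases hA : g ∈ A
  · have hB : g ∉ B := Set.disjoint_left.1 h hA
    simp [hA, hB]
  · by_cases hB : g ∈ B
    · simp [hA, hB]
    · simp [hA, hB]

lemma small_finite [Infinite G] {S : Set G} (hS : S.Finite) : #S < #G :=
  hS.lt_aleph0.trans_le (Cardinal.aleph0_le_mk G)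

lemma small_union [Infinite G] {S T : Set G} (hS : #S < #G) (hT : #T < #G) :
    #(S ∪ T : Set G) < #G :=
  (Cardinal.mk_union_le S T).trans_lt
    (Cardinal.add_lt_of_lt (Cardinal.aleph0_le_mk G) hS hT)

lemma small_biUnion [Infinite G] {ι : Type*} (P : Finset ι) (S : ι → Set G)
    (h : ∀ i ∈ P, #(S i) < #G) : #(⋃ i ∈ P, S i : Set G) < #G := by
  classical
  induction P using Finset.induction_on with
  | empty => exact small_finite (by simp)
  | insert a s ha ih =>
    rw [Finset.set_biUnion_insert]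
    exact small_union (h a (Finset.mem_insert_self a s))
      (ih fun i hi => h i (Finset.mem_insert_of_mem hi))

/-- `TaskB1` for finite sets of functions -/
lemma b1 (h1 : TaskB1.{u}) [Infinite G] (K : Ker G) (e : StrongDual ℝ (G →ᵇ ℝ)) (he : Good K e)
    (Wf Ff : Finset (G →ᵇ ℝ)) (D Q : Set G) (ε : ℝ) (hW : ∀ w ∈ Wf, e w = 0 ∧ act K e w = w)
    (hQ : #Q < #G) (hε : 0 < ε) :
    ∃ b : G →₀ ℝ, (∀ g, 0 ≤ b g) ∧ (∀ g ∈ b.support, g ∈ D ∧ g ∉ Q) ∧
      (∀ w ∈ Wf, ‖R K b w‖ < ε) ∧ (∀ f ∈ Ff, |ev b f - restr D e f| < ε) := by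
  obtain ⟨b, hb0, hbs, hbw, hbf⟩ := h1 G K e he Wf.card Ff.card
    (fun i => (Wf.equivFin.symm i : G →ᵇ ℝ)) (fun i => (Ff.equivFin.symm i : G →ᵇ ℝ)) D Q ε
    (fun i => (hW _ (Wf.equivFin.symm i).2).1) (fun i => (hW _ (Wf.equivFin.symm i).2).2) hQ hε
  refine ⟨b, hb0, hbs, ?_, ?_⟩
  · intro w hw
    have := hbw (Wf.equivFin ⟨w, hw⟩)
    simp only [Equiv.symm_apply_apply] at this
    exact this
  · intro f hf
    have := hbf (Ff.equivFin ⟨f, hf⟩)
    simp only [Equiv.symm_apply_apply] at this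
    exact this

/-- the separated version -/
lemma b12 (h1 : TaskB1.{u}) (h2 : TaskB2.{u}) [Infinite G] (K : Ker G)
    (e : StrongDual ℝ (G →ᵇ ℝ)) (he : Good K e) (Wf Ff : Finset (G →ᵇ ℝ)) (Q : Set G)
    (T : Finset G) (ε : ℝ) (hW : ∀ w ∈ Wf, e w = 0 ∧ act K e w = w) (hQ : #Q < #G) (hε : 0 < ε) :
    ∃ b : G →₀ ℝ, (∀ g, 0 ≤ b g) ∧ (∀ g ∈ b.support, g ∉ Q) ∧
      (∀ k ∈ b.support, ∀ k' ∈ b.support, k ≠ k' → k' * k⁻¹ ∉ T) ∧
      (∀ w ∈ Wf, ‖R K b w‖ < ε) ∧ (∀ f ∈ Ff, |ev b f - e f| < ε) := by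
  classical
  obtain ⟨m, χ, hχ⟩ := h2 G T
  set η : ℝ := ε / (m + 1) with hη
  have hη0 : 0 < η := by positivity
  have key : ∀ c : ℕ, c ≤ m → ∃ b : G →₀ ℝ, (∀ g, 0 ≤ b g) ∧
      (∀ g ∈ b.support, (χ g : ℕ) < c ∧ g ∉ Q) ∧
      (∀ k ∈ b.support, ∀ k' ∈ b.support, k ≠ k' → k' * k⁻¹ ∉ T) ∧
      (∀ w ∈ Wf, ‖R K b w‖ ≤ c * η) ∧
      (∀ f ∈ Ff, |ev b f - restr {g | (χ g : ℕ) < c} e f| ≤ c * η) := by
    intro c
    induction c with
    | zero =>
      intro _
      refine ⟨0, fun g => le_refl _, by simp, by simp, ?_, ?_⟩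
      · intro w _
        have : R K (0 : G →₀ ℝ) w = 0 := Finsupp.sum_zero_index
        rw [this]
        simp
      · intro f _
        have e1 : ev (0 : G →₀ ℝ) f = 0 := by rw [ev_apply]; exact Finsupp.sum_zero_index
        have e2 : restr {g : G | (χ g : ℕ) < 0} e f = 0 := by
          show e (ind {g : G | (χ g : ℕ) < 0} f) = 0
          have : ind {g : G | (χ g : ℕ) < 0} f = 0 := by
            ext g
            simp
          rw [this, map_zero]
        rw [e1, e2]
        simp
    | succ c ih =>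
      intro hc
      obtain ⟨b, hb0, hbs, hbT, hbw, hbf⟩ := ih (by omega)
      set S : Set G := {k | ∃ k0 ∈ b.support, k * k0⁻¹ ∈ T ∨ k0 * k⁻¹ ∈ T ∨ k = k0} with hS
      have hSfin : S.Finite := by
        have : S ⊆ ((T ×ˢ b.support).image (fun z : G × G => z.1 * z.2) : Finset G) ∪
            ((T ×ˢ b.support).image (fun z : G × G => z.1⁻¹ * z.2) : Finset G) ∪
            (b.support : Set G) := by
          rintro k ⟨k0, hk0, h | h | h⟩
          · left; left
            rw [Finset.coe_image]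
            exact ⟨(k * k0⁻¹, k0), by simp [h, Finsupp.mem_support_iff.1 hk0], by simp⟩
          · left; right
            rw [Finset.coe_image]
            exact ⟨(k0 * k⁻¹, k0), by simp [h, Finsupp.mem_support_iff.1 hk0], by simp⟩
          · right
            rw [h]
            exact hk0
        exact (((Finset.finite_toSet _).union (Finset.finite_toSet _)).union
          (Finset.finite_toSet _)).subset this
      obtain ⟨b', hb'0, hb's, hb'w, hb'f⟩ := b1 h1 K e he Wf Ff {g | (χ g : ℕ) = c} (Q ∪ S) η hW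
        (small_union hQ (small_finite hSfin)) hη0
      have hsupp : ∀ g ∈ (b + b').support, g ∈ b.support ∨ g ∈ b'.support := by
        intro g hg
        have := Finsupp.support_add hg
        rwa [Finset.mem_union] at this
      refine ⟨b + b', ?_, ?_, ?_, ?_, ?_⟩
      · intro g
        rw [Finsupp.add_apply]
        exact add_nonneg (hb0 g) (hb'0 g)
      · intro g hg
        rcases hsupp g hg with h | h
        · exact ⟨(hbs g h).1.trans (Nat.lt_succ_self c), (hbs g h).2⟩
        · obtain ⟨h3, h4⟩ := hb's g h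
          refine ⟨?_, fun h5 => h4 (Or.inl h5)⟩
          have : (χ g : ℕ) = c := h3
          omega
      · intro k hk k' hk' hne
        rcases hsupp k hk with h | h <;> rcases hsupp k' hk' with h' | h'
        · exact hbT k h k' h' hne
        · intro hT
          exact (hb's k' h').2 (Or.inr ⟨k, h, Or.inl hT⟩)
        · intro hT
          exact (hb's k h).2 (Or.inr ⟨k', h', Or.inr (Or.inl hT)⟩)
        · intro hT
          apply hχ k k' hne hT
          have e1 : (χ k : ℕ) = c := (hb's k h).1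
          have e2 : (χ k' : ℕ) = c := (hb's k' h').1
          exact Fin.ext (e1.trans e2.symm)
      · intro w hw
        rw [R_add']
        have h3 := hbw w hw
        have h4 := hb'w w hw
        push_cast
        calc ‖R K b w + R K b' w‖ ≤ ‖R K b w‖ + ‖R K b' w‖ := norm_add_le _ _
          _ ≤ (c + 1) * η := by linarith
      · intro f hf
        have h3 := hbf f hf
        have h4 := hb'f f hf
        have hset : {g : G | (χ g : ℕ) < c + 1} = {g : G | (χ g : ℕ) < c} ∪ {g : G | (χ g : ℕ) = c} := by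
          ext g
          simp only [Set.mem_union, Set.mem_ofPred_eq]
          omega
        have hdis : Disjoint {g : G | (χ g : ℕ) < c} {g : G | (χ g : ℕ) = c} := by
          rw [Set.disjoint_left]
          intro g hg hg'
          simp only [Set.mem_ofPred_eq] at hg hg'
          omega
        rw [ev_add, hset, restr_union e _ _ hdis]
        push_cast
        calc |ev b f + ev b' f - (restr {g | (χ g : ℕ) < c} e f + restr {g | (χ g : ℕ) = c} e f)|
            = |(ev b f - restr {g | (χ g : ℕ) < c} e f) +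
                (ev b' f - restr {g | (χ g : ℕ) = c} e f)| := by
              congr 1; ring
          _ ≤ |ev b f - restr {g | (χ g : ℕ) < c} e f| +
                |ev b' f - restr {g | (χ g : ℕ) = c} e f| := abs_add_le _ _
          _ ≤ (c + 1) * η := by linarith
  obtain ⟨b, hb0, hbs, hbT, hbw, hbf⟩ := key m le_rfl
  have hlt : (m : ℝ) * η < ε := by
    rw [hη, mul_div_assoc', div_lt_iff₀ (by positivity)]
    nlinarith
  refine ⟨b, hb0, fun g hg => (hbs g hg).2, hbT, fun w hw => (hbw w hw).trans_lt hlt, ?_⟩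
  intro f hf
  have h3 := hbf f hf
  have hset : {g : G | (χ g : ℕ) < m} = Set.univ := by
    ext g
    simp
  rw [hset, restr_univ] at h3
  exact h3.trans_lt hlt

lemma conv_est (K : Ker G) (e : StrongDual ℝ (G →ᵇ ℝ)) (a b : G →₀ ℝ) (f : G →ᵇ ℝ) (δ : ℝ)
    (ha : ∀ g, 0 ≤ a g) (hb : ∀ h ∈ a.support, |ev b (L K h f) - e (L K h f)| ≤ δ) :
    |ev (conv K a b) f - ev a (act K e f)| ≤ ev a one' * δ := by
  rw [ev_conv, ev_apply, ev_apply, Finsupp.sum, Finsupp.sum, Finsupp.sum,
    ← Finset.sum_sub_distrib, Finset.sum_mul]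
  refine (Finset.abs_sum_le_sum_abs _ _).trans (Finset.sum_le_sum fun h hh => ?_)
  rw [act_apply, ← mul_sub, abs_mul, abs_of_nonneg (ha h), one'_apply, mul_one]
  exact mul_le_mul_of_nonneg_left (hb h hh) (ha h)

end

theorem taskB3 : TaskB1.{u} → TaskB2.{u} → TaskB3.{u} := by
  classical
  intro h1 h2 G _ _ _ _ K e he F Q ε hQ hε
  obtain ⟨he0, hpos, hunif, hee, hgood⟩ := id he
  set uu := act K e one' with huu
  set E := e one' with hE
  have hE0 : 0 < E := hpos.one_pos he0
  have hact : act K e uu = uu := by rw [huu, act_act, hee]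
  have heu : e uu = E := by
    have h3 : box K e e one' = e one' := by rw [hee]
    exact h3
  have hLu : ∀ g, act K e (L K g uu) = L K g uu := fun g => by rw [← L_act, hact]
  have heL : ∀ g, e (L K g one') = uu g := fun g => rfl
  have heLu : ∀ g, e (L K g uu) = uu g := fun g => by
    rw [← act_apply, hact]
  -- parameters
  set M : ℝ := 1 + 2 / E * (E + 1) * ‖uu‖ with hM
  have hM1 : 1 ≤ M := by
    have : 0 ≤ 2 / E * (E + 1) * ‖uu‖ := by positivity
    linarith
  have hM0 : 0 < M := by linarith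
  set δ : ℝ := min 1 (ε / (4 * M)) with hδ
  have hδ0 : 0 < δ := lt_min one_pos (by positivity)
  have hδ1 : δ ≤ 1 := min_le_left _ _
  have hδε : δ * M ≤ ε / 4 := by
    have : δ ≤ ε / (4 * M) := min_le_right _ _
    calc δ * M ≤ ε / (4 * M) * M := mul_le_mul_of_nonneg_right this hM0.le
      _ = ε / 4 := by field_simp
  have hδε2 : δ ≤ ε / 4 := by nlinarith
  -- the measures `a1`, `a2`
  obtain ⟨a1, ha1, -, -, ha1f⟩ := b1 h1 K e he ∅ (F.image fun g => L K g uu) Set.univ ∅ δ
    (by simp) (small_finite Set.finite_empty) hδ0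
  have ha1g : ∀ g ∈ F, |ev a1 (L K g uu) - uu g| < δ := by
    intro g hg
    have := ha1f (L K g uu) (Finset.mem_image_of_mem _ hg)
    rwa [restr_univ, heLu] at this
  set Q2 : Finset G := ((F ×ˢ F) ×ˢ a1.support).image
    (fun z : (G × G) × G => z.1.2⁻¹ * (z.1.1 * z.2)) with hQ2
  obtain ⟨a2, ha2, ha2s, -, ha2f⟩ := b1 h1 K e he ∅ (F.image fun g => L K g uu) Set.univ
    (Q2 : Set G) δ (by simp) (small_finite (Finset.finite_toSet _)) hδ0
  have ha2g : ∀ g ∈ F, |ev a2 (L K g uu) - uu g| < δ := by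
    intro g hg
    have := ha2f (L K g uu) (Finset.mem_image_of_mem _ hg)
    rwa [restr_univ, heLu] at this
  have hdis : ∀ g ∈ F, ∀ g' ∈ F, ∀ x ∈ a1.support, ∀ y ∈ a2.support, g * x ≠ g' * y := by
    intro g hg g' hg' x hx y hy hxy
    apply (ha2s y hy).2
    rw [hQ2, Finset.coe_image]
    refine ⟨((g, g'), x), ?_, ?_⟩
    · rw [Finset.mem_coe, Finset.mem_product, Finset.mem_product]
      exact ⟨⟨hg, hg'⟩, hx⟩
    · show g'⁻¹ * (g * x) = y
      rw [hxy]
      group
  set T : Finset G := ((F ×ˢ F) ×ˢ (a1.support ×ˢ a2.support)).image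
    (fun z : (G × G) × (G × G) => z.2.2⁻¹ * (z.1.2⁻¹ * (z.1.1 * z.2.1))) with hT
  set A : Finset G := a1.support ∪ a2.support with hA
  set Q' : Set G := ⋃ z ∈ F ×ˢ A, {k : G | z.1 * z.2 * k ∈ Q} with hQ'
  have hQ's : #Q' < #G := by
    refine small_biUnion _ _ fun z _ => ?_
    have : {k : G | z.1 * z.2 * k ∈ Q} = (fun k => z.1 * z.2 * k) ⁻¹' Q := rfl
    rw [this]
    exact (Cardinal.mk_preimage_of_injective _ _ (mul_right_injective (z.1 * z.2))).trans_lt hQ
  set v : G → (G →ᵇ ℝ) := fun g => R K a1 (L K g uu) - R K a2 (L K g uu) with hv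
  have hvact : ∀ g, act K e (v g) = v g := fun g => by
    simp only [hv]
    rw [map_sub, act_R, act_R, hLu]
  have hve : ∀ g ∈ F, |e (v g)| < 2 * δ := by
    intro g hg
    have h3 : e (v g) = (ev a1 (L K g uu) - uu g) - (ev a2 (L K g uu) - uu g) := by
      simp only [hv]
      rw [map_sub, apply_R K a1 e _ (hLu g), apply_R K a2 e _ (hLu g)]
      ring
    rw [h3]
    have h4 := abs_lt.1 (ha1g g hg)
    have h5 := abs_lt.1 (ha2g g hg)
    rw [abs_lt]
    constructor <;> linarith [h4.1, h4.2, h5.1, h5.2]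
  set w : G → (G →ᵇ ℝ) := fun g => v g - (e (v g) / E) • uu with hw
  have hwe : ∀ g, e (w g) = 0 := by
    intro g
    simp only [hw]
    rw [map_sub, map_smul, smul_eq_mul, heu]
    field_simp
    ring
  have hwact : ∀ g, act K e (w g) = w g := by
    intro g
    simp only [hw]
    rw [map_sub, map_smul, hvact, hact]
  -- the separated measure `b`
  have hev1 : 0 ≤ ev a1 one' := ev_pos a1 ha1 _ fun g => by simp
  have hev2 : 0 ≤ ev a2 one' := ev_pos a2 ha2 _ fun g => by simp
  set δb : ℝ := δ / (1 + ev a1 one' + ev a2 one') with hδb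
  have hden : 0 < 1 + ev a1 one' + ev a2 one' := by linarith
  have hδb0 : 0 < δb := div_pos hδ0 hden
  have hmul : (1 + ev a1 one' + ev a2 one') * δb = δ := by
    rw [hδb]; field_simp
  have hδb1 : δb ≤ δ := by nlinarith
  have hm1 : ev a1 one' * δb ≤ δ := by nlinarith
  have hm2 : ev a2 one' * δb ≤ δ := by nlinarith
  obtain ⟨b, hb0, hbQ, hbT, hbw, hbf⟩ := b12 h1 h2 K e he (F.image w)
    (insert one' ((F ×ˢ A).image fun z : G × G => L K z.2 (L K z.1 one'))) Q' T δb
    (by
      intro x hx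
      obtain ⟨g, _, rfl⟩ := Finset.mem_image.1 hx
      exact ⟨hwe g, hwact g⟩) hQ's hδb0
  have hb1 : ev b one' ≤ E + 1 := by
    have h3 := abs_lt.1 (hbf one' (Finset.mem_insert_self _ _))
    linarith [h3.2]
  have hbL : ∀ g ∈ F, ∀ h ∈ A, |ev b (L K h (L K g one')) - e (L K h (L K g one'))| ≤ δb := by
    intro g hg h hh
    refine (hbf _ (Finset.mem_insert_of_mem (Finset.mem_image.2 ⟨(g, h), ?_, rfl⟩))).le
    rw [Finset.mem_product]
    exact ⟨hg, hh⟩
  have hQoff : ∀ g ∈ F, ∀ h ∈ A, ∀ k ∈ b.support, g * (h * k) ∉ Q := by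
    intro g hg h hh k hk hcon
    apply hbQ k hk
    rw [hQ']
    simp only [Set.mem_iUnion]
    refine ⟨(g, h), ?_, ?_⟩
    · rw [Finset.mem_product]
      exact ⟨hg, hh⟩
    · show g * h * k ∈ Q
      rwa [mul_assoc]
  have hLg : ∀ g, act K e (L K g one') = L K g uu := fun g => (L_act K g e one').symm
  refine ⟨conv K a1 b, conv K a2 b, conv_nonneg K a1 b ha1 hb0, conv_nonneg K a2 b ha2 hb0,
    ?_, ?_, ?_, ?_, ?_, ?_⟩
  · intro g hg g' hg' x hx y hy hxy
    obtain ⟨h, hh, k, hk, rfl⟩ := conv_support K a1 b hx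
    obtain ⟨h', hh', k', hk', rfl⟩ := conv_support K a2 b hy
    by_cases hkk : k = k'
    · subst hkk
      apply hdis g hg g' hg' h hh h' hh'
      have : g * h * k = g' * h' * k := by rw [mul_assoc, mul_assoc]; exact hxy
      exact mul_right_cancel this
    · apply hbT k hk k' hk' hkk
      rw [hT, Finset.mem_image]
      refine ⟨((g, g'), (h, h')), ?_, ?_⟩
      · rw [Finset.mem_product, Finset.mem_product, Finset.mem_product]
        exact ⟨⟨hg, hg'⟩, ⟨hh, hh'⟩⟩
      · show h'⁻¹ * (g'⁻¹ * (g * h)) = k' * k⁻¹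
        have h3 : g * h = g' * (h' * k') * k⁻¹ := by
          rw [← hxy]
          group
        rw [h3]
        group
  · intro g hg x hx
    obtain ⟨h, hh, k, hk, rfl⟩ := conv_support K a1 b hx
    exact hQoff g hg h (Finset.mem_union_left _ hh) k hk
  · intro g hg x hx
    obtain ⟨h, hh, k, hk, rfl⟩ := conv_support K a2 b hx
    exact hQoff g hg h (Finset.mem_union_right _ hh) k hk
  · intro g hg
    have h3 := conv_est K e a1 b (L K g one') δb ha1
      (fun h hh => hbL g hg h (Finset.mem_union_left _ hh))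
    rw [hLg] at h3
    have h4 := ha1g g hg
    rw [heL]
    calc |ev (conv K a1 b) (L K g one') - uu g|
        = |(ev (conv K a1 b) (L K g one') - ev a1 (L K g uu)) + (ev a1 (L K g uu) - uu g)| := by
          congr 1; ring
      _ ≤ |ev (conv K a1 b) (L K g one') - ev a1 (L K g uu)| + |ev a1 (L K g uu) - uu g| :=
          abs_add_le _ _
      _ < ε := by linarith
  · intro g hg
    have h3 := conv_est K e a2 b (L K g one') δb ha2
      (fun h hh => hbL g hg h (Finset.mem_union_right _ hh))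
    rw [hLg] at h3
    have h4 := ha2g g hg
    rw [heL]
    calc |ev (conv K a2 b) (L K g one') - uu g|
        = |(ev (conv K a2 b) (L K g one') - ev a2 (L K g uu)) + (ev a2 (L K g uu) - uu g)| := by
          congr 1; ring
      _ ≤ |ev (conv K a2 b) (L K g one') - ev a2 (L K g uu)| + |ev a2 (L K g uu) - uu g| :=
          abs_add_le _ _
      _ < ε := by linarith
  · intro g hg
    have h3 : R K (conv K a1 b) (L K g uu) - R K (conv K a2 b) (L K g uu) =
        R K b (w g) + (e (v g) / E) • R K b uu := by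
      rw [R_conv, R_conv, ← R_sub, ← R_smul, ← R_add]
      congr 1
      simp only [hw, hv]
      rw [sub_add_cancel]
    rw [h3]
    have h4 : ‖R K b (w g)‖ < δb := hbw (w g) (Finset.mem_image_of_mem _ hg)
    have h5 : ‖R K b uu‖ ≤ (E + 1) * ‖uu‖ :=
      (R_norm K b hb0 uu).trans (mul_le_mul_of_nonneg_right hb1 (norm_nonneg _))
    have h6 : |e (v g) / E| ≤ 2 * δ / E := by
      rw [abs_div, abs_of_pos hE0]
      exact div_le_div_of_nonneg_right (hve g hg).le hE0.le
    calc ‖R K b (w g) + (e (v g) / E) • R K b uu‖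
        ≤ ‖R K b (w g)‖ + ‖(e (v g) / E) • R K b uu‖ := norm_add_le _ _
      _ = ‖R K b (w g)‖ + |e (v g) / E| * ‖R K b uu‖ := by rw [norm_smul, Real.norm_eq_abs]
      _ ≤ δ + 2 * δ / E * ((E + 1) * ‖uu‖) := by
          refine add_le_add (h4.le.trans hδb1) (mul_le_mul h6 h5 (norm_nonneg _) (by positivity))
      _ = δ * M := by rw [hM]; field_simp
      _ < ε := by linarith

end Beur.B3

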