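import Pool.Agent.H487R3.Cau.Stmts

set_option autoImplicit false

/-!
`TaskMarc`: the Marcinkiewicz weight.
-/

open MeasureTheory Filter Set Topology
open scoped ENNReal NNReal

namespace Pool.Agent.H853R3.CauMarc

open Pool.Agent.H487R3.Cau

theorem cs {α : Type*} [MeasurableSpace α] (μ : Measure α) (f g : α → ℝ≥0∞) (hf : AEMeasurable f μ)
    (hg : AEMeasurable g μ) :
    (∫⁻ x, f x * g x ∂μ) ^ 2 ≤ (∫⁻ x, f x ^ 2 ∂μ) * ∫⁻ x, g x ^ 2 ∂μ := by
  have h := ENNReal.lintegral_mul_le_Lp_mul_Lq μ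
    (Real.HolderConjugate.two_two) hf hg
  have h2 : ∀ A : ℝ≥0∞, (A ^ (1 / (2 : ℝ))) ^ 2 = A := by
    intro A
    rw [← ENNReal.rpow_natCast, ← ENNReal.rpow_mul]
    norm_num
  have h3 : ∀ A : ℝ≥0∞, A ^ (2 : ℝ) = A ^ 2 := by
    intro A
    rw [← ENNReal.rpow_natCast]
    norm_num
  calc (∫⁻ x, f x * g x ∂μ) ^ 2 = (∫⁻ x, (f * g) x ∂μ) ^ 2 := rfl
    _ ≤ ((∫⁻ x, f x ^ (2 : ℝ) ∂μ) ^ (1 / (2 : ℝ)) * (∫⁻ x, g x ^ (2 : ℝ) ∂μ) ^ (1 / (2 : ℝ))) ^ 2 := by
        gcongr
    _ = (∫⁻ x, f x ^ 2 ∂μ) * ∫⁻ x, g x ^ 2 ∂μ := by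
        rw [mul_pow, h2, h2]
        simp only [h3]

/-- one half of the kernel integral -/
theorem half (d : ℝ) (hd : 0 < d) :
    ∫⁻ u in Ioi d, ENNReal.ofReal (d / u ^ 2) = 1 := by
  have hint : IntegrableOn (fun u : ℝ => d / u ^ 2) (Ioi d) := by
    have h : IntegrableOn (fun u : ℝ => d * u ^ (-2 : ℝ)) (Ioi d) :=
      (integrableOn_Ioi_rpow_of_lt (show (-2 : ℝ) < -1 by norm_num) hd).const_mul d
    refine IntegrableOn.congr_fun h ?_ measurableSet_Ioi
    intro u hu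
    have hu0 : 0 < u := lt_trans hd hu
    show d * u ^ (-2 : ℝ) = d / u ^ 2
    rw [Real.rpow_neg hu0.le, div_eq_mul_inv]
    norm_num
  rw [← ofReal_integral_eq_lintegral_ofReal hint]
  · have h1 : ∫ u in Ioi d, d / u ^ 2 = ∫ u in Ioi d, d * u ^ (-2 : ℝ) := by
      refine setIntegral_congr_fun measurableSet_Ioi ?_
      intro u hu
      have hu0 : 0 < u := lt_trans hd hu
      show d / u ^ 2 = d * u ^ (-2 : ℝ)
      rw [Real.rpow_neg hu0.le, div_eq_mul_inv]
      norm_num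
    rw [h1, integral_const_mul, integral_Ioi_rpow_of_lt (show (-2 : ℝ) < -1 by norm_num) hd]
    have h2 : ((-2 : ℝ) + 1) = -1 := by norm_num
    rw [h2, Real.rpow_neg_one]
    have h3 : d * (-d⁻¹ / -1) = 1 := by
      field_simp
    rw [h3, ENNReal.ofReal_one]
  · filter_upwards with u
    exact div_nonneg hd.le (sq_nonneg u)

theorem kern_le (E : Set ℝ) (s : ℝ) :
    ∫⁻ t in E, ENNReal.ofReal (Metric.infDist s E / (s - t) ^ 2) ≤ 2 := by
  rcases (Metric.infDist_nonneg (x := s) (s := E)).eq_or_lt with h0 | hd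
  · rw [← h0]
    simp
  · set d := Metric.infDist s E with hdd
    have hsub : ∀ t ∈ E, t ∈ Iic (s - d) ∪ Ici (s + d) := by
      intro t ht
      have h1 : d ≤ dist s t := Metric.infDist_le_dist_of_mem ht
      rw [Real.dist_eq] at h1
      rcases le_abs.mp h1 with h2 | h2
      · left
        exact (by linarith : t ≤ s - d)
      · right
        exact (by linarith : s + d ≤ t)
    have hR : ∫⁻ t in Ici (s + d), ENNReal.ofReal (d / (s - t) ^ 2) = 1 := by
      rw [← half d hd, ← setLIntegral_congr (Ioi_ae_eq_Ici (a := s + d))]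
      have hmp : MeasurePreserving (fun u : ℝ => u + s) volume volume :=
        measurePreserving_add_right volume s
      have hpre : (fun u : ℝ => u + s) ⁻¹' (Ioi (s + d)) = Ioi d := by
        ext u
        simp only [mem_preimage, mem_Ioi]
        constructor <;> intro h <;> linarith
      rw [← hmp.setLIntegral_comp_preimage measurableSet_Ioi (by fun_prop), hpre]
      refine lintegral_congr fun u => ?_
      congr 2
      ring
    have hL : ∫⁻ t in Iic (s - d), ENNReal.ofReal (d / (s - t) ^ 2) = 1 := by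
      rw [← half d hd, ← setLIntegral_congr (Iio_ae_eq_Iic (a := s - d))]
      have hmp : MeasurePreserving (fun u : ℝ => s - u) volume volume :=
        Measure.measurePreserving_sub_left volume s
      have hpre : (fun u : ℝ => s - u) ⁻¹' (Iio (s - d)) = Ioi d := by
        ext u
        simp only [mem_preimage, mem_Iio, mem_Ioi]
        constructor <;> intro h <;> linarith
      rw [← hmp.setLIntegral_comp_preimage measurableSet_Iio (by fun_prop), hpre]
      refine lintegral_congr fun u => ?_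
      congr 2
      ring
    calc ∫⁻ t in E, ENNReal.ofReal (d / (s - t) ^ 2)
        ≤ ∫⁻ t in Iic (s - d) ∪ Ici (s + d), ENNReal.ofReal (d / (s - t) ^ 2) :=
          lintegral_mono_set hsub
      _ ≤ (∫⁻ t in Iic (s - d), ENNReal.ofReal (d / (s - t) ^ 2)) +
            ∫⁻ t in Ici (s + d), ENNReal.ofReal (d / (s - t) ^ 2) := lintegral_union_le _ _ _
      _ = 2 := by rw [hL, hR]; norm_num

/-- the kernel -/
noncomputable def kk (E : Set ℝ) (s t : ℝ) : ℝ≥0∞ :=
  ENNReal.ofReal (Metric.infDist s E / (s - t) ^ 2)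

theorem kk_meas (E : Set ℝ) : Measurable (fun q : ℝ × ℝ => kk E q.2 q.1) := by
  unfold kk
  have h1 : Measurable (fun q : ℝ × ℝ => Metric.infDist q.2 E) :=
    (Metric.continuous_infDist_pt E).measurable.comp measurable_snd
  exact (h1.div ((measurable_snd.sub measurable_fst).pow_const 2)).ennreal_ofReal

theorem kk_meas_left (E : Set ℝ) (s : ℝ) : Measurable (fun t : ℝ => kk E s t) := by
  unfold kk
  exact (measurable_const.div ((measurable_const.sub measurable_id).pow_const 2)).ennreal_ofReal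

theorem kk_cs (E : Set ℝ) (L : ℝ) (F : ℝ → ℝ≥0∞) (hF : Measurable F) (t : ℝ) :
    (∫⁻ s in Icc (0 : ℝ) L, F s * kk E s t) ^ 2 ≤
      (∫⁻ s in Icc (0 : ℝ) L, F s ^ 2 * kk E s t) * ∫⁻ s in Icc (0 : ℝ) L, kk E s t := by
  let κ : ℝ → ℝ≥0∞ := fun s => ENNReal.ofReal (√(Metric.infDist s E / (s - t) ^ 2))
  have hκκ : ∀ s, κ s * κ s = kk E s t := by
    intro s
    show ENNReal.ofReal (√(Metric.infDist s E / (s - t) ^ 2)) *
      ENNReal.ofReal (√(Metric.infDist s E / (s - t) ^ 2)) =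
      ENNReal.ofReal (Metric.infDist s E / (s - t) ^ 2)
    rw [← ENNReal.ofReal_mul (Real.sqrt_nonneg _), Real.mul_self_sqrt]
    exact div_nonneg Metric.infDist_nonneg (sq_nonneg _)
  have hκm : Measurable κ := by
    have h1 : Measurable (fun s : ℝ => Metric.infDist s E / (s - t) ^ 2) :=
      (Metric.continuous_infDist_pt E).measurable.div ((measurable_id.sub_const t).pow_const 2)
    exact h1.sqrt.ennreal_ofReal
  have h := cs (volume.restrict (Icc (0 : ℝ) L)) (fun s => F s * κ s) κ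
    (hF.mul hκm).aemeasurable hκm.aemeasurable
  have e1 : ∀ s, F s * κ s * κ s = F s * kk E s t := fun s => by rw [mul_assoc, hκκ]
  have e2 : ∀ s, (F s * κ s) ^ 2 = F s ^ 2 * kk E s t := fun s => by
    rw [mul_pow, sq (κ s), hκκ]
  have e3 : ∀ s, κ s ^ 2 = kk E s t := fun s => by rw [sq, hκκ]
  simp only [e1, e2, e3] at h
  exact h

/-- the Marcinkiewicz integral -/
noncomputable def mm (E : Set ℝ) (L t : ℝ) : ℝ≥0∞ := ∫⁻ s in Icc (0 : ℝ) L, kk E s t

theorem mm_meas (E : Set ℝ) (L : ℝ) : Measurable (mm E L) := by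
  unfold mm
  exact (kk_meas E).lintegral_prod_right'

theorem mm_fin (E : Set ℝ) (L : ℝ) (hE : IsClosed E) : ∀ᵐ t : ℝ, t ∈ E → mm E L t < ∞ := by
  have hsw : ∫⁻ t in E, mm E L t = ∫⁻ s in Icc (0 : ℝ) L, ∫⁻ t in E, kk E s t := by
    unfold mm
    exact lintegral_lintegral_swap (kk_meas E).aemeasurable
  have hmint : ∫⁻ t in E, mm E L t ≤ 2 * volume (Icc (0 : ℝ) L) := by
    rw [hsw]
    calc ∫⁻ s in Icc (0 : ℝ) L, ∫⁻ t in E, kk E s t ≤ ∫⁻ _s in Icc (0 : ℝ) L, 2 :=
          lintegral_mono fun s => kern_le E s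
      _ = 2 * volume (Icc (0 : ℝ) L) := by rw [setLIntegral_const]
  have hfin : ∫⁻ t in E, mm E L t ≠ ∞ := by
    refine ne_top_of_le_ne_top ?_ hmint
    rw [Real.volume_Icc]
    exact ENNReal.mul_ne_top (by norm_num) ENNReal.ofReal_ne_top
  have h := ae_lt_top (mm_meas E L) hfin
  rwa [ae_restrict_iff' hE.measurableSet] at h

theorem main (E : Set ℝ) (L : ℝ) (F : ℝ → ℝ≥0∞) (hF : Measurable F) :
    ∫⁻ t in E, (∫⁻ s in Icc (0 : ℝ) L, F s * kk E s t) ^ 2 * (1 + mm E L t)⁻¹ ≤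
      2 * ∫⁻ s in Icc (0 : ℝ) L, F s ^ 2 := by
  calc ∫⁻ t in E, (∫⁻ s in Icc (0 : ℝ) L, F s * kk E s t) ^ 2 * (1 + mm E L t)⁻¹
      ≤ ∫⁻ t in E, ∫⁻ s in Icc (0 : ℝ) L, F s ^ 2 * kk E s t := by
        refine lintegral_mono fun t => ?_
        calc (∫⁻ s in Icc (0 : ℝ) L, F s * kk E s t) ^ 2 * (1 + mm E L t)⁻¹
            ≤ ((∫⁻ s in Icc (0 : ℝ) L, F s ^ 2 * kk E s t) * mm E L t) * (1 + mm E L t)⁻¹ :=
              mul_le_mul' (kk_cs E L F hF t) le_rfl
          _ = (∫⁻ s in Icc (0 : ℝ) L, F s ^ 2 * kk E s t) * (mm E L t * (1 + mm E L t)⁻¹) :=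
              mul_assoc _ _ _
          _ ≤ (∫⁻ s in Icc (0 : ℝ) L, F s ^ 2 * kk E s t) * 1 := by
              refine mul_le_mul' le_rfl ?_
              calc mm E L t * (1 + mm E L t)⁻¹ ≤ (1 + mm E L t) * (1 + mm E L t)⁻¹ :=
                    mul_le_mul' le_add_self le_rfl
                _ ≤ 1 := ENNReal.mul_inv_le_one _
          _ = ∫⁻ s in Icc (0 : ℝ) L, F s ^ 2 * kk E s t := mul_one _
    _ = ∫⁻ s in Icc (0 : ℝ) L, ∫⁻ t in E, F s ^ 2 * kk E s t := by
        refine lintegral_lintegral_swap ?_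
        have : Measurable (fun q : ℝ × ℝ => F q.2 ^ 2 * kk E q.2 q.1) :=
          ((hF.comp measurable_snd).pow_const 2).mul (kk_meas E)
        exact this.aemeasurable
    _ ≤ ∫⁻ s in Icc (0 : ℝ) L, 2 * F s ^ 2 := by
        refine lintegral_mono fun s => ?_
        show ∫⁻ t in E, F s ^ 2 * kk E s t ≤ 2 * F s ^ 2
        rw [lintegral_const_mul _ (kk_meas_left E s), mul_comm]
        exact mul_le_mul' (kern_le E s) le_rfl
    _ = 2 * ∫⁻ s in Icc (0 : ℝ) L, F s ^ 2 := by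
        rw [lintegral_const_mul _ (hF.pow_const 2)]

theorem taskMarc : TaskMarc := by
  intro L E hL hE hEL hne
  have hinv1 : ∀ t, (1 + mm E L t)⁻¹ ≤ 1 := fun t => by
    rw [ENNReal.inv_le_one]
    exact le_self_add
  have hinvtop : ∀ t, (1 + mm E L t)⁻¹ ≠ ∞ := fun t =>
    ne_top_of_le_ne_top ENNReal.one_ne_top (hinv1 t)
  refine ⟨fun t => ((1 + mm E L t)⁻¹).toReal, ?_, ?_, ?_, ?_, ?_⟩
  · exact ((measurable_const.add (mm_meas E L)).inv).ennreal_toReal
  · intro t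
    exact ENNReal.toReal_nonneg
  · intro t
    have := ENNReal.toReal_mono ENNReal.one_ne_top (hinv1 t)
    rwa [ENNReal.toReal_one] at this
  · filter_upwards [mm_fin E L hE] with t ht hte
    apply ENNReal.toReal_pos
    · rw [ENNReal.inv_ne_zero]
      exact ENNReal.add_ne_top.mpr ⟨ENNReal.one_ne_top, (ht hte).ne⟩
    · exact hinvtop t
  · intro F hF
    have h := main E L F hF
    have e : ∀ t, ENNReal.ofReal ((1 + mm E L t)⁻¹).toReal = (1 + mm E L t)⁻¹ := fun t =>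
      ENNReal.ofReal_toReal (hinvtop t)
    simp only [e]
    exact h

end Pool.Agent.H853R3.CauMarc

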