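import Pool.Agent.H289R3.FQ.Tasks

set_option autoImplicit false
open Set Topology

namespace Pool.Agent.H853R3.FQTheta
open Pool.Agent.H289R3.FQ

/-- real lift on open star-convex sets -/
lemma exists_lift {V : Type*} [NormedAddCommGroup V] [NormedSpace ℝ V] {A : Set V} (hA : IsOpen A)
    {x0 : V} (hst : StarConvex ℝ x0 A) (p : V → T1) (hp : ContinuousOn p A) :
    ∃ P : V → ℝ, ContinuousOn P A ∧ ∀ q ∈ A, (P q : T1) = p q := by
  classical
  rcases A.eq_empty_or_nonempty with rfl | hne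
  · exact ⟨fun _ => 0, continuousOn_empty _, fun q hq => absurd hq (notMem_empty _)⟩
  have : ContractibleSpace A := hst.contractibleSpace hne
  have : LocallyPathConnectedSpace A := hA.locallyPathConnectedSpace
  obtain ⟨a, ha⟩ := hne
  let f : C(A, T1) := ⟨fun x => p x.1, hp.domRestrict⟩
  obtain ⟨e0, he0⟩ : ∃ e : ℝ, (e : T1) = f ⟨a, ha⟩ := QuotientAddGroup.mk_surjective _
  obtain ⟨F, ⟨_, hF⟩, _⟩ := (AddCircle.isCoveringMap_coe (1 : ℝ)).existsUnique_continuousMap_lifts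
    f ⟨a, ha⟩ e0 he0
  refine ⟨fun x => if h : x ∈ A then F ⟨x, h⟩ else 0, ?_, ?_⟩
  · rw [continuousOn_iff_continuous_domRestrict]
    have : A.domRestrict (fun x => if h : x ∈ A then F ⟨x, h⟩ else 0) = F := by
      funext x
      simp [Set.domRestrict, x.2]
    rw [this]
    exact F.continuous
  · intro q hq
    simp only [hq, dif_pos]
    exact congrFun hF ⟨q, hq⟩

/-- a continuous real function on a preconnected set with integer values is constant -/
lemma const_of_int {V : Type*} [TopologicalSpace V] {D : Set V} (hD : IsPreconnected D)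
    (g : V → ℝ) (hg : ContinuousOn g D) (hint : ∀ x ∈ D, ∃ n : ℤ, g x = n) :
    ∃ n : ℤ, ∀ x ∈ D, g x = n := by
  rcases D.eq_empty_or_nonempty with rfl | ⟨a, ha⟩
  · exact ⟨0, fun x hx => absurd hx (notMem_empty _)⟩
  obtain ⟨n, hn⟩ := hint a ha
  refine ⟨n, fun x hx => ?_⟩
  have him : IsPreconnected (g '' D) := hD.image g hg
  have hoc : (g '' D).OrdConnected := him.ordConnected
  obtain ⟨m, hm⟩ := hint x hx
  have key : ∀ (i j : ℤ), (i : ℝ) ∈ g '' D → (j : ℝ) ∈ g '' D → ¬ i < j := by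
    intro i j hi hj hij
    have h1 : ((i : ℝ) + 1 / 2) ∈ g '' D := by
      apply hoc.out hi hj
      constructor
      · linarith
      · have : (i : ℝ) + 1 ≤ j := by exact_mod_cast hij
        linarith
    obtain ⟨y, hy, hgy⟩ := h1
    obtain ⟨l, hl⟩ := hint y hy
    rw [hl] at hgy
    have h2 : (2 * l : ℝ) = 2 * i + 1 := by linarith
    have h3 : (2 * l : ℤ) = 2 * i + 1 := by exact_mod_cast h2
    omega
  have hx' : (m : ℝ) ∈ g '' D := ⟨x, hx, hm⟩
  have ha' : (n : ℝ) ∈ g '' D := ⟨a, ha, hn⟩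
  have h1 := key m n hx' ha'
  have h2 := key n m ha' hx'
  have : m = n := by omega
  rw [hm, this]

lemma coe_eq_iff (x y : ℝ) : (x : T1) = (y : T1) ↔ ∃ n : ℤ, x - y = n := by
  rw [← sub_eq_zero, ← AddCircle.coe_sub, AddCircle.coe_eq_zero_iff]
  constructor
  · rintro ⟨n, hn⟩
    exact ⟨n, by rw [← hn]; simp⟩
  · rintro ⟨n, hn⟩
    exact ⟨n, by rw [hn]; simp⟩


lemma exists_lift_convex {V : Type*} [NormedAddCommGroup V] [NormedSpace ℝ V] {A : Set V}
    (hA : IsOpen A) (hc : Convex ℝ A) (p : V → T1) (hp : ContinuousOn p A) :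
    ∃ P : V → ℝ, ContinuousOn P A ∧ ∀ q ∈ A, (P q : T1) = p q := by
  rcases A.eq_empty_or_nonempty with rfl | ⟨a, ha⟩
  · exact ⟨fun _ => 0, continuousOn_empty _, fun q hq => absurd hq (notMem_empty _)⟩
  · exact exists_lift hA (hc.starConvex ha) p hp

/-- the coordinate -/
noncomputable def zt (s o z : ℂ) : ℂ := (z - s) / (s - o)

lemma quad_finite (A B C0 : ℝ) (h : A ≠ 0 ∨ B ≠ 0) : {τ : ℝ | C0 + B * τ + A * τ ^ 2 = 0}.Finite := by
  have hp : (Polynomial.C C0 + Polynomial.C B * Polynomial.X + Polynomial.C A * Polynomial.X ^ 2 :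
      Polynomial ℝ) ≠ 0 := by
    intro h0
    have h1 := congrArg (fun q : Polynomial ℝ => q.coeff 1) h0
    have h2 := congrArg (fun q : Polynomial ℝ => q.coeff 2) h0
    simp [Polynomial.coeff_X, Polynomial.coeff_C] at h1 h2
    rcases h with h | h
    · exact h h2
    · exact h h1
  refine (Polynomial.finite_setOf_isRoot hp).subset ?_
  intro τ hτ
  simp only [mem_setOf_eq, Polynomial.IsRoot.def, Polynomial.eval_add, Polynomial.eval_mul,
    Polynomial.eval_C, Polynomial.eval_X, Polynomial.eval_pow]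
  exact hτ

lemma im_div_ne (t s o : ℂ) (hs : s ≠ o)
    (h : (t.im - o.im) * (s.re - o.re) - (t.re - o.re) * (s.im - o.im) ≠ 0) :
    ((t - o) / (s - o)).im ≠ 0 := by
  intro h0
  apply h
  have hne : s - o ≠ 0 := sub_ne_zero.2 hs
  have hn : Complex.normSq (s - o) ≠ 0 := by simpa [Complex.normSq_eq_zero] using hne
  rw [Complex.div_im] at h0
  field_simp at h0
  simp only [Complex.sub_re, Complex.sub_im] at h0
  linarith

lemma exists_o (F : Set ℂ) (hF : F.Finite) {R : ℝ} (hR : 0 < R) :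
    ∃ o : ℂ, ‖o‖ < R ∧ o ∉ F ∧ ∀ s ∈ F, ∀ t ∈ F, s ≠ t → ((t - o) / (s - o)).im ≠ 0 := by
  classical
  let e : ℝ := R / 2
  have he : 0 < e := by simp only [e]; linarith
  let o : ℝ → ℂ := fun τ => ⟨e * τ, e * τ ^ 2⟩
  have h1 : {τ : ℝ | o τ ∈ F}.Finite := by
    apply hF.preimage
    intro a _ b _ hab
    have := congrArg Complex.re hab
    simp only [o] at this
    exact mul_left_cancel₀ he.ne' this
  have h2 : (⋃ p ∈ F ×ˢ F, {τ : ℝ | p.1 ≠ p.2 ∧
      (p.2.im * p.1.re - p.2.re * p.1.im) + (e * (p.1.im - p.2.im)) * τ +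
        (e * (p.2.re - p.1.re)) * τ ^ 2 = 0}).Finite := by
    refine (hF.prod hF).biUnion ?_
    intro p _
    by_cases hp : p.1 = p.2
    · have : {τ : ℝ | p.1 ≠ p.2 ∧
      (p.2.im * p.1.re - p.2.re * p.1.im) + (e * (p.1.im - p.2.im)) * τ +
        (e * (p.2.re - p.1.re)) * τ ^ 2 = 0} = ∅ := by
        ext τ; simp [hp]
      rw [this]; exact finite_empty
    · refine (quad_finite (e * (p.2.re - p.1.re)) (e * (p.1.im - p.2.im))
        (p.2.im * p.1.re - p.2.re * p.1.im) ?_).subset (fun τ h => h.2)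
      by_contra hcon
      push Not at hcon
      obtain ⟨ha, hb⟩ := hcon
      apply hp
      apply Complex.ext
      · rcases mul_eq_zero.1 ha with h | h
        · exact absurd h he.ne'
        · linarith
      · rcases mul_eq_zero.1 hb with h | h
        · exact absurd h he.ne'
        · linarith
  obtain ⟨τ, hτ, hbad⟩ := (Ioo_infinite (zero_lt_one' ℝ)).exists_notMem_finite (h1.union h2)
  rw [mem_union, not_or] at hbad
  obtain ⟨hb1, hb2⟩ := hbad
  refine ⟨o τ, ?_, hb1, ?_⟩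
  · refine (Complex.norm_le_abs_re_add_abs_im _).trans_lt ?_
    simp only [o]
    have hτ0 := hτ.1
    have hτ1 := hτ.2
    rw [abs_of_pos (by positivity), abs_of_pos (by positivity)]
    have : τ ^ 2 < 1 := by nlinarith
    have h3 : e * τ < e := by nlinarith
    have h4 : e * τ ^ 2 < e := by nlinarith
    have : e + e = R := by simp only [e]; ring
    linarith
  · intro s hs t ht hst
    apply im_div_ne
    · intro h
      exact hb1 (by rw [mem_setOf_eq, ← h]; exact hs)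
    · intro h
      apply hb2
      refine mem_biUnion (x := (s, t)) ⟨hs, ht⟩ ⟨hst, ?_⟩
      simp only [o] at h
      linear_combination h

lemma exists_c (F : Set ℂ) (hF : F.Finite) (o : ℂ)
    (h : ∀ s ∈ F, ∀ t ∈ F, s ≠ t → ((t - o) / (s - o)).im ≠ 0) :
    ∃ c : ℝ, 0 < c ∧ c ≤ 1 / 4 ∧ ∀ s ∈ F, ∀ t ∈ F, s ≠ t →
      8 * c * (|((t - o) / (s - o)).re| + 1) ≤ |((t - o) / (s - o)).im| := by
  have h1 : ∀ᶠ c in 𝓝[>] (0 : ℝ), ∀ p ∈ F ×ˢ F, p.1 ≠ p.2 →
      8 * c * (|((p.2 - o) / (p.1 - o)).re| + 1) ≤ |((p.2 - o) / (p.1 - o)).im| := by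
    rw [Filter.eventually_all_finite (hF.prod hF)]
    intro p hp
    by_cases hpe : p.1 = p.2
    · exact Filter.Eventually.of_forall (fun c hc => absurd hpe hc)
    · have hpos : 0 < |((p.2 - o) / (p.1 - o)).im| := abs_pos.2 (h _ hp.1 _ hp.2 hpe)
      have hK : 0 < |((p.2 - o) / (p.1 - o)).re| + 1 := by positivity
      have : Ioo (0 : ℝ) (|((p.2 - o) / (p.1 - o)).im| / (8 * (|((p.2 - o) / (p.1 - o)).re| + 1)))
          ∈ 𝓝[>] (0 : ℝ) := Ioo_mem_nhdsGT (by positivity)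
      filter_upwards [this] with c hc _
      have := hc.2
      rw [lt_div_iff₀ (by positivity)] at this
      linarith
  have h2 : ∀ᶠ c in 𝓝[>] (0 : ℝ), c ∈ Ioo (0 : ℝ) (1 / 4) := Ioo_mem_nhdsGT (by norm_num)
  obtain ⟨c, hc1, hc2⟩ := (h1.and h2).exists
  exact ⟨c, hc2.1, hc2.2.le, fun s hs t ht hst => hc1 (s, t) ⟨hs, ht⟩ hst⟩

/-- open cone -/
def VV (o : ℂ) (c : ℝ) (s : ℂ) : Set ℂ := {z | |(zt s o z).im| < 2 * c * (zt s o z).re}
/-- closed half-size cone -/
def KK (o : ℂ) (c : ℝ) (s : ℂ) : Set ℂ := {z | |(zt s o z).im| ≤ c * (zt s o z).re}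

lemma zt_eq (s o z : ℂ) (hs : s ≠ o) : zt s o z = (z - o) / (s - o) - 1 := by
  have : s - o ≠ 0 := sub_ne_zero.2 hs
  rw [zt]; field_simp; ring

lemma cone_real {a b x y r i c : ℝ} (hc : 0 < c) (hc4 : c ≤ 1 / 4)
    (hρ : 8 * c * (|r| + 1) ≤ |i|) (h1 : |b| < 2 * c * (a - 1))
    (hx : x = r * a - i * b) (hy : y = r * b + i * a) (h2 : |y| < 2 * c * (x - 1)) : False := by
  have hb := abs_nonneg b
  have ha : 1 < a := by
    by_contra hcon
    push Not at hcon
    have : 2 * c * (a - 1) ≤ 0 := by nlinarith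
    linarith
  have hr := abs_nonneg r
  have hi := abs_nonneg i
  have e1 : |i| * a - |r| * |b| ≤ |y| := by
    have : |i * a| ≤ |y| + |r * b| := by
      have : i * a = y - r * b := by rw [hy]; ring
      rw [this]; exact abs_sub _ _
    rw [abs_mul, abs_mul, abs_of_pos (by linarith : (0 : ℝ) < a)] at this
    linarith
  have e2 : x ≤ |r| * a + |i| * |b| := by
    have h3 : r * a ≤ |r| * a := by
      apply mul_le_mul_of_nonneg_right (le_abs_self r) (by linarith)
    have h4 : -(i * b) ≤ |i| * |b| := by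
      rw [← abs_mul]; exact neg_le_abs _
    linarith
  have e3 : |b| < 2 * c * a := by nlinarith
  have e4 : |i| * a - |r| * |b| < 2 * c * (|r| * a + |i| * |b|) := by nlinarith
  have e5 : |r| * |b| ≤ |r| * (2 * c * a) := mul_le_mul_of_nonneg_left e3.le hr
  have e6 : |i| * |b| ≤ |i| * (2 * c * a) := mul_le_mul_of_nonneg_left e3.le hi
  have e7 : |i| * a < (4 * c * |r| + 4 * c ^ 2 * |i|) * a := by nlinarith
  have e8 : |i| < 4 * c * |r| + 4 * c ^ 2 * |i| := lt_of_mul_lt_mul_right e7 (by linarith)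
  have hc2 : 4 * c ^ 2 ≤ 1 / 4 := by nlinarith
  have e9 : 4 * c ^ 2 * |i| ≤ |i| / 4 := by
    have := mul_le_mul_of_nonneg_right hc2 hi
    linarith
  nlinarith

lemma cone_disj {o s t z : ℂ} {c : ℝ} (hc : 0 < c) (hc4 : c ≤ 1 / 4) (hs : s ≠ o) (ht : t ≠ o)
    (hρ : 8 * c * (|((t - o) / (s - o)).re| + 1) ≤ |((t - o) / (s - o)).im|)
    (h1 : z ∈ VV o c s) (h2 : z ∈ VV o c t) : False := by
  have hs' : s - o ≠ 0 := sub_ne_zero.2 hs
  have ht' : t - o ≠ 0 := sub_ne_zero.2 ht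
  simp only [VV, mem_setOf_eq, zt_eq _ _ _ hs, zt_eq _ _ _ ht, Complex.sub_re, Complex.sub_im,
    Complex.one_re, Complex.one_im, sub_zero] at h1 h2
  have hg : (z - o) / (s - o) = ((t - o) / (s - o)) * ((z - o) / (t - o)) := by field_simp
  refine cone_real (r := ((t - o) / (s - o)).re) (i := ((t - o) / (s - o)).im)
    (a := ((z - o) / (t - o)).re) (b := ((z - o) / (t - o)).im) hc hc4 hρ h2 ?_ ?_ h1
  · rw [hg, Complex.mul_re]
  · rw [hg, Complex.mul_im]

lemma cone_notMem {o s t : ℂ} {c : ℝ} (hc : 0 < c) (hs : s ≠ o)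
    (hρ : 8 * c * (|((t - o) / (s - o)).re| + 1) ≤ |((t - o) / (s - o)).im|) : t ∉ VV o c s := by
  intro h1
  simp only [VV, mem_setOf_eq, zt_eq _ _ _ hs, Complex.sub_re, Complex.sub_im,
    Complex.one_re, Complex.one_im, sub_zero] at h1
  have h2 := le_abs_self ((t - o) / (s - o)).re
  have h3 := abs_nonneg ((t - o) / (s - o)).re
  nlinarith

lemma self_notMem {o s : ℂ} {c : ℝ} : s ∉ VV o c s := by
  simp [VV, zt]

lemma zt_cont (s o : ℂ) : Continuous (zt s o) := by
  unfold zt; fun_prop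

lemma KK_sub {o c s z} (hc : (0 : ℝ) < c) (hs : s ≠ o) (hz : z ∈ KK o c s) (hzs : z ≠ s) :
    z ∈ VV o c s := by
  simp only [KK, VV, mem_setOf_eq] at *
  have h0 := abs_nonneg (zt s o z).im
  have hre : 0 ≤ (zt s o z).re := by
    by_contra hcon
    push Not at hcon
    nlinarith
  rcases hre.lt_or_eq with h | h
  · nlinarith
  · exfalso
    rw [← h, mul_zero] at hz
    have him : (zt s o z).im = 0 := abs_eq_zero.1 (le_antisymm hz h0)
    have : zt s o z = 0 := Complex.ext h.symm him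
    rw [zt, div_eq_zero_iff] at this
    rcases this with h | h
    · exact hzs (sub_eq_zero.1 h)
    · exact hs (sub_eq_zero.1 h)

end Pool.Agent.H853R3.FQTheta
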